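import Pool.Agent.LDQ.Targets

set_option autoImplicit false

/-!
# LDQ, target ABSO: logarithms are absorbed by a small power
-/

noncomputable section

namespace Pool.Agent.LDQ

theorem p_ABSO : T_ABSO := by
  intro ε hε
  have hl2 : 0 < Real.log 2 := Real.log_pos (by norm_num)
  refine ⟨6 / (ε * Real.log 2) ^ 3, by positivity, fun r hr => ?_⟩
  have hr0 : (0 : ℝ) < r := by exact_mod_cast (by omega : 0 < r)
  have hr1 : (1 : ℝ) ≤ r := by exact_mod_cast (by omega : 1 ≤ r)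
  have hy : 0 ≤ ε * Real.log r := mul_nonneg hε.le (Real.log_nonneg hr1)
  have h1 := Real.pow_div_factorial_le_exp _ hy 3
  have h2 : Real.exp (ε * Real.log r) = (r : ℝ) ^ ε := by
    rw [Real.rpow_def_of_pos hr0, mul_comm]
  rw [h2] at h1
  have h3 : ((Nat.factorial 3 : ℕ) : ℝ) = 6 := by norm_num [Nat.factorial]
  rw [h3, div_le_iff₀ (by norm_num)] at h1
  have h4 : (Real.logb 2 (r : ℝ)) ^ 3 = (ε * Real.log r) ^ 3 / (ε * Real.log 2) ^ 3 := by
    rw [Real.logb, div_pow, mul_pow, mul_pow, mul_div_mul_left _ _ (by positivity)]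
  rw [h4, div_le_iff₀ (by positivity)]
  calc (ε * Real.log r) ^ 3 ≤ (r : ℝ) ^ ε * 6 := h1
    _ = 6 / (ε * Real.log 2) ^ 3 * (r : ℝ) ^ ε * (ε * Real.log 2) ^ 3 := by
        field_simp

end Pool.Agent.LDQ
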