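import Pool.Agent.LDQ.Targets2

set_option autoImplicit false

open scoped Classical

noncomputable section

namespace Pool.Agent.LDQ

open Pool.Agent.LRC

namespace ACAP_

variable {n : ℕ}

lemma z2 (a : ZMod 2) (h : a ≠ 1) : a = 0 := by
  revert h
  revert a
  decide

/-- an affine function is given by a polynomial of degree at most one -/
lemma aff (l : Module.Dual (ZMod 2) (Fin n → ZMod 2)) (c : ZMod 2) :
    ∃ A : MvPolynomial (Fin n) (ZMod 2), A.totalDegree ≤ 1 ∧
      ∀ x, MvPolynomial.eval x A = l x + c := by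
  refine ⟨∑ i, MvPolynomial.C (l (fun j => if i = j then 1 else 0)) * MvPolynomial.X i +
    MvPolynomial.C c, ?_, ?_⟩
  · refine (MvPolynomial.totalDegree_add _ _).trans (max_le ?_ ?_)
    · refine MvPolynomial.totalDegree_finsetSum_le fun i _ => ?_
      refine (MvPolynomial.totalDegree_mul _ _).trans ?_
      rw [MvPolynomial.totalDegree_C, MvPolynomial.totalDegree_X]
    · rw [MvPolynomial.totalDegree_C]
      exact Nat.zero_le _
  · intro x
    rw [map_add, map_sum, MvPolynomial.eval_C, LinearMap.pi_apply_eq_sum_univ l x]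
    congr 1
    refine Finset.sum_congr rfl fun i _ => ?_
    rw [map_mul, MvPolynomial.eval_C, MvPolynomial.eval_X, smul_eq_mul, mul_comm]

/-- the polynomial of a random disjunction -/
def orp {m e : ℕ} (r : Fin m → MvPolynomial (Fin n) (ZMod 2)) (c : Fin e → Fin m → ZMod 2) :
    MvPolynomial (Fin n) (ZMod 2) :=
  1 + ∏ j, (1 + ∑ a, MvPolynomial.C (c j a) * r a)

lemma orp_deg {m e D : ℕ} (r : Fin m → MvPolynomial (Fin n) (ZMod 2))
    (c : Fin e → Fin m → ZMod 2) (h : ∀ a, (r a).totalDegree ≤ D) :
    (orp r c).totalDegree ≤ e * D := by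
  unfold orp
  refine (MvPolynomial.totalDegree_add _ _).trans (max_le ?_ ?_)
  · rw [MvPolynomial.totalDegree_one]
    exact Nat.zero_le _
  · refine (MvPolynomial.totalDegree_finsetProd _ _).trans ?_
    refine (Finset.sum_le_card_nsmul _ _ D fun j _ => ?_).trans ?_
    · refine (MvPolynomial.totalDegree_add _ _).trans (max_le ?_ ?_)
      · rw [MvPolynomial.totalDegree_one]
        exact Nat.zero_le _
      · refine MvPolynomial.totalDegree_finsetSum_le fun a _ => ?_
        refine (MvPolynomial.totalDegree_mul _ _).trans ?_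
        rw [MvPolynomial.totalDegree_C, zero_add]
        exact h a
    · simp

lemma orp_eval {m e : ℕ} (r : Fin m → MvPolynomial (Fin n) (ZMod 2))
    (c : Fin e → Fin m → ZMod 2) (x : Fin n → ZMod 2) (y : Fin m → ZMod 2)
    (h : ∀ a, MvPolynomial.eval x (r a) = y a) :
    MvPolynomial.eval x (orp r c) = 1 + ∏ j, (1 + ∑ a, c j a * y a) := by
  unfold orp
  rw [map_add, map_prod, map_one]
  congr 1
  refine Finset.prod_congr rfl fun j _ => ?_
  rw [map_add, map_sum, map_one]
  congr 1
  refine Finset.sum_congr rfl fun a _ => ?_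
  rw [map_mul, MvPolynomial.eval_C, h]

lemma val_zero {m e : ℕ} (c : Fin e → Fin m → ZMod 2) (y : Fin m → ZMod 2)
    (h : ¬ ∃ a, y a = 1) : (1 : ZMod 2) + ∏ j, (1 + ∑ a, c j a * y a) = 0 := by
  have h0 : ∀ a, y a = 0 := fun a => z2 _ fun h1 => h ⟨a, h1⟩
  simp only [h0, mul_zero, Finset.sum_const_zero, add_zero, Finset.prod_const_one]
  decide

lemma val_one {m e : ℕ} (c : Fin e → Fin m → ZMod 2) (y : Fin m → ZMod 2)
    (h : ¬ ∀ j, ∑ a, c j a * y a = 0) : (1 : ZMod 2) + ∏ j, (1 + ∑ a, c j a * y a) = 1 := by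
  push Not at h
  obtain ⟨j, hj⟩ := h
  have h1 : ∑ a, c j a * y a = 1 := by
    by_contra h2
    exact hj (z2 _ h2)
  rw [Finset.prod_eq_zero (Finset.mem_univ j) (by rw [h1]; decide), add_zero]

/-- the induction hypothesis: random polynomials for the first `i` gates -/
def Hyp {K : ℕ} (g : Fin K → (Fin n → ZMod 2) → ZMod 2) (lev : Fin K → ℕ)
    (o : Finset (Fin K)) (e i : ℕ) : Prop :=
  ∃ (Ω : Type) (_ : Fintype Ω) (_ : Nonempty Ω)
    (p : Ω → Fin K → MvPolynomial (Fin n) (ZMod 2)),
    (∀ ω (j : Fin K), (j : ℕ) < i → (p ω j).totalDegree ≤ e ^ lev j) ∧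
    ∀ x, 2 ^ e * (Finset.univ.filter fun ω : Ω =>
      ∃ j : Fin K, (j : ℕ) < i ∧ MvPolynomial.eval x (p ω j) ≠ g j x).card ≤
      (o.filter fun j : Fin K => (j : ℕ) < i).card * Fintype.card Ω

lemma hyp_zero {K : ℕ} (g : Fin K → (Fin n → ZMod 2) → ZMod 2) (lev : Fin K → ℕ)
    (o : Finset (Fin K)) (e : ℕ) : Hyp g lev o e 0 := by
  refine ⟨Unit, inferInstance, inferInstance, fun _ _ => 0, fun _ _ h => absurd h (by simp), ?_⟩
  intro x
  simp

lemma hyp_step (h_ORC : T_ORC) {K : ℕ} (g : Fin K → (Fin n → ZMod 2) → ZMod 2)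
    (lev : Fin K → ℕ) (o : Finset (Fin K)) (e i : ℕ) (he : 1 ≤ e) (hi : i < K)
    (hg : ∃ (m : ℕ) (q : Fin m → (Fin n → ZMod 2) → ZMod 2),
      (∀ a, (∃ (l : Module.Dual (ZMod 2) (Fin n → ZMod 2)) (c : ZMod 2), ∀ x, q a x = l x + c) ∨
        ∃ j, j < (⟨i, hi⟩ : Fin K) ∧ q a = g j ∧
          (if (⟨i, hi⟩ : Fin K) ∈ o then lev j + 1 ≤ lev ⟨i, hi⟩ else lev j ≤ lev ⟨i, hi⟩)) ∧
      (if (⟨i, hi⟩ : Fin K) ∈ o then 1 ≤ lev ⟨i, hi⟩ ∧
          ∀ x, (g ⟨i, hi⟩ x = 1 ↔ ∃ a, q a x = 1)
        else ∀ x, g ⟨i, hi⟩ x = ∑ a, q a x))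
    (ih : Hyp g lev o e i) : Hyp g lev o e (i + 1) := by
  obtain ⟨Ω, fΩ, nΩ, p, hdeg, hbad⟩ := ih
  obtain ⟨m, q, hq, hr⟩ := hg
  set ii : Fin K := ⟨i, hi⟩ with hii
  -- the input polynomials
  have hR : ∀ a, ∃ R : Ω → MvPolynomial (Fin n) (ZMod 2),
      (∀ ω, (R ω).totalDegree ≤ e ^ (if ii ∈ o then lev ii - 1 else lev ii)) ∧
      ∀ ω x, (∀ j : Fin K, (j : ℕ) < i → MvPolynomial.eval x (p ω j) = g j x) →
        MvPolynomial.eval x (R ω) = q a x := by
    intro a
    rcases hq a with ⟨l, c, hl⟩ | ⟨j, hj, hqj, hlev⟩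
    · obtain ⟨A, hA, hA'⟩ := aff l c
      refine ⟨fun _ => A, fun _ => hA.trans (Nat.one_le_pow _ _ he), fun ω x _ => ?_⟩
      rw [hA', hl]
    · have hji : (j : ℕ) < i := by simpa [hii, Fin.lt_def] using hj
      refine ⟨fun ω => p ω j, fun ω => (hdeg ω j hji).trans (Nat.pow_le_pow_right he ?_),
        fun ω x hgood => ?_⟩
      · split_ifs at hlev ⊢ <;> omega
      · rw [hgood j hji, hqj]
  choose R hRdeg hRval using hR
  have hlt : ∀ j : Fin K, (j : ℕ) < i + 1 → (j : ℕ) < i ∨ j = ii := by
    intro j hj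
    rcases Nat.lt_succ_iff_lt_or_eq.mp hj with h | h
    · exact Or.inl h
    · exact Or.inr (Fin.ext h)
  have hne : ∀ j : Fin K, (j : ℕ) < i → j ≠ ii := by
    intro j hj h
    rw [h] at hj
    exact absurd hj (lt_irrefl i)
  by_cases ho : ii ∈ o
  · -- a disjunction
    simp only [if_pos ho] at hr hRdeg
    obtain ⟨hl1, hgi⟩ := hr
    refine ⟨Ω × (Fin e → Fin m → ZMod 2), inferInstance, inferInstance,
      fun ω j => if j = ii then orp (fun a => R a ω.1) ω.2 else p ω.1 j, ?_, ?_⟩
    · intro ω j hj
      rcases hlt j hj with h | h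
      · simp only [if_neg (hne j h)]
        exact hdeg ω.1 j h
      · subst h
        simp only [if_true]
        refine (orp_deg _ _ (fun a => hRdeg a ω.1)).trans ?_
        rw [← pow_succ']
        refine Nat.pow_le_pow_right he (by omega)
    · intro x
      set B : Finset Ω := Finset.univ.filter fun ω : Ω =>
        ∃ j : Fin K, (j : ℕ) < i ∧ MvPolynomial.eval x (p ω j) ≠ g j x with hB
      set Z : Finset (Fin e → Fin m → ZMod 2) := Finset.univ.filter fun c =>
        (∃ a, q a x = 1) ∧ ∀ j, ∑ a, c j a * q a x = 0 with hZ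
      have hsub : (Finset.univ.filter fun ω : Ω × (Fin e → Fin m → ZMod 2) =>
          ∃ j : Fin K, (j : ℕ) < i + 1 ∧ MvPolynomial.eval x
            (if j = ii then orp (fun a => R a ω.1) ω.2 else p ω.1 j) ≠ g j x) ⊆
          (B ×ˢ Finset.univ) ∪ (Finset.univ ×ˢ Z) := by
        rintro ⟨ω, c⟩ hω
        rw [Finset.mem_filter] at hω
        obtain ⟨-, j, hj, hne'⟩ := hω
        rw [Finset.mem_union, Finset.mem_product, Finset.mem_product]
        by_cases hb : ω ∈ B
        · exact Or.inl ⟨hb, Finset.mem_univ _⟩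
        · right
          refine ⟨Finset.mem_univ _, ?_⟩
          have hgood : ∀ j : Fin K, (j : ℕ) < i → MvPolynomial.eval x (p ω j) = g j x := by
            intro j hj
            by_contra h
            exact hb (Finset.mem_filter.mpr ⟨Finset.mem_univ _, j, hj, h⟩)
          rcases hlt j hj with h | h
          · simp only [if_neg (hne j h)] at hne'
            exact absurd (hgood j h) hne'
          · subst h
            simp only [if_true] at hne'
            rw [orp_eval _ _ x (fun a => q a x) (fun a => hRval a ω x hgood)] at hne'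
            by_cases hex : ∃ a, q a x = 1
            · refine Finset.mem_filter.mpr ⟨Finset.mem_univ _, hex, ?_⟩
              by_contra hc
              rw [val_one c _ hc, (hgi x).mpr hex] at hne'
              exact hne' rfl
            · exfalso
              rw [val_zero c _ hex] at hne'
              apply hne'
              exact (z2 _ fun h1 => hex ((hgi x).mp h1)).symm
      have hZc : 2 ^ e * Z.card ≤ Fintype.card (Fin e → Fin m → ZMod 2) := by
        by_cases hex : ∃ a, q a x = 1
        · have := h_ORC m e (fun a => q a x) hex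
          rw [Nat.card_eq_fintype_card, Nat.card_eq_fintype_card, Fintype.card_subtype] at this
          rw [← this]
          refine Nat.mul_le_mul_left _ (Finset.card_le_card ?_)
          intro c hc
          rw [Finset.mem_filter] at hc ⊢
          exact ⟨hc.1, hc.2.2⟩
        · have : Z = ∅ := by
            rw [hZ]
            refine Finset.filter_eq_empty_iff.mpr fun c _ h => hex h.1
          rw [this]
          simp
      have hoc : (o.filter fun j : Fin K => (j : ℕ) < i + 1).card =
          (o.filter fun j : Fin K => (j : ℕ) < i).card + 1 := by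
        have : (o.filter fun j : Fin K => (j : ℕ) < i + 1) =
            insert ii (o.filter fun j : Fin K => (j : ℕ) < i) := by
          ext j
          simp only [Finset.mem_insert, Finset.mem_filter]
          constructor
          · rintro ⟨h1, h2⟩
            rcases hlt j h2 with h | h
            · exact Or.inr ⟨h1, h⟩
            · exact Or.inl h
          · rintro (h | ⟨h1, h2⟩)
            · rw [h]
              exact ⟨ho, Nat.lt_succ_self i⟩
            · exact ⟨h1, Nat.lt_succ_of_lt h2⟩
        rw [this, Finset.card_insert_of_notMem]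
        rw [Finset.mem_filter]
        rintro ⟨-, h⟩
        exact absurd h (lt_irrefl i)
      rw [hoc, Fintype.card_prod]
      have hc1 := (Finset.card_le_card hsub).trans (Finset.card_union_le _ _)
      rw [Finset.card_product, Finset.card_product, Finset.card_univ, Finset.card_univ] at hc1
      have hb := hbad x
      rw [← hB] at hb
      calc 2 ^ e * _ ≤ 2 ^ e * (B.card * Fintype.card (Fin e → Fin m → ZMod 2) +
            Fintype.card Ω * Z.card) := Nat.mul_le_mul_left _ hc1
        _ = (2 ^ e * B.card) * Fintype.card (Fin e → Fin m → ZMod 2) +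
            Fintype.card Ω * (2 ^ e * Z.card) := by ring
        _ ≤ ((o.filter fun j : Fin K => (j : ℕ) < i).card * Fintype.card Ω) *
              Fintype.card (Fin e → Fin m → ZMod 2) +
            Fintype.card Ω * Fintype.card (Fin e → Fin m → ZMod 2) :=
          Nat.add_le_add (Nat.mul_le_mul_right _ hb) (Nat.mul_le_mul_left _ hZc)
        _ = _ := by ring
  · -- a sum
    simp only [if_neg ho] at hr hRdeg
    refine ⟨Ω, fΩ, nΩ, fun ω j => if j = ii then ∑ a, R a ω else p ω j, ?_, ?_⟩
    · intro ω j hj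
      rcases hlt j hj with h | h
      · simp only [if_neg (hne j h)]
        exact hdeg ω j h
      · subst h
        simp only [if_true]
        exact MvPolynomial.totalDegree_finsetSum_le fun a _ => hRdeg a ω
    · intro x
      have hsub : (Finset.univ.filter fun ω : Ω => ∃ j : Fin K, (j : ℕ) < i + 1 ∧
            MvPolynomial.eval x (if j = ii then ∑ a, R a ω else p ω j) ≠ g j x) ⊆
          Finset.univ.filter fun ω : Ω =>
            ∃ j : Fin K, (j : ℕ) < i ∧ MvPolynomial.eval x (p ω j) ≠ g j x := by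
        intro ω hω
        rw [Finset.mem_filter] at hω ⊢
        obtain ⟨-, j, hj, hne'⟩ := hω
        refine ⟨Finset.mem_univ _, ?_⟩
        by_contra hb
        push Not at hb
        rcases hlt j hj with h | h
        · simp only [if_neg (hne j h)] at hne'
          exact hne' (hb j h)
        · subst h
          simp only [if_true] at hne'
          apply hne'
          rw [map_sum, hr x]
          exact Finset.sum_congr rfl fun a _ => hRval a ω x hb
      refine (Nat.mul_le_mul_left _ (Finset.card_le_card hsub)).trans ((hbad x).trans ?_)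
      refine Nat.mul_le_mul_right _ (Finset.card_le_card ?_)
      intro j hj
      rw [Finset.mem_filter] at hj ⊢
      exact ⟨hj.1, Nat.lt_succ_of_lt hj.2⟩

end ACAP_

open ACAP_

theorem p_ACAP : T_ORC → T_ACAP := by
  intro h_ORC n h M e f he hM hf
  obtain ⟨K, g, lev, o, ho, hlev, hg, i0, hi0⟩ := hf
  have key : ∀ i, i ≤ K → Hyp g lev o e i := by
    intro i
    induction i with
    | zero => intro _; exact hyp_zero g lev o e
    | succ i ih =>
      intro hi
      exact hyp_step h_ORC g lev o e i he (by omega) (hg ⟨i, by omega⟩) (ih (by omega))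
  obtain ⟨Ω, fΩ, nΩ, p, hdeg, hbad⟩ := key K le_rfl
  let E : Ω ≃ Fin (Fintype.card Ω) := Fintype.equivFin Ω
  refine ⟨Fintype.card Ω, fun k => p (E.symm k) i0, Fintype.card_pos, ?_, ?_⟩
  · intro k
    exact (hdeg _ i0 i0.2).trans (Nat.pow_le_pow_right he (hlev i0))
  · intro x
    have hb := hbad x
    have h1 : Nat.card {k : Fin (Fintype.card Ω) //
        ¬ (f x = true ↔ MvPolynomial.eval x (p (E.symm k) i0) = 1)} ≤
        (Finset.univ.filter fun ω : Ω =>
          ∃ j : Fin K, (j : ℕ) < K ∧ MvPolynomial.eval x (p ω j) ≠ g j x).card := by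
      rw [Nat.card_eq_fintype_card, Fintype.card_subtype]
      refine Finset.card_le_card_of_injOn (fun k => E.symm k) ?_ (E.symm.injective.injOn)
      intro k hk
      have hk' := (Finset.mem_filter.mp (Finset.mem_coe.mp hk)).2
      rw [Finset.mem_coe, Finset.mem_filter]
      refine ⟨Finset.mem_univ _, i0, i0.2, fun h => hk' ?_⟩
      rw [h]
      exact hi0 x
    have h2 : (o.filter fun j : Fin K => (j : ℕ) < K).card ≤ M :=
      (Finset.card_filter_le _ _).trans ho
    set b := Nat.card {k : Fin (Fintype.card Ω) //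
        ¬ (f x = true ↔ MvPolynomial.eval x (p (E.symm k) i0) = 1)} with hbdef
    have h3 : 2 ^ e * b ≤ M * Fintype.card Ω :=
      (Nat.mul_le_mul_left _ h1).trans (hb.trans (Nat.mul_le_mul_right _ h2))
    have h4 : 2 ^ e * (3 * b) ≤ 2 ^ e * Fintype.card Ω := by
      calc 2 ^ e * (3 * b) = 3 * (2 ^ e * b) := by ring
        _ ≤ 3 * (M * Fintype.card Ω) := Nat.mul_le_mul_left _ h3
        _ = (3 * M) * Fintype.card Ω := by ring
        _ ≤ 2 ^ e * Fintype.card Ω := Nat.mul_le_mul_right _ hM
    exact Nat.le_of_mul_le_mul_left h4 (by positivity)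

end Pool.Agent.LDQ
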