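import Pool.Agent.LDQ.Targets

set_option autoImplicit false

open scoped Classical

noncomputable section

namespace Pool.Agent.LDQ

open Pool.Agent.LRC

namespace AMPD_

variable {n t m N : ℕ}

/-- the combined system -/
def PP (P : Fin N → Fin t → MvPolynomial (Fin n) (ZMod 2)) (τ : Fin m → Fin N) :
    Fin (t * m) → MvPolynomial (Fin n) (ZMod 2) :=
  fun i => P (τ (finProdFinEquiv.symm i).2) (finProdFinEquiv.symm i).1

theorem PP_iff (P : Fin N → Fin t → MvPolynomial (Fin n) (ZMod 2)) (τ : Fin m → Fin N)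
    (y : Fin n → ZMod 2) : MvZ (PP P τ) y ↔ ∀ j, MvZ (P (τ j)) y := by
  constructor
  · intro h j i
    have := h (finProdFinEquiv (i, j))
    unfold PP at this
    rw [Equiv.symm_apply_apply] at this
    exact this
  · intro h i
    exact h _ _

end AMPD_

open AMPD_

theorem p_AMPD : T_AMPD := by
  intro d n f t hR m x W
  obtain ⟨N, p, P, b, hp, hdeg, hx⟩ := hR
  by_contra hcon
  push Not at hcon
  set S : Finset (Fin n → ZMod 2) := Finset.univ.filter (fun v => v ∈ W) with hS
  have hmS : ∀ v, v ∈ S ↔ v ∈ W := by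
    intro v; rw [hS]; simp
  -- the weights
  set g : Bool → (Fin n → ZMod 2) → Fin N → ℝ := fun β v ω =>
    if MvZ (P ω) (x + v) ∧ b ω = β then p ω else 0 with hg
  have hg0 : ∀ β v ω, 0 ≤ g β v ω := by
    intro β v ω
    rw [hg]
    simp only
    split_ifs
    · exact hp ω
    · exact le_refl _
  set A : Bool → (Fin n → ZMod 2) → ℝ := fun β v => ∑ ω, g β v ω with hA
  have hA0 : ∀ β v, 0 ≤ A β v := fun β v => Finset.sum_nonneg fun ω _ => hg0 β v ω
  -- the inequalities at a point
  have hsum : ∀ v, A (f (x + v)) v + A (!f (x + v)) v = ∑ ω, if MvZ (P ω) (x + v) then p ω else 0 := by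
    intro v
    rw [hA]
    simp only
    rw [← Finset.sum_add_distrib]
    refine Finset.sum_congr rfl fun ω _ => ?_
    rw [hg]
    simp only
    by_cases h1 : MvZ (P ω) (x + v)
    · by_cases h2 : b ω = f (x + v)
      · have h3 : ¬ (b ω = !f (x + v)) := by rw [h2]; cases f (x + v) <;> simp
        simp [h1, h2]
      · have h3 : b ω = !f (x + v) := by
          revert h2; cases b ω <;> cases f (x + v) <;> simp
        simp [h1, h3]
    · simp [h1]
  have hwr : ∀ v, A (!f (x + v)) v = ∑ ω, if MvZ (P ω) (x + v) ∧ b ω ≠ f (x + v) then p ω else 0 := by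
    intro v
    rw [hA]
    simp only
    refine Finset.sum_congr rfl fun ω _ => ?_
    rw [hg]
    simp only
    have : (b ω = !f (x + v)) ↔ b ω ≠ f (x + v) := by
      cases b ω <;> cases f (x + v) <;> simp
    simp only [this]
  have hineq : ∀ v, 2 * A (!f (x + v)) v ≤ A (f (x + v)) v ∧ 0 < A (f (x + v)) v := by
    intro v
    obtain ⟨h1, h2⟩ := hx (x + v)
    rw [← hsum v] at h1 h2
    rw [← hwr v] at h2
    have := hA0 (!f (x + v)) v
    constructor
    · linarith
    · linarith
  -- the weight of a tuple and its acceptance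
  set q : Bool → (Fin m → Fin N) → ℝ := fun β τ => ∏ j, if b (τ j) = β then p (τ j) else 0 with hq
  have hq0 : ∀ β τ, 0 ≤ q β τ := by
    intro β τ
    rw [hq]
    simp only
    refine Finset.prod_nonneg fun j _ => ?_
    split_ifs
    · exact hp _
    · exact le_refl _
  have hprod : ∀ β v τ, ∏ j, g β v (τ j) = q β τ * (if MvZ (PP P τ) (x + v) then 1 else 0) := by
    intro β v τ
    by_cases h : MvZ (PP P τ) (x + v)
    · rw [if_pos h, mul_one, hq]
      simp only
      refine Finset.prod_congr rfl fun j _ => ?_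
      have := (PP_iff P τ (x + v)).mp h j
      rw [hg]
      simp [this]
    · rw [if_neg h, mul_zero]
      rw [PP_iff] at h
      push Not at h
      obtain ⟨j, hj⟩ := h
      refine Finset.prod_eq_zero (Finset.mem_univ j) ?_
      rw [hg]
      simp [hj]
  have hpow : ∀ β v, A β v ^ m = ∑ τ : Fin m → Fin N, ∏ j, g β v (τ j) := by
    intro β v
    rw [hA]
    simp only
    exact Fintype.sum_pow _ _
  -- the terms
  set σ : Bool → (Fin n → ZMod 2) → ℝ := fun β v => if f (x + v) = β then 1 else -(2 : ℝ) ^ m with hσ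
  set T : Bool → (Fin m → Fin N) → ℝ := fun β τ => ∑ v ∈ S, (∏ j, g β v (τ j)) * σ β v with hT
  have hTsum : 0 ≤ ∑ β, ∑ τ, T β τ := by
    have e1 : ∑ β, ∑ τ, T β τ = ∑ v ∈ S, ∑ β, A β v ^ m * σ β v := by
      rw [hT]
      simp only
      have : ∀ β, ∑ τ : Fin m → Fin N, ∑ v ∈ S, (∏ j, g β v (τ j)) * σ β v = ∑ v ∈ S, A β v ^ m * σ β v := by
        intro β
        rw [Finset.sum_comm]
        refine Finset.sum_congr rfl fun v _ => ?_
        rw [hpow, Finset.sum_mul]
      rw [Finset.sum_congr rfl fun β _ => this β, Finset.sum_comm]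
    rw [e1]
    refine Finset.sum_nonneg fun v _ => ?_
    obtain ⟨h1, h2⟩ := hineq v
    have h3 := hA0 (!f (x + v)) v
    have h4 : (2 * A (!f (x + v)) v) ^ m ≤ A (f (x + v)) v ^ m := pow_le_pow_left₀ (by positivity) h1 m
    rw [mul_pow] at h4
    rw [Fintype.sum_bool]
    rw [hσ]
    simp only
    cases hf : f (x + v)
    · rw [hf] at h4
      simp only [Bool.not_false] at h4
      simp
      linarith
    · rw [hf] at h4
      simp only [Bool.not_true] at h4
      simp
      linarith
  -- each term is nonpositive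
  have hTeq : ∀ β τ, T β τ = q β τ * ((((S.filter fun v => MvZ (PP P τ) (x + v) ∧ f (x + v) = β).card : ℝ)) -
      2 ^ m * ((S.filter fun v => MvZ (PP P τ) (x + v) ∧ f (x + v) ≠ β).card : ℝ)) := by
    intro β τ
    rw [hT]
    simp only
    rw [Finset.card_filter, Finset.card_filter]
    push_cast
    rw [Finset.mul_sum, ← Finset.sum_sub_distrib, Finset.mul_sum]
    refine Finset.sum_congr rfl fun v _ => ?_
    rw [hprod, hσ]
    simp only
    by_cases h1 : MvZ (PP P τ) (x + v)
    · by_cases h2 : f (x + v) = β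
      · simp [h1, h2]
      · simp [h1, h2]
    · simp [h1]
  have hset1 : ∀ (β : Bool) (τ : Fin m → Fin N), {v | v ∈ W ∧ MvZ (PP P τ) (x + v) ∧ f (x + v) ≠ β}.ncard =
      (S.filter fun v => MvZ (PP P τ) (x + v) ∧ f (x + v) ≠ β).card := by
    intro β τ
    rw [← Set.ncard_coe_finset]
    congr 1
    ext v
    simp [hmS]
  have hset2 : ∀ (τ : Fin m → Fin N), {v | v ∈ W ∧ MvZ (PP P τ) (x + v)}.ncard =
      (S.filter fun v => MvZ (PP P τ) (x + v)).card := by
    intro τ
    rw [← Set.ncard_coe_finset]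
    congr 1
    ext v
    simp [hmS]
  have hcard : ∀ (β : Bool) (τ : Fin m → Fin N), (S.filter fun v => MvZ (PP P τ) (x + v) ∧ f (x + v) = β).card +
      (S.filter fun v => MvZ (PP P τ) (x + v) ∧ f (x + v) ≠ β).card =
      (S.filter fun v => MvZ (PP P τ) (x + v)).card := by
    intro β τ
    rw [← Finset.filter_filter, ← Finset.filter_filter]
    exact Finset.card_filter_add_card_filter_not _
  have hneg : ∀ (β : Bool) (τ : Fin m → Fin N), (∃ v ∈ W, MvZ (PP P τ) (x + v)) →
      (((S.filter fun v => MvZ (PP P τ) (x + v) ∧ f (x + v) = β).card : ℝ)) -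
      2 ^ m * ((S.filter fun v => MvZ (PP P τ) (x + v) ∧ f (x + v) ≠ β).card : ℝ) < 0 := by
    intro β τ hex
    have h := hcon (PP P τ) β (fun i => hdeg _ _) hex
    rw [hset1, hset2, ← hcard β τ] at h
    have h' : (S.filter fun v => MvZ (PP P τ) (x + v) ∧ f (x + v) = β).card <
        2 ^ m * (S.filter fun v => MvZ (PP P τ) (x + v) ∧ f (x + v) ≠ β).card := by omega
    have h'' : (((S.filter fun v => MvZ (PP P τ) (x + v) ∧ f (x + v) = β).card : ℝ)) <
        2 ^ m * ((S.filter fun v => MvZ (PP P τ) (x + v) ∧ f (x + v) ≠ β).card : ℝ) := by exact_mod_cast h'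
    linarith
  have hTle : ∀ β τ, T β τ ≤ 0 := by
    intro β τ
    by_cases hex : ∃ v ∈ W, MvZ (PP P τ) (x + v)
    · rw [hTeq]
      exact mul_nonpos_of_nonneg_of_nonpos (hq0 β τ) (hneg β τ hex).le
    · have : T β τ = 0 := by
        rw [hT]
        simp only
        refine Finset.sum_eq_zero fun v hv => ?_
        have : ¬ MvZ (PP P τ) (x + v) := fun h => hex ⟨v, (hmS v).mp hv, h⟩
        rw [hprod, if_neg this, mul_zero, zero_mul]
      exact this.le
  have hTz : ∀ β τ, T β τ = 0 := by
    have h1 : ∑ β, ∑ τ, T β τ = 0 := le_antisymm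
      (Finset.sum_nonpos fun β _ => Finset.sum_nonpos fun τ _ => hTle β τ) hTsum
    intro β τ
    have h2 := (Finset.sum_eq_zero_iff_of_nonpos (fun β _ => Finset.sum_nonpos fun τ _ => hTle β τ)).mp h1 β (Finset.mem_univ _)
    exact (Finset.sum_eq_zero_iff_of_nonpos (fun τ _ => hTle β τ)).mp h2 τ (Finset.mem_univ _)
  -- contradiction at the point `0`
  have h0 := (hineq 0).2
  have h1 : 0 < A (f (x + 0)) 0 ^ m := pow_pos h0 m
  rw [hpow] at h1
  obtain ⟨τ, _, hτ⟩ := Finset.exists_lt_of_sum_lt (s := Finset.univ) (f := fun _ => (0 : ℝ))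
    (g := fun τ : Fin m → Fin N => ∏ j, g (f (x + 0)) 0 (τ j)) (by simpa using h1)
  rw [hprod] at hτ
  have hacc : MvZ (PP P τ) (x + 0) := by
    by_contra h
    rw [if_neg h, mul_zero] at hτ
    exact lt_irrefl _ hτ
  rw [if_pos hacc, mul_one] at hτ
  have h2 := hneg (f (x + 0)) τ ⟨0, W.zero_mem, hacc⟩
  have h3 := hTz (f (x + 0)) τ
  rw [hTeq] at h3
  have h4 := mul_neg_of_pos_of_neg hτ h2
  linarith

end Pool.Agent.LDQ
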