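import Pool.Agent.LDQ.Targets

set_option autoImplicit false

/-!
# MP_9f5962_lc: CAVA, additivity of the average
-/

open scoped Classical

noncomputable section

namespace Pool.Agent.LDQ

open Pool.Agent.LRC

namespace CAVA_

theorem add {E : Type} [AddCommGroup E] [Module (ZMod 2) E] [Finite E] (k : ℕ) :
    ∀ (Z : Set E) (φ ψ : E → List E → ℝ),
      cav k Z (fun x vs => φ x vs + ψ x vs) = cav k Z φ + cav k Z ψ := by
  have : Fintype E := Fintype.ofFinite E
  induction k with
  | zero =>
    intro Z φ ψ
    simp only [cav, finsum_eq_sum_of_fintype]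
    rw [← add_div, ← Finset.sum_add_distrib]
    congr 1
    refine Finset.sum_congr rfl fun x _ => ?_
    split_ifs <;> simp
  | succ k ih =>
    intro Z φ ψ
    simp only [cav, finsum_eq_sum_of_fintype]
    rw [← Finset.sum_add_distrib]
    refine Finset.sum_congr rfl fun v _ => ?_
    rw [← mul_add, ← ih]

theorem zero {E : Type} [AddCommGroup E] [Module (ZMod 2) E] [Finite E] (k : ℕ) (Z : Set E) :
    cav k Z (fun _ _ => (0 : ℝ)) = 0 := by
  have h := add k Z (fun _ _ => (0 : ℝ)) (fun _ _ => 0)
  simp only [add_zero] at h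
  linarith

end CAVA_

theorem p_CAVA : T_CAVA := by
  intro E _ _ _ k Z
  refine ⟨CAVA_.add k Z, ?_⟩
  intro ι s φ
  induction s using Finset.induction_on with
  | empty =>
    simp only [Finset.sum_empty]
    exact CAVA_.zero k Z
  | insert a s ha ih =>
    simp only [Finset.sum_insert ha]
    rw [CAVA_.add k Z, ih]

end Pool.Agent.LDQ
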