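import Pool.Agent.LDQ.Targets

set_option autoImplicit false

/-!
# LDQ: the vertices of a random cube are uniform
-/

open scoped Classical

noncomputable section

namespace Pool.Agent.LDQ

open Pool.Agent.LRC

namespace CAVB_

variable {E : Type} [AddCommGroup E]

theorem cs_add (β γ : E → ℝ) (vs : List E) : ∀ x : E,
    cs (fun y => β y + γ y) x vs = cs β x vs + cs γ x vs := by
  induction vs with
  | nil => intro x; rfl
  | cons v vs ih =>
    intro x
    simp only [cs]
    rw [ih, ih]
    ring

theorem cs_shift (β : E → ℝ) (v : E) (vs : List E) : ∀ x : E,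
    cs (fun y => β (y + v)) x vs = cs β (x + v) vs := by
  induction vs with
  | nil => intro x; rfl
  | cons w ws ih =>
    intro x
    simp only [cs]
    rw [ih, ih, add_right_comm x w v]

theorem cs_cons (β : E → ℝ) (v : E) (vs : List E) (x : E) :
    cs β x (v :: vs) = cs (fun y => β y + β (y + v)) x vs := by
  rw [cs_add, cs_shift]
  rfl

theorem main (hD : T_DZC) [Module (ZMod 2) E] [Finite E] (k : ℕ) : ∀ (Z : Set E) (β : E → ℝ),
    cav k Z (cs β) = 2 ^ k * cav 0 Z (fun x _ => β x) := by
  induction k with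
  | zero =>
    intro Z β
    simp only [cav, cs, pow_zero, one_mul]
  | succ k ih =>
    intro Z β
    obtain ⟨-, h2⟩ := hD E Z β
    have h3 : ∀ v : E, ((Set.ncard (dz Z v) : ℝ) / (Set.ncard Z : ℝ) ^ 2) *
        cav k (dz Z v) (fun x vs => cs β x (v :: vs)) =
        (2 ^ k / (Set.ncard Z : ℝ) ^ 2) *
          ∑ᶠ x : E, if x ∈ dz Z v then β x + β (x + v) else 0 := by
      intro v
      have h4 : (fun (x : E) (vs : List E) => cs β x (v :: vs)) =
          cs (fun y => β y + β (y + v)) := by
        funext x vs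
        exact cs_cons β v vs x
      rw [h4, ih]
      simp only [cav]
      rcases Nat.eq_zero_or_pos (Set.ncard (dz Z v)) with h5 | h5
      · have h6 : dz Z v = ∅ := (Set.ncard_eq_zero (Set.toFinite _)).1 h5
        rw [h6]
        simp
      · have h6 : (Set.ncard (dz Z v) : ℝ) ≠ 0 := by exact_mod_cast h5.ne'
        generalize (∑ᶠ x : E, if x ∈ dz Z v then β x + β (x + v) else 0) = S
        rcases eq_or_ne ((Set.ncard Z : ℝ)) 0 with h7 | h7
        · rw [h7]
          simp
        · field_simp
    have h5 : cav (k + 1) Z (cs β) = ∑ᶠ v : E, (2 ^ k / (Set.ncard Z : ℝ) ^ 2) *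
          ∑ᶠ x : E, if x ∈ dz Z v then β x + β (x + v) else 0 := by
      change (∑ᶠ v : E, ((Set.ncard (dz Z v) : ℝ) / (Set.ncard Z : ℝ) ^ 2) *
        cav k (dz Z v) (fun x vs => cs β x (v :: vs))) = _
      exact finsum_congr h3
    rw [h5, ← mul_finsum, h2]
    simp only [cav]
    generalize (∑ᶠ x : E, if x ∈ Z then β x else 0) = S
    rcases eq_or_ne ((Set.ncard Z : ℝ)) 0 with h7 | h7
    · rw [h7]
      simp
    · field_simp
      ring

end CAVB_

theorem p_CAVB : T_DZC → T_CAVB := by
  intro hD E _ _ _ k Z β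
  exact CAVB_.main hD k Z β

end Pool.Agent.LDQ
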