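import Pool.Agent.LDQ.Targets

/-!
# MP_9f5962_lc, project LDQ: target CAVE
-/

set_option autoImplicit false

open scoped Classical

noncomputable section

namespace Pool.Agent.LDQ

open Pool.Agent.LRC

theorem p_CAVE (hCIN : T_CIN) (hDZC : T_DZC) : T_CAVE := by
  intro E _ _ _ k
  induction k with
  | zero =>
    intro Z φ hZ h
    have hfin : Z.Finite := Set.toFinite Z
    have hpos : (0 : ℝ) < (Set.ncard Z : ℝ) := by
      exact_mod_cast (Set.ncard_pos hfin).2 hZ
    by_contra hcon
    push Not at hcon
    have h1 : ∀ x ∈ Z, 1 ≤ φ x [] := by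
      intro x hx
      refine hcon x [] rfl ?_
      intro w hw
      have hw0 : w = 0 := by
        have : {v : E | v ∈ ([] : List E)} = ∅ := by
          ext v
          simp
        rw [this, Submodule.span_empty] at hw
        simpa using hw
      rw [hw0, add_zero]
      exact hx
    unfold cav at h
    rw [div_lt_one hpos] at h
    have h2 : (Set.ncard Z : ℝ) ≤ ∑ᶠ x : E, if x ∈ Z then φ x [] else 0 := by
      have e1 : (Set.ncard Z : ℝ) = ∑ᶠ x : E, if x ∈ Z then (1 : ℝ) else 0 := by
        have := Fintype.ofFinite E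
        rw [finsum_eq_sum_of_fintype, Finset.sum_ite, Finset.sum_const_zero, add_zero,
          Finset.sum_const, nsmul_eq_mul, mul_one, Set.ncard_eq_toFinset_card' Z]
        congr 1
        congr 1
        ext x
        simp
      rw [e1]
      have := Fintype.ofFinite E
      rw [finsum_eq_sum_of_fintype, finsum_eq_sum_of_fintype]
      refine Finset.sum_le_sum fun x _ => ?_
      split_ifs with hx
      · exact h1 x hx
      · exact le_refl _
    linarith
  | succ k ih =>
    intro Z φ hZ h
    have hfin : Z.Finite := Set.toFinite Z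
    have hpos : (0 : ℝ) < (Set.ncard Z : ℝ) := by
      exact_mod_cast (Set.ncard_pos hfin).2 hZ
    have key : ∃ v : E, (dz Z v).Nonempty ∧ cav k (dz Z v) (fun x vs => φ x (v :: vs)) < 1 := by
      by_contra hcon
      push Not at hcon
      have hd := (hDZC E Z (fun _ => 0)).1
      have := Fintype.ofFinite E
      rw [finsum_eq_sum_of_fintype] at hd
      unfold cav at h
      rw [finsum_eq_sum_of_fintype] at h
      have h3 : ∀ v : E, (Set.ncard (dz Z v) : ℝ) / (Set.ncard Z : ℝ) ^ 2 ≤
          ((Set.ncard (dz Z v) : ℝ) / (Set.ncard Z : ℝ) ^ 2) *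
            cav k (dz Z v) (fun x vs => φ x (v :: vs)) := by
        intro v
        by_cases hv : (dz Z v).Nonempty
        · have h4 := hcon v hv
          have h5 : 0 ≤ (Set.ncard (dz Z v) : ℝ) / (Set.ncard Z : ℝ) ^ 2 := by positivity
          calc (Set.ncard (dz Z v) : ℝ) / (Set.ncard Z : ℝ) ^ 2
              = (Set.ncard (dz Z v) : ℝ) / (Set.ncard Z : ℝ) ^ 2 * 1 := by ring
            _ ≤ _ := mul_le_mul_of_nonneg_left h4 h5
        · rw [Set.not_nonempty_iff_eq_empty] at hv
          rw [hv]
          simp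
      have h6 : ∑ v : E, (Set.ncard (dz Z v) : ℝ) / (Set.ncard Z : ℝ) ^ 2 = 1 := by
        rw [← Finset.sum_div, hd, div_self (by positivity)]
      have h7 := Finset.sum_le_sum (fun v (_ : v ∈ (Finset.univ : Finset E)) => h3 v)
      rw [h6] at h7
      linarith
    obtain ⟨v, hv, hlt⟩ := key
    obtain ⟨x, vs, h1, h2, h3⟩ := ih (dz Z v) (fun x vs => φ x (v :: vs)) hv hlt
    exact ⟨x, v :: vs, by simp [h1], hCIN E Z x v vs h2, h3⟩

end Pool.Agent.LDQ
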