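import Pool.Agent.LDQ.Targets

set_option autoImplicit false

open scoped Classical

noncomputable section

namespace Pool.Agent.LDQ

namespace CAVH_

theorem cav_zero {E : Type} [AddCommGroup E] [Module (ZMod 2) E] [Finite E] (k : ℕ) :
    ∀ Z : Set E, cav k Z (fun _ _ => (0 : ℝ)) = 0 := by
  induction k with
  | zero =>
    intro Z
    simp [cav]
  | succ k ih =>
    intro Z
    simp only [cav]
    simp [ih]

end CAVH_

theorem p_CAVH (hWAR : T_WAR) (hSYS : T_SYS) : T_CAVH := by
  intro E _ _ _ k
  induction k with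
  | zero =>
    intro l Z H hS
    simp only [cav, List.not_mem_nil, false_imp_iff, implies_true, if_true, pow_zero, one_mul, lam]
    have : Fintype E := Fintype.ofFinite E
    rw [finsum_eq_sum_of_fintype, Finset.sum_ite]
    simp only [Finset.sum_const, nsmul_eq_mul, mul_one, mul_zero, add_zero]
    have h1 : ((Finset.univ.filter (fun x => x ∈ Z)).card : ℝ) = (Set.ncard Z : ℝ) := by
      congr 1
      rw [Set.ncard_eq_toFinset_card']
      congr 1
      ext x
      simp
    rw [h1]
    exact div_self_le_one (Set.ncard Z : ℝ)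
  | succ k ih =>
    intro l Z H hS
    have hih := fun Z' => ih (dbl l) Z' H
    have hp1 : ∀ v : E, v ∈ H →
        (fun (x : E) (vs : List E) => (fun (_ : E) (vs : List E) =>
          if ∀ u ∈ vs, u ∈ H then (1 : ℝ) else 0) x (v :: vs)) =
        (fun (_ : E) (vs : List E) => if ∀ u ∈ vs, u ∈ H then (1 : ℝ) else 0) := by
      intro v hv
      funext _ vs
      simp [hv]
    have hp2 : ∀ v : E, v ∉ H →
        (fun (x : E) (vs : List E) => (fun (_ : E) (vs : List E) =>
          if ∀ u ∈ vs, u ∈ H then (1 : ℝ) else 0) x (v :: vs)) =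
        (fun (_ : E) (_ : List E) => (0 : ℝ)) := by
      intro v hv
      funext _ vs
      simp [hv]
    generalize (fun (_ : E) (vs : List E) => if ∀ u ∈ vs, u ∈ H then (1 : ℝ) else 0) = φ
      at hih hp1 hp2 ⊢
    have : Fintype E := Fintype.ofFinite E
    set C : ℝ := ((Nat.card H : ℝ) / (Nat.card E : ℝ)) ^ k * 2 ^ lam k (dbl l) with hC
    have hC0 : 0 ≤ C := by positivity
    have hE : (0 : ℝ) < (Nat.card E : ℝ) := by
      have : 0 < Nat.card E := Nat.card_pos
      exact_mod_cast this
    set B : ℝ := 2 ^ l.sum / (Nat.card E : ℝ) with hB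
    have hB0 : 0 ≤ B := by positivity
    have hterm : ∀ v : E, ((Set.ncard (dz Z v) : ℝ) / (Set.ncard Z : ℝ) ^ 2) *
        cav k (dz Z v) (fun x vs => φ x (v :: vs)) ≤
        if v ∈ H then B * C else 0 := by
      intro v
      by_cases hv : v ∈ H
      · rw [if_pos hv]
        rw [hp1 v hv]
        have h2 : cav k (dz Z v) φ ≤ C := hih (dz Z v) (hSYS E l Z v hS)
        have h3 : (Set.ncard (dz Z v) : ℝ) / (Set.ncard Z : ℝ) ^ 2 ≤ B := by
          rcases Z.eq_empty_or_nonempty with hZ | hZ
          · rw [hZ]
            simp only [Set.ncard_empty, Nat.cast_zero]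
            norm_num
            exact hB0
          · have hZ1 : (0 : ℝ) < (Set.ncard Z : ℝ) := by
              have : 0 < Set.ncard Z := (Set.ncard_pos (Set.toFinite Z)).2 hZ
              exact_mod_cast this
            have hle : (Set.ncard (dz Z v) : ℝ) ≤ (Set.ncard Z : ℝ) := by
              have hsub : dz Z v ⊆ Z := fun x hx => hx.1
              exact_mod_cast Set.ncard_le_ncard hsub (Set.toFinite Z)
            have hW : (Nat.card E : ℝ) ≤ 2 ^ l.sum * (Set.ncard Z : ℝ) := by
              exact_mod_cast hWAR E l Z hS hZ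
            rw [hB, div_le_div_iff₀ (by positivity) hE]
            calc (Set.ncard (dz Z v) : ℝ) * (Nat.card E : ℝ)
                ≤ (Set.ncard Z : ℝ) * (2 ^ l.sum * (Set.ncard Z : ℝ)) :=
                  mul_le_mul hle hW hE.le hZ1.le
              _ = 2 ^ l.sum * (Set.ncard Z : ℝ) ^ 2 := by ring
        exact (mul_le_mul_of_nonneg_left h2 (by positivity)).trans
          (mul_le_mul_of_nonneg_right h3 hC0)
      · rw [if_neg hv]
        rw [hp2 v hv, CAVH_.cav_zero, mul_zero]
    have hsum : cav (k + 1) Z φ ≤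
        ∑ v : E, if v ∈ H then B * C else 0 := by
      simp only [cav]
      rw [finsum_eq_sum_of_fintype]
      exact Finset.sum_le_sum (fun v _ => hterm v)
    refine hsum.trans (le_of_eq ?_)
    rw [Finset.sum_ite]
    simp only [Finset.sum_const, nsmul_eq_mul, mul_zero, add_zero]
    have h1 : ((Finset.univ.filter (fun x => x ∈ H)).card : ℝ) = (Nat.card H : ℝ) := by
      congr 1
      rw [Nat.card_eq_fintype_card, Fintype.card_subtype]
    rw [h1, hB, hC]
    simp only [lam]
    rw [pow_add, pow_succ]
    ring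

end Pool.Agent.LDQ

end
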