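import Pool.Agent.LDQ.Targets

set_option autoImplicit false

/-!
# Job CHO: a bound for binomial coefficients
-/

namespace Pool.Agent.LDQ

namespace CHO_

/-- `R ^ R / R! ≤ 3 ^ R` -/
theorem pow_div (R : ℕ) : (R : ℝ) ^ R / (R.factorial : ℝ) ≤ 3 ^ R := by
  have h1 := Real.pow_div_factorial_le_exp (R : ℝ) (Nat.cast_nonneg R) R
  refine h1.trans ?_
  have h2 : Real.exp (R : ℝ) = (Real.exp 1) ^ R := by
    rw [← Real.exp_nat_mul, mul_one]
  rw [h2]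
  exact pow_le_pow_left₀ (Real.exp_pos 1).le Real.exp_one_lt_three.le R

end CHO_

theorem p_CHO : T_CHO := by
  intro r k R h
  have h0 : (0 : ℝ) < (R.factorial : ℝ) := by exact_mod_cast R.factorial_pos
  have h1 : ((r.choose R : ℕ) : ℝ) ≤ (r : ℝ) ^ R / (R.factorial : ℝ) :=
    Nat.choose_le_pow_div R r
  have h2 : 6 * (r : ℝ) ≤ R * 2 ^ k := by exact_mod_cast h
  have h3 : (2 * 3 * (r : ℝ)) ^ R ≤ (R * 2 ^ k) ^ R :=
    pow_le_pow_left₀ (by positivity) (by linarith) R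
  have h4 := CHO_.pow_div R
  rw [div_le_iff₀ h0] at h4
  have h5 : ((r.choose R : ℕ) : ℝ) * 2 ^ R * 3 ^ R ≤ (2 : ℝ) ^ (k * R) * 3 ^ R := by
    rw [le_div_iff₀ h0] at h1
    have h6 : ((r.choose R : ℕ) : ℝ) * 2 ^ R * 3 ^ R * (R.factorial : ℝ) ≤
        (2 : ℝ) ^ (k * R) * 3 ^ R * (R.factorial : ℝ) := by
      calc ((r.choose R : ℕ) : ℝ) * 2 ^ R * 3 ^ R * (R.factorial : ℝ)
          = ((r.choose R : ℕ) : ℝ) * (R.factorial : ℝ) * (2 ^ R * 3 ^ R) := by ring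
        _ ≤ (r : ℝ) ^ R * (2 ^ R * 3 ^ R) := mul_le_mul_of_nonneg_right h1 (by positivity)
        _ = (2 * 3 * (r : ℝ)) ^ R := by rw [mul_pow, mul_pow]; ring
        _ ≤ (R * 2 ^ k) ^ R := h3
        _ = (R : ℝ) ^ R * (2 : ℝ) ^ (k * R) := by rw [mul_pow, ← pow_mul]
        _ ≤ (3 ^ R * (R.factorial : ℝ)) * (2 : ℝ) ^ (k * R) :=
          mul_le_mul_of_nonneg_right h4 (by positivity)
        _ = (2 : ℝ) ^ (k * R) * 3 ^ R * (R.factorial : ℝ) := by ring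
    exact le_of_mul_le_mul_right h6 h0
  have h7 : ((r.choose R : ℕ) : ℝ) * 2 ^ R ≤ (2 : ℝ) ^ (k * R) :=
    le_of_mul_le_mul_right h5 (by positivity)
  exact_mod_cast h7

end Pool.Agent.LDQ
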