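import Pool.Agent.LDQ.Targets

/-!
# LDQ, CIN: cubes in `dz Z v` and in `Z`
-/

set_option autoImplicit false

open scoped Classical

noncomputable section

namespace Pool.Agent.LDQ

theorem p_CIN : T_CIN := by
  intro E _ _ Z x v vs h w hw
  have e : {u : E | u ∈ v :: vs} = insert v {u : E | u ∈ vs} := by
    ext u
    simp [Set.mem_insert_iff]
  rw [e, Submodule.mem_span_insert] at hw
  obtain ⟨a, w', hw', rfl⟩ := hw
  obtain ⟨h1, h2⟩ := h w' hw'
  fin_cases a
  · have : x + ((0 : ZMod 2) • v + w') = x + w' := by rw [zero_smul, zero_add]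
    exact this ▸ h1
  · have : x + ((1 : ZMod 2) • v + w') = x + w' + v := by
      rw [one_smul, add_comm v w', add_assoc]
    exact this ▸ h2

end Pool.Agent.LDQ
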