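import Pool.Agent.LDQ.Targets

set_option autoImplicit false

/-!
# MP_9f5962_lc: each coset contains a small coset on which `f` is constant
-/

open scoped Classical

noncomputable section

namespace Pool.Agent.LDQ

open Pool.Agent.LRC

namespace COSD_

theorem Dv_shift {E : Type} [AddCommGroup E] [Module (ZMod 2) E] (W : Submodule (ZMod 2) E)
    (x : E) (g : E → ZMod 2) (a : W) :
    Dv a (fun v : W => g (x + (v : E))) = fun v : W => Dv (a : E) g (x + (v : E)) := by
  funext v
  show g (x + ((v + a : W) : E)) + g (x + (v : E)) = g (x + (v : E) + (a : E)) + g (x + (v : E))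
  rw [Submodule.coe_add, add_assoc]

theorem Dg_shift {E : Type} [AddCommGroup E] [Module (ZMod 2) E] (W : Submodule (ZMod 2) E)
    (x : E) (d : ℕ) : ∀ g : E → ZMod 2, Dg d g → Dg d (fun v : W => g (x + (v : E))) := by
  induction d with
  | zero =>
    intro g h a v
    rw [Dv_shift]
    exact h _ _
  | succ d ih =>
    intro g h a
    rw [Dv_shift]
    exact ih _ (h _)

theorem ncard_sub {E : Type} [AddCommGroup E] [Module (ZMod 2) E] (W : Submodule (ZMod 2) E)
    (p : E → Prop) : Set.ncard {v : W | p v} = Set.ncard {v : E | v ∈ W ∧ p v} := by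
  rw [← Set.ncard_image_of_injective _ (Subtype.val_injective : Function.Injective
    (Subtype.val : W → E))]
  congr 1
  ext v
  constructor
  · rintro ⟨w, hw, rfl⟩
    exact ⟨w.2, hw⟩
  · rintro ⟨hv, hp⟩
    exact ⟨⟨v, hv⟩, hp, rfl⟩

end COSD_

theorem p_COSD : T_KILD → T_MVPD → Pool.Agent.LRC.T_RES → T_COSD := by
  intro h_KILL h_MVP h_RES n f s t d k R hC hs hk x W
  obtain ⟨P, b, hP, ⟨v0, hv0, hz⟩, hcard⟩ := hC x W
  let f' : W → Bool := fun v => f (x + (v : Fin n → ZMod 2))
  let Q : Fin t → W → ZMod 2 := fun i v =>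
    MvPolynomial.eval (x + (v : Fin n → ZMod 2)) (P i)
  have hQ : ∀ i, Dg d (Q i) := by
    intro i
    have h := COSD_.Dg_shift W x d (fun y => MvPolynomial.eval y (P i))
      (h_MVP n d (P i) (hP i))
    exact h
  have hne : (zer Q).Nonempty := by
    refine ⟨⟨v0, hv0⟩, ?_⟩
    intro i
    exact hz i
  have hc : 2 ^ (k + 1) * Set.ncard {v | v ∈ zer Q ∧ f' v ≠ b} ≤ Set.ncard (zer Q) := by
    have h1 : Set.ncard {v | v ∈ zer Q ∧ f' v ≠ b} =
        Set.ncard {v | v ∈ W ∧ MvZ P (x + v) ∧ f (x + v) ≠ b} :=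
      COSD_.ncard_sub W fun v => MvZ P (x + v) ∧ f (x + v) ≠ b
    have h2 : Set.ncard (zer Q) = Set.ncard {v | v ∈ W ∧ MvZ P (x + v)} :=
      COSD_.ncard_sub W fun v => MvZ P (x + v)
    rw [h1, h2]
    exact hcard
  have hind : ind f' = fun w : W => ind f (x + (w : Fin n → ZMod 2)) := by
    funext w
    rfl
  have hsp : spa (ind f') ≤ s := by
    rw [hind]
    exact (h_RES (Fin n → ZMod 2) W x (ind f)).trans hs
  obtain ⟨x₀, W1, hfin, hW1⟩ := h_KILL W f' b s t d k R Q hQ hne hc hsp hk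
  refine ⟨x + (x₀ : Fin n → ZMod 2), ?_, W1.map W.subtype, Submodule.map_subtype_le W W1, ?_, ?_⟩
  · rw [add_sub_cancel_left]
    exact x₀.2
  · rw [Submodule.finrank_map_subtype_eq]
    exact hfin
  · rintro _ ⟨w, hw, rfl⟩
    have h1 : f (x + (x₀ : Fin n → ZMod 2) + W.subtype w) = b := by
      have h := hW1 w hw
      rw [add_assoc]
      exact h
    have h2 : f (x + (x₀ : Fin n → ZMod 2)) = b := by
      have h := hW1 0 W1.zero_mem
      rw [add_zero] at h
      exact h
    rw [h1, h2]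

end Pool.Agent.LDQ
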