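import Pool.Agent.LDQ.Targets

set_option autoImplicit false

/-!
# MP_9f5962_lc, LDQ: a cube which avoids a small set and is contained in no subspace of a family
-/

open scoped Classical

noncomputable section

namespace Pool.Agent.LDQ

open Pool.Agent.LRC

namespace CUBE_

variable {E : Type} [AddCommGroup E] [Module (ZMod 2) E]

omit [Module (ZMod 2) E] in
theorem cs_nonneg (β : E → ℝ) (hβ : ∀ x, 0 ≤ β x) : ∀ (vs : List E) (x : E), 0 ≤ cs β x vs
  | [], x => hβ x
  | v :: vs, x => by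
      simp only [cs]
      exact add_nonneg (cs_nonneg β hβ vs x) (cs_nonneg β hβ vs (x + v))

theorem zmod_two (a : ZMod 2) : a = 0 ∨ a = 1 := by
  revert a
  decide

theorem le_cs (β : E → ℝ) (hβ : ∀ x, 0 ≤ β x) : ∀ (vs : List E) (x w : E),
    w ∈ Submodule.span (ZMod 2) {v | v ∈ vs} → β (x + w) ≤ cs β x vs
  | [], x, w, hw => by
      have h0 : w = 0 := by simpa using hw
      simp [cs, h0]
  | v :: vs, x, w, hw => by
      have hset : {u | u ∈ v :: vs} = insert v {u | u ∈ vs} := by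
        ext u
        simp
      rw [hset, Submodule.mem_span_insert] at hw
      obtain ⟨a, z, hz, rfl⟩ := hw
      simp only [cs]
      rcases zmod_two a with rfl | rfl
      · have h1 := le_cs β hβ vs x z hz
        have h2 := cs_nonneg β hβ vs (x + v)
        rw [zero_smul, zero_add]
        linarith
      · have h1 := le_cs β hβ vs (x + v) z hz
        have h2 := cs_nonneg β hβ vs x
        rw [one_smul, ← add_assoc]
        linarith

theorem cav_ind [Finite E] (Z B : Set E) :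
    cav 0 Z (fun x _ => if x ∈ Z ∧ x ∈ B then (1 : ℝ) else 0) =
      (Set.ncard {x | x ∈ Z ∧ x ∈ B} : ℝ) / (Set.ncard Z : ℝ) := by
  have : Fintype E := Fintype.ofFinite E
  have h1 : (∑ᶠ x : E, if x ∈ Z then (if x ∈ Z ∧ x ∈ B then (1 : ℝ) else 0) else 0) =
      (Set.ncard {x | x ∈ Z ∧ x ∈ B} : ℝ) := by
    rw [finsum_eq_sum_of_fintype]
    have h2 : ∀ x : E, (if x ∈ Z then (if x ∈ Z ∧ x ∈ B then (1 : ℝ) else 0) else 0) =
        if x ∈ Z ∧ x ∈ B then (1 : ℝ) else 0 := by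
      intro x
      by_cases hx : x ∈ Z
      · rw [if_pos hx]
      · rw [if_neg hx, if_neg (fun h => hx h.1)]
    rw [Finset.sum_congr rfl (fun x _ => h2 x), Finset.sum_boole,
      Set.ncard_eq_toFinset_card']
    congr 2
    ext x
    rw [Finset.mem_filter, Set.mem_toFinset]
    exact ⟨fun h => h.2, fun h => ⟨Finset.mem_univ x, h⟩⟩
  simp only [cav]
  rw [h1]

end CUBE_

open CUBE_ in
theorem p_CUBE : T_CAVE → T_CAVA → T_CAVB → T_CAVH → T_CUBE := by
  intro hE hA hB hH E _ _ _ k R l Z B Hs hS hZ hcard hHs hnum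
  have hEpos : 0 < Nat.card E := Nat.card_pos
  have hEr : (0 : ℝ) < (Nat.card E : ℝ) := by exact_mod_cast hEpos
  have hZpos : 0 < Set.ncard Z := (Set.ncard_pos (Set.toFinite Z)).mpr hZ
  have hZr : (0 : ℝ) < (Set.ncard Z : ℝ) := by exact_mod_cast hZpos
  let β : E → ℝ := fun x => if x ∈ Z ∧ x ∈ B then 1 else 0
  let g : Submodule (ZMod 2) E → E → List E → ℝ := fun H _ vs => if ∀ v ∈ vs, v ∈ H then 1 else 0
  have hβ0 : ∀ x, 0 ≤ β x := by
    intro x
    simp only [β]
    split_ifs <;> norm_num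
  have hg0 : ∀ H x vs, 0 ≤ g H x vs := by
    intro H x vs
    simp only [g]
    split_ifs <;> norm_num
  -- the average of the first part
  have h1 : cav k Z (cs β) ≤ 1 / 2 := by
    rw [hB E k Z β, cav_ind Z B]
    have h2 : ((2 ^ (k + 1) * Set.ncard {x | x ∈ Z ∧ x ∈ B} : ℕ) : ℝ) ≤ (Set.ncard Z : ℝ) := by
      exact_mod_cast hcard
    push_cast at h2
    rw [← mul_div_assoc, div_le_iff₀ hZr]
    rw [pow_succ] at h2
    linarith
  -- the average of the second part
  have h3 : ∀ H ∈ Hs, cav k Z (g H) ≤ 2 ^ lam k l / 2 ^ (k * R) := by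
    intro H hHm
    have h4 := hH E k l Z H hS
    have h5 : ((Nat.card H : ℝ) / (Nat.card E : ℝ)) ≤ 1 / 2 ^ R := by
      rw [div_le_div_iff₀ hEr (by positivity)]
      have h6 : ((2 ^ R * Nat.card H : ℕ) : ℝ) ≤ (Nat.card E : ℝ) := by
        exact_mod_cast hHs H hHm
      push_cast at h6
      linarith
    have h7 : ((Nat.card H : ℝ) / (Nat.card E : ℝ)) ^ k ≤ (1 / 2 ^ R) ^ k :=
      pow_le_pow_left₀ (by positivity) h5 k
    have h8 : ((1 : ℝ) / 2 ^ R) ^ k = 1 / 2 ^ (k * R) := by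
      rw [div_pow, one_pow, ← pow_mul, mul_comm]
    calc cav k Z (g H) ≤ ((Nat.card H : ℝ) / (Nat.card E : ℝ)) ^ k * 2 ^ lam k l := h4
      _ ≤ (1 / 2 ^ (k * R)) * 2 ^ lam k l := by
          rw [← h8]
          exact mul_le_mul_of_nonneg_right h7 (by positivity)
      _ = 2 ^ lam k l / 2 ^ (k * R) := by ring
  have h9 : ∑ H ∈ Hs, cav k Z (g H) < 1 / 2 := by
    have h10 : ∑ H ∈ Hs, cav k Z (g H) ≤ Hs.card • ((2 : ℝ) ^ lam k l / 2 ^ (k * R)) :=
      Finset.sum_le_card_nsmul Hs _ _ h3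
    have h11 : ((Hs.card * 2 ^ (lam k l + 1) : ℕ) : ℝ) < ((2 ^ (k * R) : ℕ) : ℝ) := by
      exact_mod_cast hnum
    push_cast at h11
    rw [pow_succ] at h11
    have h12 : (Hs.card : ℝ) * (2 ^ lam k l / 2 ^ (k * R)) < 1 / 2 := by
      rw [← mul_div_assoc, div_lt_iff₀ (by positivity)]
      linarith
    rw [nsmul_eq_mul] at h10
    linarith
  have h13 : cav k Z (fun x vs => cs β x vs + ∑ H ∈ Hs, g H x vs) < 1 := by
    rw [(hA E k Z).1 (fun x vs => cs β x vs) (fun x vs => ∑ H ∈ Hs, g H x vs),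
      (hA E k Z).2 (Submodule (ZMod 2) E) Hs g]
    have h14 : cav k Z (fun x vs => cs β x vs) ≤ 1 / 2 := h1
    linarith
  obtain ⟨x, vs, -, hC, hlt⟩ := hE E k Z _ hZ h13
  refine ⟨x, Submodule.span (ZMod 2) {v | v ∈ vs}, ?_, ?_⟩
  · intro w hw
    refine ⟨hC w hw, fun hwB => ?_⟩
    have h15 : β (x + w) = 1 := if_pos ⟨hC w hw, hwB⟩
    have h16 := le_cs β hβ0 vs x w hw
    have h17 : 0 ≤ ∑ H ∈ Hs, g H x vs := Finset.sum_nonneg (fun H _ => hg0 H x vs)
    linarith
  · intro H hHm hle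
    have h18 : g H x vs = 1 := if_pos (fun v hv => hle (Submodule.subset_span hv))
    have h19 : g H x vs ≤ ∑ H ∈ Hs, g H x vs :=
      Finset.single_le_sum (f := fun H => g H x vs) (fun H _ => hg0 H x vs) hHm
    have h20 := cs_nonneg β hβ0 vs x
    linarith

end Pool.Agent.LDQ
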