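import Pool.Agent.LDQ.Targets

set_option autoImplicit false

/-!
# MP_9f5962_lc: functions of degree `d` need one query
-/

open scoped Classical

noncomputable section

namespace Pool.Agent.LDQ

open Pool.Agent.LRC

namespace DEGF_

theorem zmod2_cases (a : ZMod 2) : a = 0 ∨ a = 1 := by
  revert a; decide

theorem add_one_deg {n d : ℕ} (p : MvPolynomial (Fin n) (ZMod 2)) (hp : p.totalDegree ≤ d) :
    (p + 1).totalDegree ≤ d := by
  refine (MvPolynomial.totalDegree_add _ _).trans ?_
  rw [MvPolynomial.totalDegree_one]
  exact max_le hp (Nat.zero_le _)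

end DEGF_

theorem p_DEGF : T_DEGF := by
  intro n d f p hp hf
  refine ⟨2, fun _ => 1, fun ω _ => if ω = 0 then p else p + 1, fun ω => decide (ω ≠ 0),
    fun _ => zero_le_one, ?_, ?_⟩
  · intro ω i
    dsimp only
    split_ifs
    · exact hp
    · exact DEGF_.add_one_deg p hp
  · intro x
    have e1 : MvZ (fun _ : Fin 1 => if (1 : Fin 2) = 0 then p else p + 1) x ↔
        MvPolynomial.eval x p = 1 := by
      simp only [MvZ, one_ne_zero, if_false, map_add, map_one]
      rcases DEGF_.zmod2_cases (MvPolynomial.eval x p) with h | h <;> rw [h] <;> decide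
    have e0' : MvZ (fun _ : Fin 1 => p) x ↔ MvPolynomial.eval x p = 0 := by
      simp [MvZ]
    rw [Fin.sum_univ_two, Fin.sum_univ_two]
    rcases DEGF_.zmod2_cases (MvPolynomial.eval x p) with h | h
    · have hfx : f x = false := by
        rw [Bool.eq_false_iff]; intro hc; rw [hf x, h] at hc; exact absurd hc (by decide)
      have h0 : MvZ (fun _ : Fin 1 => p) x := e0'.2 h
      simp only [e1, h, hfx]
      norm_num
      rw [if_pos h0]
      norm_num
    · have hfx : f x = true := (hf x).2 h
      have h0 : ¬ MvZ (fun _ : Fin 1 => p) x := fun hc => by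
        rw [e0', h] at hc; exact absurd hc (by decide)
      simp only [e1, h, hfx]
      norm_num
      rw [if_neg h0, if_neg h0]
      norm_num

end Pool.Agent.LDQ
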