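import Pool.Agent.LDQ.Targets

set_option autoImplicit false

/-!
# MP_9f5962_lc: DGM, the degree of a product
-/

open scoped Classical

noncomputable section

namespace Pool.Agent.LDQ

open Pool.Agent.LRC

namespace DGM_

variable {E : Type} [AddCommGroup E] [Module (ZMod 2) E]

theorem Dv_add (a : E) (P Q : E → ZMod 2) :
    Dv a (fun x => P x + Q x) = fun x => Dv a P x + Dv a Q x := by
  funext x
  unfold Dv
  ring

theorem Dg_add (d : ℕ) : ∀ P Q : E → ZMod 2, Dg d P → Dg d Q →
    Dg d (fun x => P x + Q x) := by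
  induction d with
  | zero =>
    intro P Q hP hQ a x
    rw [Dv_add]
    show Dv a P x + Dv a Q x = 0
    rw [hP a x, hQ a x, add_zero]
  | succ d ih =>
    intro P Q hP hQ a
    rw [Dv_add]
    exact ih _ _ (hP a) (hQ a)

theorem Dg_succ (d : ℕ) : ∀ P : E → ZMod 2, Dg d P → Dg (d + 1) P := by
  induction d with
  | zero =>
    intro P hP a b x
    show Dv a P (x + b) + Dv a P x = 0
    rw [hP a (x + b), hP a x, add_zero]
  | succ d ih =>
    intro P hP a
    exact ih _ (hP a)

theorem Dg_trans (d : ℕ) (h : E) (P : E → ZMod 2) (hP : Dg d P) :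
    Dg d (fun x => P (x + h)) := by
  have e : (fun x => P (x + h)) = fun x => P x + Dv h P x := by
    funext x
    have h2 : ∀ u v : ZMod 2, u = v + (u + v) := by decide
    exact h2 _ _
  rw [e]
  refine Dg_add d _ _ hP ?_
  cases d with
  | zero =>
    intro a x
    show Dv h P (x + a) + Dv h P x = 0
    rw [hP h (x + a), hP h x, add_zero]
  | succ d => exact Dg_succ d _ (hP h)

theorem Dg_zero_eq {P : E → ZMod 2} (hP : Dg 0 P) (x : E) : P x = P 0 := by
  have h2 : P (0 + x) + P 0 = 0 := hP x 0
  rw [zero_add] at h2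
  have h3 : ∀ u v : ZMod 2, u + v = 0 → u = v := by decide
  exact h3 _ _ h2

theorem Dg_smul (d : ℕ) (c : ZMod 2) : ∀ P : E → ZMod 2, Dg d P →
    Dg d (fun x => c * P x) := by
  induction d with
  | zero =>
    intro P hP a x
    show c * P (x + a) + c * P x = 0
    rw [← mul_add]
    have : P (x + a) + P x = 0 := hP a x
    rw [this, mul_zero]
  | succ d ih =>
    intro P hP a
    have e : Dv a (fun x => c * P x) = fun x => c * Dv a P x := by
      funext x
      unfold Dv
      ring
    rw [e]
    exact ih _ (hP a)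

theorem Dv_mul (a : E) (P Q : E → ZMod 2) :
    Dv a (fun x => P x * Q x) = fun x => Dv a P x * Q (x + a) + P x * Dv a Q x := by
  funext x
  unfold Dv
  have h : ∀ p p' q q' : ZMod 2, p' * q' + p * q = (p' + p) * q' + p * (q' + q) := by decide
  exact h _ _ _ _

theorem main : ∀ (a b : ℕ) (P Q : E → ZMod 2), Dg a P → Dg b Q →
    Dg (a + b) (fun x => P x * Q x) := by
  intro a
  induction a with
  | zero =>
    intro b P Q hP hQ
    have e : (fun x => P x * Q x) = fun x => P 0 * Q x := by
      funext x
      rw [Dg_zero_eq hP x]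
    rw [e, zero_add]
    exact Dg_smul b _ Q hQ
  | succ a iha =>
    intro b
    induction b with
    | zero =>
      intro P Q hP hQ
      have e : (fun x => P x * Q x) = fun x => Q 0 * P x := by
        funext x
        rw [Dg_zero_eq hQ x, mul_comm]
      rw [e, add_zero]
      exact Dg_smul (a + 1) _ P hP
    | succ b ihb =>
      intro P Q hP hQ
      have e : a + 1 + (b + 1) = (a + 1 + b) + 1 := rfl
      rw [e]
      intro h
      rw [Dv_mul]
      have h1 : Dg (a + (b + 1)) (fun x => Dv h P x * Q (x + h)) :=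
        iha (b + 1) _ _ (hP h) (Dg_trans (b + 1) h Q hQ)
      have h2 : Dg (a + 1 + b) (fun x => P x * Dv h Q x) := ihb _ _ hP (hQ h)
      have e' : a + (b + 1) = a + 1 + b := by omega
      rw [e'] at h1
      exact Dg_add _ _ _ h1 h2

end DGM_

theorem p_DGM : T_DGM := fun E _ _ a b P Q hP hQ => DGM_.main a b P Q hP hQ

end Pool.Agent.LDQ
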