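import Pool.Agent.LDQ.Targets

set_option autoImplicit false

/-!
# LDQ, target DIMP: the protocol from monochromatic subspaces of small dimension
-/

open scoped Classical

noncomputable section

namespace Pool.Agent.LDQ

open Pool.Agent.LRC

namespace DIMP_

/-- a space of dimension at least `k` contains `k` independent vectors -/
theorem indep {E : Type} [AddCommGroup E] [Module (ZMod 2) E] [Finite E]
    (W : Submodule (ZMod 2) E) {k : ℕ} (hk : k ≤ Module.finrank (ZMod 2) W) :
    ∃ u : Fin k → E, LinearIndependent (ZMod 2) u ∧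
      Submodule.span (ZMod 2) (Set.range u) ≤ W := by
  let b := Module.finBasis (ZMod 2) W
  refine ⟨fun i => ((b (Fin.castLE hk i) : W) : E), ?_, ?_⟩
  · have h1 : LinearIndependent (ZMod 2) (fun i : Fin k => b (Fin.castLE hk i)) :=
      b.linearIndependent.comp (Fin.castLE hk) (Fin.castLE_injective hk)
    exact h1.map' W.subtype (LinearMap.ker_eq_bot.2 (Subtype.val_injective))
  · rw [Submodule.span_le]
    rintro _ ⟨i, rfl⟩
    exact (b (Fin.castLE hk i)).2

/-- the rank of a substituted function -/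
theorem rank_le {n N : ℕ} (f : (Fin n → ZMod 2) → Bool) (x : Fin n → ZMod 2)
    (A : (Fin N → ZMod 2) →ₗ[ZMod 2] (Fin n → ZMod 2)) :
    xrk (fun u => f (x + A u)) ≤ xrk f := by
  have h := Matrix.rank_submatrix_le
    (Matrix.of (fun x y : Fin n → ZMod 2 => if f (x + y) then (1 : ℝ) else 0))
    (fun u : Fin N → ZMod 2 => x + A u) (fun u : Fin N → ZMod 2 => A u)
  refine le_trans (le_of_eq ?_) h
  unfold xrk
  refine congrArg Matrix.rank ?_
  ext u v
  simp only [Matrix.of_apply, Matrix.submatrix_apply, map_add, add_assoc]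

end DIMP_

theorem p_DIMP : T_LIFT → T_UNIF → Pool.Agent.LRC.T_RES → Pool.Agent.LRC.T_PDT →
    Pool.Agent.LRC.T_RNK → Pool.Agent.LRC.T_NCO → T_DIMP := by
  intro h_LIFT h_UNIF h_RES h_PDT h_RNK h_NCO N k r R H hcount n f hr
  refine h_PDT n f (R - 1) ?_ (mr f) ?_
  · intro x W
    let F : W → Bool := fun v => f (x + (v : Fin n → ZMod 2))
    have hind : ind F = fun w : W => ind f (x + (w : Fin n → ZMod 2)) := by
      funext w
      rfl
    have hsp : spa (ind F) ≤ r := by
      rw [hind]
      exact (h_RES (Fin n → ZMod 2) W x (ind f)).trans ((h_RNK n f).trans hr)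
    have hlift := h_LIFT W F N k (by
      intro a A
      obtain ⟨x', Wg, hWg, hconst⟩ := H (fun u => f (x + (a : Fin n → ZMod 2) +
        (W.subtype ∘ₗ A) u)) ((DIMP_.rank_le f _ _).trans hr)
      obtain ⟨u, hu, hspan⟩ := DIMP_.indep Wg hWg
      refine ⟨x', u, hu, fun w hw => ?_⟩
      have h1 := hconst w (hspan hw)
      simp only [LinearMap.comp_apply, Submodule.subtype_apply, add_assoc] at h1
      exact h1)
    obtain ⟨x₀, W1, hfin, hW1⟩ := h_UNIF W F r k R (N * (k + 1)) hsp hlift hcount
    have hle : Module.finrank (ZMod 2) W1 ≤ Module.finrank (ZMod 2) W := Submodule.finrank_le W1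
    refine ⟨x + (x₀ : Fin n → ZMod 2), ?_, W1.map W.subtype, Submodule.map_subtype_le W W1,
      ?_, ?_⟩
    · rw [add_sub_cancel_left]
      exact x₀.2
    · rw [Submodule.finrank_map_subtype_eq]
      omega
    · rintro _ ⟨w, hw, rfl⟩
      have h := hW1 w hw
      rw [add_assoc]
      exact h
  · have h1 := (h_NCO (Fin n → ZMod 2) f).1
    have h2 := h_RNK n f
    have h3 : xrk f < 2 ^ (mr f) := Nat.lt_pow_succ_log_self (by norm_num) _
    omega

end Pool.Agent.LDQ
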