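import Pool.Agent.LDQ.Targets

set_option autoImplicit false

/-!
# MP_9f5962_lc, LDQ-DZC: double counting
-/

open scoped Classical

noncomputable section

namespace Pool.Agent.LDQ

open Pool.Agent.LRC

namespace DZC_

/-- The sum over a translate. -/
theorem tr {E : Type} [AddCommGroup E] [Fintype E] (g : E → ℝ) (x : E) :
    (∑ v : E, g (x + v)) = ∑ y : E, g y :=
  Fintype.sum_equiv (Equiv.addLeft x) _ _ (fun _ => rfl)

theorem tr2 {E : Type} [AddCommGroup E] [Fintype E] (g : E → ℝ) (v : E) :
    (∑ x : E, g (x + v)) = ∑ y : E, g y :=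
  Fintype.sum_equiv (Equiv.addRight v) _ _ (fun _ => rfl)

theorem ncard_eq {E : Type} [Fintype E] (S : Set E) :
    (Set.ncard S : ℝ) = ∑ x : E, (if x ∈ S then (1 : ℝ) else 0) := by
  rw [Set.ncard_eq_toFinset_card' S, Finset.sum_ite, Finset.sum_const_zero, add_zero,
    Finset.sum_const, nsmul_eq_mul, mul_one]
  congr 2
  ext x
  simp

/-- The double sum. -/
theorem dbl_sum {E : Type} [AddCommGroup E] [Fintype E] (Z : Set E) (g : E → ℝ) :
    (∑ v : E, ∑ x : E, (if x ∈ dz Z v then g x else 0)) =
      (Set.ncard Z : ℝ) * ∑ x : E, (if x ∈ Z then g x else 0) := by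
  rw [Finset.sum_comm]
  have h : ∀ x : E, (∑ v : E, (if x ∈ dz Z v then g x else 0)) =
      (Set.ncard Z : ℝ) * (if x ∈ Z then g x else 0) := by
    intro x
    by_cases hx : x ∈ Z
    · rw [if_pos hx, ncard_eq, ← tr (fun y => if y ∈ Z then (1 : ℝ) else 0) x, Finset.sum_mul]
      refine Finset.sum_congr rfl (fun v _ => ?_)
      by_cases hv : x + v ∈ Z
      · rw [if_pos (show x ∈ dz Z v from ⟨hx, hv⟩), if_pos hv, one_mul]
      · rw [if_neg (show ¬ x ∈ dz Z v from fun h => hv h.2), if_neg hv, zero_mul]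
    · rw [if_neg hx, mul_zero]
      refine Finset.sum_eq_zero (fun v _ => ?_)
      rw [if_neg (show ¬ x ∈ dz Z v from fun h => hx h.1)]
  rw [Finset.sum_congr rfl (fun x _ => h x), Finset.mul_sum]

/-- In characteristic two the translate of a translate is the identity. -/
theorem add_self {E : Type} [AddCommGroup E] [Module (ZMod 2) E] (x v : E) : x + v + v = x := by
  have h : v + v = 0 := by
    have h1 : (2 : ZMod 2) • v = v + v := two_smul (ZMod 2) v
    rw [← h1, show (2 : ZMod 2) = 0 from rfl, zero_smul]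
  rw [add_assoc, h, add_zero]

end DZC_

/-- DZC. -/
theorem p_DZC : T_DZC := by
  intro E _ _ _ Z β
  have : Fintype E := Fintype.ofFinite E
  constructor
  · rw [finsum_eq_sum_of_fintype]
    have h := DZC_.dbl_sum Z (fun _ => (1 : ℝ))
    rw [← DZC_.ncard_eq Z] at h
    rw [sq, ← h]
    exact Finset.sum_congr rfl (fun v _ => DZC_.ncard_eq (dz Z v))
  · rw [finsum_eq_sum_of_fintype, finsum_eq_sum_of_fintype]
    have h1 : ∀ v : E, (∑ᶠ x : E, if x ∈ dz Z v then β x + β (x + v) else 0) =
        (∑ x : E, if x ∈ dz Z v then β x else 0) + ∑ x : E, if x ∈ dz Z v then β x else 0 := by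
      intro v
      rw [finsum_eq_sum_of_fintype]
      have h2 : (∑ x : E, if x ∈ dz Z v then β x else 0) =
          ∑ x : E, if x ∈ dz Z v then β (x + v) else 0 := by
        rw [← DZC_.tr2 (fun x => if x ∈ dz Z v then β x else 0) v]
        refine Finset.sum_congr rfl (fun x _ => ?_)
        have h3 : (x + v ∈ dz Z v) ↔ x ∈ dz Z v := by
          constructor
          · intro h
            have h4 := h.2
            rw [DZC_.add_self] at h4
            exact ⟨h4, h.1⟩
          · intro h
            refine ⟨h.2, ?_⟩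
            rw [DZC_.add_self]
            exact h.1
        simp only [h3]
      conv_rhs => rw [h2]
      conv_rhs => lhs; rw [← h2]
      rw [← Finset.sum_add_distrib]
      refine Finset.sum_congr rfl (fun x _ => ?_)
      by_cases hx : x ∈ dz Z v
      · rw [if_pos hx, if_pos hx, if_pos hx]
      · rw [if_neg hx, if_neg hx, if_neg hx, add_zero]
    rw [Finset.sum_congr rfl (fun v _ => h1 v), Finset.sum_add_distrib, DZC_.dbl_sum]
    ring

end Pool.Agent.LDQ
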