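import Pool.Agent.LRC.Targets

set_option autoImplicit false

/-!
# MP_9f5962_lc: XOR functions and queries of arbitrary degree: definitions

`E` is a finite vector space over `F_2`; `Dv`, `ind`, `fco`, `spa`, `sp1`, `zer`, `Prot`, `xrk` and
`MvZ` are those of `Pool.Agent.LRC.Defs`.
-/

open scoped Classical

noncomputable section

namespace Pool.Agent.LDQ

open Pool.Agent.LRC

/-- `tau k e`: the sum of the degrees met in `k` doubling steps from one polynomial of degree
`e`. -/
def tau : ℕ → ℕ → ℕ
  | 0, _ => 0
  | k + 1, e => e + tau k e + tau k (e - 1)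

/-- The list of degrees after one doubling step. -/
def dbl : List ℕ → List ℕ
  | [] => []
  | e :: l => e :: (e - 1) :: dbl l

/-- The sum of all degrees met in `k` doubling steps. -/
def lam : ℕ → List ℕ → ℕ
  | 0, _ => 0
  | k + 1, l => l.sum + lam k (dbl l)

section General

variable {E : Type} [AddCommGroup E] [Module (ZMod 2) E]

/-- All derivatives of order `d + 1` vanish: degree at most `d`. -/
def Dg : ℕ → (E → ZMod 2) → Prop
  | 0, P => ∀ a x, Dv a P x = 0
  | d + 1, P => ∀ a, Dg d (Dv a P)

/-- `Z` is the common zero set of functions whose degrees are at most the entries of the list. -/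
def Sys : List ℕ → Set E → Prop
  | [], Z => Z = Set.univ
  | e :: l, Z => ∃ (P : E → ZMod 2) (Y : Set E), Dg e P ∧ Sys l Y ∧ Z = {x | x ∈ Y ∧ P x = 0}

/-- The intersection of `Z` and its translate. -/
def dz (Z : Set E) (v : E) : Set E := {x | x ∈ Z ∧ x + v ∈ Z}

/-- The sum of `β` over the cube with base point `x` and the given edges. -/
def cs (β : E → ℝ) : E → List E → ℝ
  | x, [] => β x
  | x, v :: vs => cs β x vs + cs β (x + v) vs

/-- The cube measure: `v` is distributed as the difference of two uniform elements of `Z`, then the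
other edges are chosen in the same way for `dz Z v`; at the end the base point is uniform. -/
def cav : ℕ → Set E → (E → List E → ℝ) → ℝ
  | 0, Z, φ => (∑ᶠ x : E, if x ∈ Z then φ x [] else 0) / (Set.ncard Z : ℝ)
  | k + 1, Z, φ => ∑ᶠ v : E, ((Set.ncard (dz Z v) : ℝ) / (Set.ncard Z : ℝ) ^ 2) *
      cav k (dz Z v) (fun x vs => φ x (v :: vs))

/-- The cube with base point `x` and edges `vs` is contained in `S`. -/
def Cin (S : Set E) (x : E) (vs : List E) : Prop :=
  ∀ w ∈ Submodule.span (ZMod 2) {v | v ∈ vs}, x + w ∈ S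

end General

section Prot

variable {n : ℕ}

/-- Each coset `x + W` contains a common zero of some `t` polynomials of degree at most `d` such
that `f` differs from some constant `b` on at most a fraction `1 / M` of the common zeros in the
coset. -/
def Cbd (d : ℕ) (f : (Fin n → ZMod 2) → Bool) (t M : ℕ) : Prop :=
  ∀ (x : Fin n → ZMod 2) (W : Submodule (ZMod 2) (Fin n → ZMod 2)),
    ∃ (P : Fin t → MvPolynomial (Fin n) (ZMod 2)) (b : Bool),
      (∀ i, (P i).totalDegree ≤ d) ∧ (∃ v ∈ W, MvZ P (x + v)) ∧
      M * Set.ncard {v | v ∈ W ∧ MvZ P (x + v) ∧ f (x + v) ≠ b} ≤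
        Set.ncard {v | v ∈ W ∧ MvZ P (x + v)}

/-- Postselected randomised degree `d` query complexity at most `t`: a finite family of systems of
`t` equations of degree at most `d` together with an answer and a weight such that for each input
`x` the systems satisfied by `x` have positive weight and those with a wrong answer have at most
one third of it. -/
def Rqd (d : ℕ) (f : (Fin n → ZMod 2) → Bool) (t : ℕ) : Prop :=
  ∃ (N : ℕ) (p : Fin N → ℝ) (P : Fin N → Fin t → MvPolynomial (Fin n) (ZMod 2))
    (b : Fin N → Bool), (∀ ω, 0 ≤ p ω) ∧ (∀ ω i, (P ω i).totalDegree ≤ d) ∧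
    ∀ x, 0 < (∑ ω, if MvZ (P ω) x then p ω else 0) ∧
      3 * (∑ ω, if MvZ (P ω) x ∧ b ω ≠ f x then p ω else 0) ≤
        ∑ ω, if MvZ (P ω) x then p ω else 0

/-- The binary logarithm of the rank. -/
def Lr (f : (Fin n → ZMod 2) → Bool) : ℝ := Real.logb 2 (xrk f : ℝ)

/-- The number `Nat.log 2 r + 1`. -/
def mr (f : (Fin n → ZMod 2) → Bool) : ℕ := Nat.log 2 (xrk f) + 1

end Prot

end Pool.Agent.LDQ
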