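import Pool.Agent.LDQ.Targets

set_option autoImplicit false

/-!
# MP_9f5962_lc: XOR functions and queries of arbitrary degree: the explicit exponent
-/

open scoped Classical

noncomputable section

namespace Pool.Agent.LDQ

open Pool.Agent.LRC

namespace EXPL_

theorem choose_lt (hCHO : T_CHO) (r k R A : ℕ) (h1 : 6 * r ≤ R * 2 ^ k) (h2 : A + 2 ≤ R) :
    r.choose R * 2 ^ (A + 1) < 2 ^ (k * R) := by
  rcases Nat.eq_zero_or_pos (r.choose R) with h | h
  · rw [h, Nat.zero_mul]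
    positivity
  · have h3 := hCHO r k R h1
    have h4 : 2 ^ (A + 1) < 2 ^ R := Nat.pow_lt_pow_right (by norm_num) (by omega)
    calc r.choose R * 2 ^ (A + 1) < r.choose R * 2 ^ R := Nat.mul_lt_mul_of_pos_left h4 h
      _ ≤ _ := h3

theorem rpow_eq (L : ℝ) (r x : ℝ) (hx : 0 < x) (hr : r = (2 : ℝ) ^ L) (a : ℝ) :
    r ^ (a * Real.logb 2 x) = x ^ (a * L) := by
  rw [hr, ← Real.rpow_mul (by norm_num)]
  have h : L * (a * Real.logb 2 x) = Real.logb 2 x * (a * L) := by ring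
  rw [h, Real.rpow_mul (by norm_num), Real.rpow_logb (by norm_num) (by norm_num) hx]

theorem tau_le (hT : T_TAUX) (k d : ℕ) (L δ μ x r : ℝ) (hL : 1 ≤ L) (hδ0 : 0 ≤ δ) (hδ : δ ≤ 1)
    (hx : 0 < x) (hx1 : x ≤ 1) (hr : r = (2 : ℝ) ^ L) (hd : (d : ℝ) ≤ δ * L)
    (hk : (k : ℝ) ≤ μ * L + 1) :
    (tau k d : ℝ) ≤ 2 * L * r ^ (δ * Real.logb 2 (1 / x) + μ * Real.logb 2 (1 + x)) := by
  have hr0 : 0 < r := by rw [hr]; positivity
  have h1x : (1 : ℝ) ≤ 1 / x := by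
    rw [le_div_iff₀ hx]; linarith
  have hdL : (d : ℝ) ≤ L := by nlinarith
  have h1 := hT k d x hx hx1
  have h2 : (1 / x) ^ d ≤ (1 / x) ^ (δ * L) := by
    rw [← Real.rpow_natCast]
    exact Real.rpow_le_rpow_of_exponent_le h1x hd
  have h3 : (1 + x) ^ k ≤ (1 + x) ^ (μ * L) * 2 := by
    have h4 : (1 + x) ^ k ≤ (1 + x) ^ (μ * L + 1) := by
      rw [← Real.rpow_natCast]
      exact Real.rpow_le_rpow_of_exponent_le (by linarith) hk
    rw [Real.rpow_add (by linarith), Real.rpow_one] at h4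
    refine h4.trans ?_
    exact mul_le_mul_of_nonneg_left (by linarith) (Real.rpow_nonneg (by linarith) _)
  rw [Real.rpow_add hr0, rpow_eq L r (1 / x) (by positivity) hr δ,
    rpow_eq L r (1 + x) (by linarith) hr μ]
  have hA : 0 ≤ (1 / x) ^ (δ * L) := Real.rpow_nonneg (by positivity) _
  have hB : 0 ≤ (1 + x) ^ (μ * L) := Real.rpow_nonneg (by linarith) _
  calc (tau k d : ℝ) ≤ d * (1 / x) ^ d * (1 + x) ^ k := h1
    _ ≤ L * (1 / x) ^ (δ * L) * ((1 + x) ^ (μ * L) * 2) := by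
      have h5 : (d : ℝ) * (1 / x) ^ d ≤ L * (1 / x) ^ (δ * L) :=
        mul_le_mul hdL h2 (by positivity) (by linarith)
      exact mul_le_mul h5 h3 (pow_nonneg (by linarith) _) (mul_nonneg (by linarith) hA)
    _ = _ := by ring

end EXPL_

theorem p_EXPL : T_AMPD → T_RAW → T_TAUX → T_CHO → T_NCL → T_EXPL := by
  intro hA hRAW hT hC hN n f t d δ μ x ht hδ0 hδ hμ0 hμ hx hx1 hd hR
  obtain ⟨hL0, hcase⟩ := hN n f
  rcases hcase with h0 | ⟨hr2, hL1, hmr, hrL⟩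
  · refine ⟨0, ?_, h0⟩
    have : (0 : ℝ) ≤ Lr f := hL0
    push_cast
    positivity
  · obtain ⟨L, hLdef⟩ : ∃ L, L = Lr f := ⟨_, rfl⟩
    obtain ⟨r, hrdef⟩ : ∃ r : ℝ, r = (xrk f : ℝ) := ⟨_, rfl⟩
    rw [← hLdef] at hL1 hmr hrL hd ⊢
    rw [← hrdef] at hrL ⊢
    have hr1 : (1 : ℝ) ≤ r := by
      rw [hrdef]; exact_mod_cast (by omega : 1 ≤ xrk f)
    have hr0 : (0 : ℝ) < r := by linarith
    have hμL : 0 ≤ μ * L := by positivity
    have hk1 : μ * L ≤ (⌈μ * L⌉₊ : ℝ) := Nat.le_ceil _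
    have hk2 : (⌈μ * L⌉₊ : ℝ) < μ * L + 1 := Nat.ceil_lt_add_one hμL
    obtain ⟨k, hk⟩ : ∃ k, k = ⌈μ * L⌉₊ := ⟨_, rfl⟩
    rw [← hk] at hk1 hk2
    have hCb := hA d n f t hR (k + 1)
    obtain ⟨A, hAdef⟩ : ∃ A, A = t * (k + 1) * tau k d := ⟨_, rfl⟩
    obtain ⟨C, hCdef⟩ : ∃ C, C = ⌈6 * r / 2 ^ k⌉₊ := ⟨_, rfl⟩
    have hc0 : 0 ≤ 6 * r / 2 ^ k := by positivity
    have hC1 : 6 * r / 2 ^ k ≤ (C : ℝ) := by rw [hCdef]; exact Nat.le_ceil _
    have hC2 : (C : ℝ) < 6 * r / 2 ^ k + 1 := by rw [hCdef]; exact Nat.ceil_lt_add_one hc0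
    have hsix : 6 * xrk f ≤ (A + 2 + C) * 2 ^ k := by
      have h : (6 * xrk f : ℝ) ≤ ((A + 2 + C : ℕ) : ℝ) * 2 ^ k := by
        rw [← hrdef]
        have h1 : 6 * r ≤ (C : ℝ) * 2 ^ k := by
          rwa [div_le_iff₀ (by positivity)] at hC1
        have h2 : (C : ℝ) * 2 ^ k ≤ ((A + 2 + C : ℕ) : ℝ) * 2 ^ k := by
          apply mul_le_mul_of_nonneg_right _ (by positivity)
          push_cast
          have : (0 : ℝ) ≤ A := Nat.cast_nonneg _
          linarith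
        linarith
      exact_mod_cast h
    have hlt := EXPL_.choose_lt hC (xrk f) k (A + 2 + C) A hsix (by omega)
    rw [hAdef] at hlt
    have hP := hRAW n f (t * (k + 1)) d k (t * (k + 1) * tau k d + 2 + C) hCb hlt
    rw [← hAdef] at hP
    refine ⟨_, ?_, hP⟩
    set θ := δ * Real.logb 2 (1 / x) + μ * Real.logb 2 (1 + x) with hθ
    have htau := EXPL_.tau_le hT k d L δ μ x r hL1 hδ0 hδ hx hx1 hrL hd hk2.le
    rw [← hθ] at htau
    have ht1 : (1 : ℝ) ≤ t := by exact_mod_cast ht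
    have hM0 : 0 ≤ max (1 - μ) θ := le_trans (by linarith) (le_max_left _ _)
    have hrM : 1 ≤ r ^ max (1 - μ) θ := Real.one_le_rpow hr1 hM0
    have hrθ : r ^ θ ≤ r ^ max (1 - μ) θ :=
      Real.rpow_le_rpow_of_exponent_le hr1 (le_max_right _ _)
    have hrμ : r ^ (1 - μ) ≤ r ^ max (1 - μ) θ :=
      Real.rpow_le_rpow_of_exponent_le hr1 (le_max_left _ _)
    set M := r ^ max (1 - μ) θ with hM
    have hk3 : (k : ℝ) + 1 ≤ 3 * L := by nlinarith
    -- the bound for `A`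
    have hAle : (A : ℝ) ≤ 6 * t * L ^ 2 * M := by
      rw [hAdef]
      push_cast
      have h1 : (tau k d : ℝ) ≤ 2 * L * M := htau.trans
        (mul_le_mul_of_nonneg_left hrθ (by linarith))
      have h2 : (t : ℝ) * (k + 1) ≤ t * (3 * L) := mul_le_mul_of_nonneg_left hk3 (by linarith)
      calc (t : ℝ) * (k + 1) * tau k d ≤ t * (3 * L) * (2 * L * M) :=
            mul_le_mul h2 h1 (Nat.cast_nonneg _) (by positivity)
        _ = _ := by ring
    -- the bound for `C`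
    have hCle : (C : ℝ) ≤ 6 * M + 1 := by
      have h1 : r / 2 ^ k ≤ r ^ (1 - μ) := by
        rw [Real.rpow_sub hr0, Real.rpow_one]
        apply div_le_div_of_nonneg_left hr0.le (by positivity)
        rw [hrL, ← Real.rpow_mul (by norm_num), ← Real.rpow_natCast]
        apply Real.rpow_le_rpow_of_exponent_le (by norm_num)
        linarith
      have h2 : 6 * r / 2 ^ k = 6 * (r / 2 ^ k) := by ring
      rw [h2] at hC2
      linarith
    have hsub : ((A + 2 + C - 1 : ℕ) : ℝ) = A + C + 1 := by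
      have : A + 2 + C - 1 = A + C + 1 := by omega
      rw [this]; push_cast; ring
    have hL2 : 1 ≤ L ^ 2 := by nlinarith
    have htL : 1 ≤ (t : ℝ) * L ^ 2 := by nlinarith
    have hR1 : ((A + 2 + C - 1 : ℕ) : ℝ) ≤ 14 * t * L ^ 2 * M := by
      rw [hsub]
      have h3 : 6 * M + 2 ≤ 8 * M := by linarith
      have h4 : M ≤ t * L ^ 2 * M := by nlinarith
      nlinarith
    have hmr2 : (mr f : ℝ) ≤ 2 * L := by linarith
    have hM00 : 0 ≤ M := by linarith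
    push_cast
    calc 2 * ((A + 2 + C - 1 : ℕ) : ℝ) * (mr f : ℝ) ≤ 2 * (14 * t * L ^ 2 * M) * (2 * L) := by
          apply mul_le_mul _ hmr2 (Nat.cast_nonneg _) (by positivity)
          linarith
      _ = 56 * t * L ^ 3 * M := by ring

end Pool.Agent.LDQ
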