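import Pool.Agent.LDQ.Targets

set_option autoImplicit false

open scoped Classical

noncomputable section

namespace Pool.Agent.LDQ

open Pool.Agent.LRC

theorem p_FCER : T_CERD → T_POLY → T_NCL → T_FCER := by
  intro hC hP hN n f t d b hd hcert
  obtain ⟨hL0, h | ⟨hr, hL1, hm, -⟩⟩ := hN n f
  · refine ⟨0, ?_, h⟩
    have h1 : (0 : ℝ) ≤ (t : ℝ) := Nat.cast_nonneg t
    have h2 : (0 : ℝ) ≤ (4 * Lr f) ^ d := pow_nonneg (by linarith) d
    push_cast
    positivity
  · have hcb := hC d n f t b hcert (2 ^ (2 * mr f + 1))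
    have hp := hP n f t d hd hcb
    refine ⟨4 * t * (2 * mr f) ^ d, ?_, hp⟩
    have h1 : (0 : ℝ) ≤ (t : ℝ) := Nat.cast_nonneg t
    have h3 : (2 * (mr f : ℝ)) ≤ 4 * Lr f := by linarith
    have h4 : (2 * (mr f : ℝ)) ^ d ≤ (4 * Lr f) ^ d :=
      pow_le_pow_left₀ (by positivity) h3 d
    push_cast
    exact mul_le_mul_of_nonneg_left h4 (by positivity)

end Pool.Agent.LDQ
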