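import Pool.Agent.LDQ.Targets

/-!
# MP_9f5962_lc: reduction to small dimension, final form (FDIM)
-/

set_option autoImplicit false

open scoped Classical

noncomputable section

namespace Pool.Agent.LDQ

open Pool.Agent.LRC

theorem p_FDIM : T_DIMP → T_NCL → T_FDIM := by
  rintro hD hN ⟨ε, C, k, hε, H⟩
  have hC' : 0 ≤ 4 * (2 * |C| + 1) * (3 + ε) / ε := by positivity
  refine ⟨4 * (2 * |C| + 1) * (3 + ε) / ε, k + 1, fun n f => ?_⟩
  obtain ⟨hL0, h0 | ⟨hr2, hL1, hmr, hrL⟩⟩ := hN n f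
  · refine ⟨0, ?_, h0⟩
    have : 0 ≤ Lr f ^ (k + 1) := by positivity
    have := mul_nonneg hC' this
    push_cast
    linarith
  set L : ℝ := Lr f with hL
  set r : ℕ := xrk f with hr
  have hLpos : 0 < L := by linarith
  have hεL : 0 < ε * L := by positivity
  have hLk : 1 ≤ L ^ k := one_le_pow₀ hL1
  set N : ℕ := ⌈|C| * L ^ k + |C|⌉₊ with hNdef
  set k1 : ℕ := ⌈(1 + ε) * L⌉₊ with hk1
  set R : ℕ := ⌊(N : ℝ) * (k1 + 1) / (ε * L)⌋₊ + 1 with hR
  have hN1 : |C| * L ^ k + |C| ≤ N := Nat.le_ceil _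
  have hN2 : (N : ℝ) ≤ (2 * |C| + 1) * L ^ k := by
    have h1 : (N : ℝ) < |C| * L ^ k + |C| + 1 := Nat.ceil_lt_add_one (by positivity)
    have h2 : |C| ≤ |C| * L ^ k := le_mul_of_one_le_right (abs_nonneg _) hLk
    nlinarith
  have hk2 : (1 + ε) * L ≤ k1 := Nat.le_ceil _
  have hk3 : (k1 : ℝ) + 1 ≤ (3 + ε) * L := by
    have h1 : (k1 : ℝ) < (1 + ε) * L + 1 := Nat.ceil_lt_add_one (by positivity)
    nlinarith
  have hR1 : (N : ℝ) * (k1 + 1) / (ε * L) < R := by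
    rw [hR]
    push_cast
    exact Nat.lt_floor_add_one _
  have hR2 : ((R - 1 : ℕ) : ℝ) ≤ (N : ℝ) * (k1 + 1) / (ε * L) := by
    rw [hR, Nat.add_sub_cancel]
    exact Nat.floor_le (by positivity)
  have hchoose : r.choose R * 2 ^ (N * (k1 + 1)) < 2 ^ (k1 * R) := by
    have h1 : (r.choose R : ℝ) ≤ (r : ℝ) ^ R := by exact_mod_cast Nat.choose_le_pow r R
    have h2 : ((r.choose R * 2 ^ (N * (k1 + 1)) : ℕ) : ℝ) < ((2 ^ (k1 * R) : ℕ) : ℝ) := by
      push_cast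
      refine lt_of_le_of_lt (mul_le_mul_of_nonneg_right h1 (by positivity)) ?_
      have h3 : (r : ℝ) ^ R * 2 ^ (N * (k1 + 1)) =
          (2 : ℝ) ^ (L * R + (N : ℝ) * (k1 + 1)) := by
        rw [Real.rpow_add (by norm_num), Real.rpow_mul (by norm_num), ← hrL,
          Real.rpow_natCast]
        congr 1
        rw [← Real.rpow_natCast]
        push_cast
        rfl
      have h4 : (2 : ℝ) ^ (k1 * R) = (2 : ℝ) ^ ((k1 : ℝ) * R) := by
        rw [← Real.rpow_natCast]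
        push_cast
        rfl
      rw [h3, h4]
      refine Real.rpow_lt_rpow_of_exponent_lt (by norm_num) ?_
      have h5 : (N : ℝ) * (k1 + 1) < R * (ε * L) := (div_lt_iff₀ hεL).1 hR1
      have h6 : (1 + ε) * L * R ≤ k1 * R := mul_le_mul_of_nonneg_right hk2 (by positivity)
      nlinarith
    exact_mod_cast h2
  have hkey : ∀ g : (Fin N → ZMod 2) → Bool, xrk g ≤ r → ∃ (x : Fin N → ZMod 2)
      (W : Submodule (ZMod 2) (Fin N → ZMod 2)), k1 ≤ Module.finrank (ZMod 2) W ∧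
      ∀ w ∈ W, g (x + w) = g x := by
    intro g hg
    obtain ⟨x, W, h1, h2⟩ := H N r g hr2 hg (by
      refine le_trans ?_ hN1
      have h3 : Real.logb 2 (r : ℝ) = L := rfl
      rw [h3]
      have h4 : C ≤ |C| := le_abs_self C
      have h5 : C * L ^ k ≤ |C| * L ^ k := mul_le_mul_of_nonneg_right h4 (by positivity)
      linarith)
    refine ⟨x, W, ?_, h2⟩
    exact Nat.ceil_le.2 h1
  refine ⟨2 * (R - 1) * mr f, ?_, hD N k1 r R hkey hchoose n f le_rfl⟩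
  have hm2 : (mr f : ℝ) ≤ 2 * L := by linarith
  have hfin : ((2 * (R - 1) * mr f : ℕ) : ℝ) ≤ 4 * (2 * |C| + 1) * (3 + ε) / ε * L ^ (k + 1) := by
    push_cast
    calc 2 * ((R - 1 : ℕ) : ℝ) * (mr f : ℝ)
        ≤ 2 * ((N : ℝ) * (k1 + 1) / (ε * L)) * (2 * L) := by gcongr
      _ = 4 * ((N : ℝ) * (k1 + 1)) / ε := by
        field_simp
        ring
      _ ≤ 4 * (((2 * |C| + 1) * L ^ k) * ((3 + ε) * L)) / ε := by gcongr
      _ = 4 * (2 * |C| + 1) * (3 + ε) / ε * L ^ (k + 1) := by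
        rw [pow_succ]
        ring
  linarith

end Pool.Agent.LDQ
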