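import Pool.Agent.LDQ.Targets
import Pool.Agent.LRC.RES

set_option autoImplicit false

/-!
# LDQ, FOUR: constant on a coset of small codimension
-/

open scoped Classical

noncomputable section

namespace Pool.Agent.LDQ

open Pool.Agent.LRC

namespace FOUR_

variable {E : Type} [AddCommGroup E] [Module (ZMod 2) E] [Finite E]

/-- few independent elements give a small span -/
theorem rank_lt (S : Set (Module.Dual (ZMod 2) E)) (R : ℕ)
    (h : ∀ I : Finset (Module.Dual (ZMod 2) E), I.card = R → (∀ l ∈ I, l ∈ S) →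
      ¬ LinearIndependent (ZMod 2) (fun l : I => (l : Module.Dual (ZMod 2) E))) :
    Module.finrank (ZMod 2) (Submodule.span (ZMod 2) S) < R := by
  have : Finite (Module.Dual (ZMod 2) E) := RES_.dual_finite
  have : Fintype (Module.Dual (ZMod 2) E) := Fintype.ofFinite _
  by_contra hc
  push Not at hc
  obtain ⟨B, hBS, hsp, hli⟩ := exists_linearIndependent (ZMod 2) S
  have hcard : Module.finrank (ZMod 2) (Submodule.span (ZMod 2) B) = B.toFinset.card :=
    finrank_span_set_eq_card hli
  rw [hsp] at hcard
  rw [hcard] at hc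
  obtain ⟨I, hI, hIc⟩ := Finset.exists_subset_card_eq hc
  refine h I hIc (fun l hl => hBS (Set.mem_toFinset.1 (hI hl))) ?_
  have hsub : ∀ l : I, (l : Module.Dual (ZMod 2) E) ∈ B := fun l =>
    Set.mem_toFinset.1 (hI l.2)
  have h2 := hli.comp (fun l : I => (⟨(l : Module.Dual (ZMod 2) E), hsub l⟩ : B))
    (fun l l' hll => by
      have := congrArg (fun z : B => (z : Module.Dual (ZMod 2) E)) hll
      exact Subtype.ext this)
  exact h2

/-- the sums over the cosets of `V` are invariant under `w` -/
theorem sum_inv (F : E → ℝ) (V : Submodule (ZMod 2) E) [Fintype V] (x w : E)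
    (hw : ∀ l : Module.Dual (ZMod 2) E, fco F l ≠ 0 → (∀ v ∈ V, l v = 0) → l w = 0) :
    ∑ v : V, F (x + w + v) = ∑ v : V, F (x + v) := by
  have : Finite (Module.Dual (ZMod 2) E) := RES_.dual_finite
  have : Fintype (Module.Dual (ZMod 2) E) := Fintype.ofFinite _
  have hk : ((Fintype.card (Module.Dual (ZMod 2) E) : ℝ) / (Nat.card E : ℝ)) ≠ 0 := by
    have h1 : (Fintype.card (Module.Dual (ZMod 2) E) : ℝ) ≠ 0 := by
      exact_mod_cast Fintype.card_ne_zero
    have h2 : (Nat.card E : ℝ) ≠ 0 := by exact_mod_cast Nat.card_pos.ne'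
    exact div_ne_zero h1 h2
  have key : ∀ y : E, (∑ v : V, F (y + v)) *
      ((Fintype.card (Module.Dual (ZMod 2) E) : ℝ) / (Nat.card E : ℝ)) =
      ∑ l : Module.Dual (ZMod 2) E, fco F l * sg (l y) * ∑ v : V, sg (l (v : E)) := by
    intro y
    rw [Finset.sum_mul]
    rw [Finset.sum_congr rfl (fun (v : V) _ => (RES_.inv F (y + v)).symm), Finset.sum_comm]
    refine Finset.sum_congr rfl fun l _ => ?_
    rw [Finset.mul_sum]
    refine Finset.sum_congr rfl fun v _ => ?_
    rw [map_add, RES_.sg_add]
    ring
  refine mul_right_cancel₀ hk ?_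
  rw [key, key]
  refine Finset.sum_congr rfl fun l _ => ?_
  by_cases hl : fco F l = 0
  · rw [hl]
    ring
  · by_cases hV : ∀ v ∈ V, l v = 0
    · rw [map_add, hw l hl hV, add_zero]
    · push Not at hV
      obtain ⟨v, hv, hlv⟩ := hV
      have h0 : ∑ v : V, sg (l (v : E)) = 0 :=
        RES_.sum_sg (fun v : V => l (v : E)) (fun a b => by simp) ⟨v, hv⟩ hlv
      rw [h0]
      ring

end FOUR_

theorem p_FOUR : T_FOUR := by
  intro E _ _ _ f b x V R hf hI
  have : Fintype E := Fintype.ofFinite E
  have : Finite (Module.Dual (ZMod 2) E) := RES_.dual_finite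
  set S : Set (Module.Dual (ZMod 2) E) := {l | fco (ind f) l ≠ 0 ∧ ∀ v ∈ V, l v = 0} with hS
  have hlt : Module.finrank (ZMod 2) (Submodule.span (ZMod 2) S) < R := by
    refine FOUR_.rank_lt S R fun I hIc hIS hli => ?_
    obtain ⟨l, hl, v, hv, hlv⟩ := hI I hIc (fun l hl => (hIS l hl).1) hli
    exact hlv ((hIS l hl).2 v hv)
  refine ⟨(Submodule.span (ZMod 2) S).dualCoannihilator, ?_, ?_⟩
  · have h1 := Subspace.finrank_add_finrank_dualCoannihilator_eq (Submodule.span (ZMod 2) S)
    omega
  · intro w hw
    have hw' : ∀ l : Module.Dual (ZMod 2) E, fco (ind f) l ≠ 0 → (∀ v ∈ V, l v = 0) →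
        l w = 0 := fun l h1 h2 =>
      (Submodule.mem_dualCoannihilator _).1 hw l (Submodule.subset_span ⟨h1, h2⟩)
    have hs := FOUR_.sum_inv (ind f) V x w hw'
    have hx : ∀ v : V, f (x + v) = b := fun v => hf v v.2
    have hz : f (x + w + ((0 : V) : E)) = b := by
      cases b with
      | false =>
        have h0 : ∑ v : V, ind f (x + w + v) = 0 := by
          rw [hs]
          refine Finset.sum_eq_zero fun v _ => ?_
          simp [ind, hx v]
        have h1 := (Finset.sum_eq_zero_iff_of_nonneg (fun (v : V) _ => by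
          unfold ind
          split_ifs <;> norm_num)).1 h0 0 (Finset.mem_univ _)
        unfold ind at h1
        by_contra hc
        rw [Bool.not_eq_false] at hc
        rw [if_pos hc] at h1
        exact one_ne_zero h1
      | true =>
        have h0 : ∑ v : V, (1 - ind f (x + w + v)) = 0 := by
          rw [Finset.sum_sub_distrib, hs, ← Finset.sum_sub_distrib]
          refine Finset.sum_eq_zero fun v _ => ?_
          simp [ind, hx v]
        have h1 := (Finset.sum_eq_zero_iff_of_nonneg (fun (v : V) _ => by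
          unfold ind
          split_ifs <;> norm_num)).1 h0 0 (Finset.mem_univ _)
        unfold ind at h1
        by_contra hc
        rw [if_neg hc] at h1
        norm_num at h1
    simpa using hz

end Pool.Agent.LDQ
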