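import Pool.Agent.LDQ.Targets

set_option autoImplicit false

/-!
# MP_9f5962_lc: postselected randomised queries of degree `d`
-/

open scoped Classical

noncomputable section

namespace Pool.Agent.LDQ

open Pool.Agent.LRC

/-- The numerical estimate. -/
theorem FRAN_.arith (t d m : ℕ) (L : ℝ) (hL : 1 ≤ L) (hm : (m : ℝ) ≤ L + 1) :
    ((4 * (t * (2 * m + 1)) * (2 * m) ^ d : ℕ) : ℝ) ≤ 5 * t * (4 * L) ^ (d + 1) := by
  push_cast
  have hm0 : (0 : ℝ) ≤ (m : ℝ) := Nat.cast_nonneg m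
  have ht0 : (0 : ℝ) ≤ (t : ℝ) := Nat.cast_nonneg t
  have h1 : (2 * (m : ℝ)) ^ d ≤ (4 * L) ^ d :=
    pow_le_pow_left₀ (by linarith) (by linarith) d
  have h2 : (4 * ((t : ℝ) * (2 * (m : ℝ) + 1))) ≤ 5 * t * (4 * L) := by
    have h3 : 4 * (2 * (m : ℝ) + 1) ≤ 5 * (4 * L) := by linarith
    have h4 := mul_le_mul_of_nonneg_left h3 ht0
    linarith
  have h5 : (0 : ℝ) ≤ (2 * (m : ℝ)) ^ d := by positivity
  have h6 : (0 : ℝ) ≤ 5 * t * (4 * L) := by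
    have : (0 : ℝ) ≤ 4 * L := by linarith
    positivity
  calc (4 * ((t : ℝ) * (2 * (m : ℝ) + 1))) * (2 * (m : ℝ)) ^ d
      ≤ (5 * t * (4 * L)) * (4 * L) ^ d := mul_le_mul h2 h1 h5 h6
    _ = 5 * t * (4 * L) ^ (d + 1) := by ring

/-- FRAN. -/
theorem p_FRAN : T_AMPD → T_POLY → T_NCL → T_FRAN := by
  intro hA hP hN n f t d hd hR
  obtain ⟨hL0, h⟩ := hN n f
  rcases h with h0 | ⟨_, hL1, hm, _⟩
  · refine ⟨0, ?_, h0⟩
    have : (0 : ℝ) ≤ 5 * t * (4 * Lr f) ^ (d + 1) := by positivity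
    simpa using this
  · refine ⟨4 * (t * (2 * mr f + 1)) * (2 * mr f) ^ d, FRAN_.arith t d (mr f) (Lr f) hL1 hm, ?_⟩
    exact hP n f (t * (2 * mr f + 1)) d hd (hA d n f t hR (2 * mr f + 1))

end Pool.Agent.LDQ
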