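import Pool.Agent.LDQ.Targets

set_option autoImplicit false

/-!
# MP_9f5962_lc, project LDQ: FRED, the reduction to kill numbers for one degree
-/

open scoped Classical

noncomputable section

namespace Pool.Agent.LDQ

open Pool.Agent.LRC

theorem p_FRED : T_REDD → T_POLY → T_NCL → T_FRED := by
  rintro hR hP hN d ⟨C, k, h⟩
  have hA : (0 : ℝ) ≤ |C| := abs_nonneg C
  refine ⟨8 * |C| * 4 ^ (d + 1), k + (d + 1), ?_⟩
  have hC0 : (0 : ℝ) ≤ 8 * |C| * 4 ^ (d + 1) := by positivity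
  intro n f
  have h' : ∀ (n : ℕ) (f : (Fin n → ZMod 2) → Bool), ∃ t : ℕ, (t : ℝ) ≤ C * (Lr f) ^ k + C ∧
      ∃ P : Fin t → MvPolynomial (Fin n) (ZMod 2), (∀ i, (P i).totalDegree ≤ d + 1) ∧
        ∃ x, MvZ P x ∧ ∀ y, MvZ P y → f y = f x := by
    intro n f
    obtain ⟨t, ht, P, hdeg, hx⟩ := h n f
    exact ⟨t, ht, P, fun i => (hdeg i).trans (Nat.le_succ d), hx⟩
  obtain ⟨hL0, hN2⟩ := hN n f
  rcases hN2 with h0 | ⟨-, hL1, hmr, -⟩
  · refine ⟨0, ?_, h0⟩
    have : 0 ≤ (Lr f) ^ (k + (d + 1)) := pow_nonneg hL0 _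
    have := mul_nonneg hC0 this
    push_cast
    linarith
  · have hB := hR (d + 1) C k h' n f (2 ^ (2 * mr f + 1))
    refine ⟨_, ?_, hP n f _ (d + 1) (by omega) hB⟩
    set L : ℝ := Lr f with hL
    set T : ℕ := Nat.floor (C * L ^ k + C) with hT
    have hLk : 0 ≤ L ^ k := pow_nonneg hL0 k
    have hk1 : 1 ≤ L ^ k := one_le_pow₀ hL1
    have hTle : (T : ℝ) ≤ |C| * L ^ k + |C| := by
      rcases le_or_gt 0 (C * L ^ k + C) with h0 | h0
      · refine (Nat.floor_le h0).trans ?_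
        have := le_abs_self C
        nlinarith
      · have : T = 0 := by
          rw [hT]; exact Nat.floor_of_nonpos h0.le
        rw [this]
        have := mul_nonneg hA hLk
        push_cast
        linarith
    have hT2 : (T : ℝ) ≤ 2 * |C| * L ^ k := by nlinarith
    have hm : (2 * (mr f : ℝ)) ≤ 4 * L := by linarith
    have hm0 : (0 : ℝ) ≤ 2 * (mr f : ℝ) := by positivity
    have hmp : (2 * (mr f : ℝ)) ^ (d + 1) ≤ (4 * L) ^ (d + 1) := pow_le_pow_left₀ hm0 hm _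
    have hLd : 0 ≤ L ^ (k + (d + 1)) := pow_nonneg hL0 _
    push_cast
    calc 4 * (T : ℝ) * (2 * (mr f : ℝ)) ^ (d + 1)
        ≤ 4 * (2 * |C| * L ^ k) * (4 * L) ^ (d + 1) :=
          mul_le_mul (by linarith) hmp (by positivity) (by positivity)
      _ = 8 * |C| * 4 ^ (d + 1) * L ^ (k + (d + 1)) := by
          rw [mul_pow, pow_add]; ring
      _ ≤ 8 * |C| * 4 ^ (d + 1) * L ^ (k + (d + 1)) + 8 * |C| * 4 ^ (d + 1) := by linarith

end Pool.Agent.LDQ
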