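import Pool.Agent.LDQ.Targets

/-!
# MP_9f5962_lc, project LDQ: target FSIN
-/

set_option autoImplicit false

open scoped Classical

noncomputable section

namespace Pool.Agent.LDQ

open Pool.Agent.LRC

theorem p_FSIN (hKILD : T_KILD) (hMVPD : T_MVPD) (hTAU : T_TAU)
    (hRNK : Pool.Agent.LRC.T_RNK) : T_FSIN := by
  intro n f t d k R b P hdeg hne hcnt hbin
  have hz : zer (fun (i : Fin t) (x : Fin n → ZMod 2) => MvPolynomial.eval x (P i)) =
      {x | MvZ P x} := rfl
  obtain ⟨x₀, W, h1, h2⟩ := hKILD (Fin n → ZMod 2) f b (xrk f) t d k R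
    (fun (i : Fin t) (x : Fin n → ZMod 2) => MvPolynomial.eval x (P i))
    (fun i => hMVPD n d (P i) (hdeg i)) (by rw [hz]; exact hne) (by rw [hz]; exact hcnt)
    (hRNK n f) (by rw [hTAU k d]; exact hbin)
  refine ⟨x₀, W, ?_, h2⟩
  rw [Module.finrank_fin_fun] at h1
  exact h1

end Pool.Agent.LDQ
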