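import Pool.Agent.LDQ.Targets

set_option autoImplicit false

/-!
# LDQ: the subspaces cut out by independent sets of frequencies
-/

open scoped Classical

noncomputable section

namespace Pool.Agent.LDQ

open Pool.Agent.LRC

namespace HYP_

variable {E : Type} [AddCommGroup E] [Module (ZMod 2) E]

lemma dual_finite [Finite E] : Finite (Module.Dual (ZMod 2) E) :=
  Finite.of_injective (fun l : Module.Dual (ZMod 2) E => (l : E → ZMod 2))
    (fun _ _ h => LinearMap.ext (congrFun h))

/-- The common kernel. -/
def kerI (I : Finset (Module.Dual (ZMod 2) E)) : Submodule (ZMod 2) E :=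
  (Submodule.span (ZMod 2) (I : Set (Module.Dual (ZMod 2) E))).dualCoannihilator

lemma mem_kerI {I : Finset (Module.Dual (ZMod 2) E)} {v : E} (h : ∀ l ∈ I, l v = 0) :
    v ∈ kerI I := by
  unfold kerI
  rw [Submodule.mem_dualCoannihilator]
  intro φ hφ
  induction hφ using Submodule.span_induction with
  | mem x hx => exact h x hx
  | zero => simp
  | add x y _ _ hx hy => simp [hx, hy]
  | smul c x _ hx => simp [hx]

lemma card_kerI [Finite E] {I : Finset (Module.Dual (ZMod 2) E)}
    (hI : LinearIndependent (ZMod 2) (fun l : I => (l : Module.Dual (ZMod 2) E))) :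
    2 ^ I.card * Nat.card (kerI I) = Nat.card E := by
  have hfin : FiniteDimensional (ZMod 2) E := inferInstance
  have h1 := Subspace.finrank_add_finrank_dualCoannihilator_eq
    (Submodule.span (ZMod 2) (I : Set (Module.Dual (ZMod 2) E)))
  have h2 : Module.finrank (ZMod 2)
      (Submodule.span (ZMod 2) (I : Set (Module.Dual (ZMod 2) E))) = I.card := by
    have h3 := finrank_span_eq_card hI
    have hr : Set.range (fun l : I => (l : Module.Dual (ZMod 2) E)) =
        (I : Set (Module.Dual (ZMod 2) E)) := by
      ext x; simp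
    rw [hr] at h3
    simpa using h3
  rw [h2] at h1
  rw [Module.natCard_eq_pow_finrank (K := ZMod 2) (V := kerI I),
    Module.natCard_eq_pow_finrank (K := ZMod 2) (V := E)]
  rw [Nat.card_zmod, ← pow_add]
  congr 1

end HYP_

theorem p_HYP : T_HYP := by
  intro E _ _ _ F s R hs
  have := HYP_.dual_finite (E := E)
  have hfinS : {l : Module.Dual (ZMod 2) E | fco F l ≠ 0}.Finite := Set.toFinite _
  set S : Finset (Module.Dual (ZMod 2) E) := hfinS.toFinset with hS
  have hcard : S.card ≤ s := by
    rw [hS, ← Set.ncard_eq_toFinset_card]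
    exact hs
  refine ⟨((S.powersetCard R).filter (fun I : Finset (Module.Dual (ZMod 2) E) =>
    LinearIndependent (ZMod 2) (fun l : I => (l : Module.Dual (ZMod 2) E)))).image HYP_.kerI, ?_, ?_, ?_⟩
  · refine Finset.card_image_le.trans ((Finset.card_filter_le _ _).trans ?_)
    rw [Finset.card_powersetCard]
    exact Nat.choose_le_choose R hcard
  · intro H hH
    rw [Finset.mem_image] at hH
    obtain ⟨I, hI, rfl⟩ := hH
    rw [Finset.mem_filter, Finset.mem_powersetCard] at hI
    have := HYP_.card_kerI hI.2
    rw [hI.1.2] at this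
    exact this.le
  · intro I hIR hIS hind
    refine ⟨HYP_.kerI I, ?_, fun v hv => HYP_.mem_kerI hv⟩
    rw [Finset.mem_image]
    refine ⟨I, ?_, rfl⟩
    rw [Finset.mem_filter, Finset.mem_powersetCard]
    refine ⟨⟨?_, hIR⟩, hind⟩
    intro l hl
    rw [hS, Set.Finite.mem_toFinset]
    exact hIS l hl

end Pool.Agent.LDQ
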