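import Pool.Agent.LDQ.Targets

set_option autoImplicit false

/-!
# MP_9f5962_lc: job KILD
-/

open scoped Classical

noncomputable section

namespace Pool.Agent.LDQ

open Pool.Agent.LRC

namespace KILD_

variable {E : Type} [AddCommGroup E] [Module (ZMod 2) E]

theorem sys_zer (d t : ℕ) (P : Fin t → E → ZMod 2) (hP : ∀ i, Dg d (P i)) :
    Sys (List.replicate t d) (zer P) := by
  induction t with
  | zero =>
    change zer P = Set.univ
    ext x
    simp [zer]
  | succ t ih =>
    rw [List.replicate_succ]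
    refine ⟨P 0, zer (fun i : Fin t => P i.succ), hP 0, ih _ (fun i => hP i.succ), ?_⟩
    ext x
    constructor
    · intro h
      exact ⟨fun i => h i.succ, h 0⟩
    · rintro ⟨h1, h2⟩ i
      refine Fin.cases ?_ ?_ i
      · exact h2
      · intro j
        exact h1 j

end KILD_

theorem p_KILD : T_CUBE → T_FOUR → T_HYP → T_LAM → T_KILD := by
  intro h_CUBE h_FOUR h_HYP h_LAM E _ _ _ f b s t d k R P hP hne hB hs hk
  obtain ⟨Hs, hcard, hH, hI⟩ := h_HYP E (ind f) s R hs
  have hlam : lam k (List.replicate t d) = t * tau k d := by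
    rw [h_LAM]
    simp
  obtain ⟨x, V, hV, hVH⟩ := h_CUBE E k R (List.replicate t d) (zer P) {x | f x ≠ b} Hs
    (KILD_.sys_zer d t P hP) hne hB hH (by
      rw [hlam]
      exact lt_of_le_of_lt (Nat.mul_le_mul_right _ hcard) hk)
  obtain ⟨W, hW, hWb⟩ := h_FOUR E f b x V R (fun w hw => by
    have := (hV w hw).2
    by_contra hcon
    exact this hcon) (by
    intro I hIc hI0 hIl
    obtain ⟨H, hHs, hHv⟩ := hI I hIc hI0 hIl
    by_contra hcon
    push Not at hcon
    exact hVH H hHs (fun v hv => hHv v (fun l hl => hcon l hl v hv)))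
  exact ⟨x, W, hW, hWb⟩

end Pool.Agent.LDQ
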