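import Pool.Agent.LDQ.Targets

set_option autoImplicit false

/-!
# MP_9f5962_lc: LAM, `lam` in terms of `tau`
-/

open scoped Classical

noncomputable section

namespace Pool.Agent.LDQ

open Pool.Agent.LRC

theorem LAM_.dbl_sum (k : ℕ) (l : List ℕ) :
    ((dbl l).map (tau k)).sum = (l.map (fun e => tau k e + tau k (e - 1))).sum := by
  induction l with
  | nil => simp [dbl]
  | cons e l ih =>
    simp only [dbl, List.map_cons, List.sum_cons, ih]
    ring

/-- `lam` in terms of `tau` -/
theorem p_LAM : T_LAM := by
  intro k
  induction k with
  | zero =>
    intro l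
    induction l with
    | nil => simp [lam]
    | cons e l ih => simp [lam, tau]
  | succ k ih =>
    intro l
    have h1 : lam (k + 1) l = l.sum + lam k (dbl l) := rfl
    rw [h1, ih, LAM_.dbl_sum]
    clear h1
    induction l with
    | nil => simp
    | cons e l ihl =>
      simp only [List.map_cons, List.sum_cons, tau]
      simp only [tau] at ihl
      omega

end Pool.Agent.LDQ
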