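import Pool.Agent.LDQ.Targets

set_option autoImplicit false

/-!
# LIFT: monochromatic cosets of random restrictions
-/

open scoped Classical

noncomputable section

namespace Pool.Agent.LDQ

open Pool.Agent.LRC

namespace LIFT_

/-- Extension of a map from independent vectors. -/
theorem exists_ext {E : Type} [AddCommGroup E] [Module (ZMod 2) E] {N k : ℕ}
    (u : Fin k → Fin N → ZMod 2) (hu : LinearIndependent (ZMod 2) u) (v : Fin k → E) :
    ∃ A : (Fin N → ZMod 2) →ₗ[ZMod 2] E, ∀ i, A (u i) = v i := by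
  obtain ⟨A, hA⟩ := LinearMap.exists_extend ((Module.Basis.span hu).constr (ZMod 2) v)
  refine ⟨A, fun i => ?_⟩
  have h1 : A ((Module.Basis.span hu i : Submodule.span (ZMod 2) (Set.range u)) :
      Fin N → ZMod 2) = v i := by
    have h2 := LinearMap.congr_fun hA (Module.Basis.span hu i)
    rw [Module.Basis.constr_basis] at h2
    exact h2
  rwa [Module.Basis.span_apply] at h1

/-- Preimages under a surjective homomorphism. -/
theorem card_pre {X Y : Type} [AddCommGroup X] [AddCommGroup Y] [Fintype X] [Fintype Y]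
    (g : X →+ Y) (hg : Function.Surjective g) (S : Finset Y) :
    (Finset.univ.filter (fun x => g x ∈ S)).card * Fintype.card Y = S.card * Fintype.card X := by
  have hc : ∀ y : Y, (Finset.univ.filter (fun x => g x = y)).card =
      (Finset.univ.filter (fun x => g x = 0)).card := by
    intro y
    obtain ⟨x₀, rfl⟩ := hg y
    refine Finset.card_bij (fun x _ => x - x₀) ?_ ?_ ?_
    · intro x hx
      simp only [Finset.mem_filter, Finset.mem_univ, true_and] at hx ⊢
      rw [map_sub, hx, sub_self]
    · intro x _ x' _ h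
      exact sub_left_injective h
    · intro x hx
      simp only [Finset.mem_filter, Finset.mem_univ, true_and] at hx
      refine ⟨x + x₀, ?_, by simp⟩
      simp [hx]
  have h1 : (Finset.univ.filter (fun x => g x ∈ S)).card =
      ∑ y ∈ S, (Finset.univ.filter (fun x => g x = y)).card := by
    rw [Finset.card_eq_sum_card_fiberwise (f := g) (t := S)]
    · refine Finset.sum_congr rfl fun y hy => ?_
      congr 1
      ext x
      simp only [Finset.mem_filter, Finset.mem_univ, true_and]
      exact ⟨fun h => h.2, fun h => ⟨h ▸ hy, h⟩⟩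
    · intro x hx
      simpa using hx
  have h2 : Fintype.card X = ∑ y : Y, (Finset.univ.filter (fun x => g x = y)).card := by
    rw [← Finset.card_univ, Finset.card_eq_sum_card_fiberwise (f := g) (t := Finset.univ)]
    intro x _
    simp
  rw [h1, h2, Finset.sum_congr rfl (fun y _ => hc y), Finset.sum_congr rfl (fun y _ => hc y),
    Finset.sum_const, Finset.sum_const, Finset.card_univ, smul_eq_mul, smul_eq_mul]
  ring

end LIFT_

open LIFT_ in
theorem p_LIFT : T_LIFT := by
  intro E _ _ _ f N k H
  have : Fintype E := Fintype.ofFinite E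
  have : Finite ((Fin N → ZMod 2) →ₗ[ZMod 2] E) := DFunLike.finite _
  have : Fintype ((Fin N → ZMod 2) →ₗ[ZMod 2] E) := Fintype.ofFinite _
  -- the parameters
  obtain ⟨T, hT⟩ : ∃ T : Finset (E × (Fin k → E)), T = Finset.univ.filter (fun q =>
      ∀ w ∈ Submodule.span (ZMod 2) (Set.range q.2), f (q.1 + w) = f q.1) := ⟨_, rfl⟩
  have hcT : Nat.card {q : E × (Fin k → E) //
      ∀ w ∈ Submodule.span (ZMod 2) (Set.range q.2), f (q.1 + w) = f q.1} = T.card := by
    rw [Nat.card_eq_fintype_card, Fintype.card_subtype, hT]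
  rw [hcT, Nat.card_eq_fintype_card]
  obtain ⟨P, hP⟩ : ∃ P : Finset ((Fin N → ZMod 2) × (Fin k → Fin N → ZMod 2)),
      P = Finset.univ.filter (fun p => LinearIndependent (ZMod 2) p.2) := ⟨_, rfl⟩
  have hcP : P.card ≤ 2 ^ (N * (k + 1)) := by
    rw [hP]
    refine (Finset.card_le_univ _).trans ?_
    simp only [Fintype.card_prod, Fintype.card_fun, Fintype.card_fin, ZMod.card]
    rw [← pow_mul, ← pow_add]
    refine le_of_eq ?_
    congr 1
    ring
  -- the homomorphisms
  let Φ : (Fin N → ZMod 2) × (Fin k → Fin N → ZMod 2) →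
      (E × ((Fin N → ZMod 2) →ₗ[ZMod 2] E)) →+ (E × (Fin k → E)) := fun p =>
    { toFun := fun z => (z.1 + z.2 p.1, fun i => z.2 (p.2 i))
      map_zero' := by ext <;> simp
      map_add' := by
        intro z z'
        ext i
        · simp only [Prod.fst_add, Prod.snd_add, LinearMap.add_apply]
          abel
        · simp }
  have hΦ : ∀ p z, Φ p z = (z.1 + z.2 p.1, fun i => z.2 (p.2 i)) := fun _ _ => rfl
  have hsur : ∀ p ∈ P, Function.Surjective (Φ p) := by
    intro p hp y
    rw [hP, Finset.mem_filter] at hp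
    obtain ⟨A, hA⟩ := exists_ext p.2 hp.2 y.2
    refine ⟨(y.1 - A p.1, A), ?_⟩
    rw [hΦ]
    ext i
    · simp
    · simp [hA]
  have hcov : ∀ z : E × ((Fin N → ZMod 2) →ₗ[ZMod 2] E), ∃ p ∈ P, Φ p z ∈ T := by
    intro z
    obtain ⟨x, u, hu, hx⟩ := H z.1 z.2
    refine ⟨(x, u), ?_, ?_⟩
    · rw [hP, Finset.mem_filter]
      exact ⟨Finset.mem_univ _, hu⟩
    · rw [hT, Finset.mem_filter]
      refine ⟨Finset.mem_univ _, ?_⟩
      rw [hΦ]
      intro w hw
      have hr : Set.range (fun i => z.2 (u i)) = z.2 '' Set.range u := by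
        ext v
        simp
      simp only [hr] at hw
      rw [Submodule.span_image] at hw
      obtain ⟨v, hv, rfl⟩ := Submodule.mem_map.1 hw
      have h3 := hx v hv
      rw [map_add, ← add_assoc] at h3
      exact h3
  have h1 : Fintype.card (E × ((Fin N → ZMod 2) →ₗ[ZMod 2] E)) ≤
      ∑ p ∈ P, (Finset.univ.filter (fun z => Φ p z ∈ T)).card := by
    rw [← Finset.card_univ]
    refine (Finset.card_le_card ?_).trans Finset.card_biUnion_le
    intro z _
    obtain ⟨p, hp, hz⟩ := hcov z
    rw [Finset.mem_biUnion]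
    exact ⟨p, hp, by simpa using hz⟩
  have h2 : ∀ p ∈ P, (Finset.univ.filter (fun z => Φ p z ∈ T)).card *
      Fintype.card (E × (Fin k → E)) =
      T.card * Fintype.card (E × ((Fin N → ZMod 2) →ₗ[ZMod 2] E)) := by
    intro p hp
    have h4 := card_pre (Φ p) (hsur p hp) T
    convert h4
  obtain ⟨K, hK⟩ : ∃ K, Fintype.card (E × ((Fin N → ZMod 2) →ₗ[ZMod 2] E)) = K := ⟨_, rfl⟩
  have hKpos : 0 < K := by
    rw [← hK]
    exact Fintype.card_pos
  rw [hK] at h1 h2
  have hE : Fintype.card (E × (Fin k → E)) = Fintype.card E ^ (k + 1) := by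
    simp only [Fintype.card_prod, Fintype.card_fun, Fintype.card_fin]
    ring
  rw [hE] at h2
  have h3 : K * Fintype.card E ^ (k + 1) ≤ K * (P.card * T.card) := by
    calc K * Fintype.card E ^ (k + 1)
        ≤ (∑ p ∈ P, (Finset.univ.filter (fun z => Φ p z ∈ T)).card) *
          Fintype.card E ^ (k + 1) := Nat.mul_le_mul_right _ h1
      _ = ∑ p ∈ P, (T.card * K) := by
          rw [Finset.sum_mul]
          exact Finset.sum_congr rfl h2
      _ = K * (P.card * T.card) := by
          rw [Finset.sum_const, smul_eq_mul]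
          ring
  exact (Nat.le_of_mul_le_mul_left h3 hKpos).trans (Nat.mul_le_mul_right _ hcP)

end Pool.Agent.LDQ
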