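import Pool.Agent.LDQ.Targets
import Pool.Agent.LRC.MVP

/-!
# LDQ: target MVPD (polynomials of degree at most `d` have zero derivatives of order `d + 1`)
-/

set_option autoImplicit false

open scoped Classical

noncomputable section

namespace Pool.Agent.LDQ

open Pool.Agent.LRC Pool.Agent.LRC.MVP_

namespace MVPD_

theorem Dg_of_DD {n : ℕ} (d : ℕ) : ∀ P : (Fin n → ZMod 2) → ZMod 2, DD d P → Dg d P := by
  induction d with
  | zero => intro P hP; exact hP
  | succ d ih => intro P hP a; exact ih _ (hP a)

theorem DD_zero {n : ℕ} (d : ℕ) : DD d (fun _ : Fin n → ZMod 2 => (0 : ZMod 2)) := by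
  induction d with
  | zero => exact DD_const 0
  | succ d ih => exact DD_succ d _ ih

end MVPD_

open MVPD_

theorem p_MVPD : T_MVPD := by
  intro n d p hp
  apply Dg_of_DD
  have e : (fun x : Fin n → ZMod 2 => MvPolynomial.eval x p) =
      fun x => ∑ m ∈ p.support, p.coeff m *
        MvPolynomial.eval x (MvPolynomial.monomial m (1 : ZMod 2)) := by
    funext x
    conv_lhs => rw [MvPolynomial.as_sum p]
    rw [map_sum]
    refine Finset.sum_congr rfl fun m _ => ?_
    rw [MvPolynomial.eval_monomial, MvPolynomial.eval_monomial, one_mul]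
  rw [e]
  have h : ∀ s : Finset (Fin n →₀ ℕ), (∀ m ∈ s, (m.sum fun _ e => e) ≤ d) →
      DD d (fun x : Fin n → ZMod 2 => ∑ m ∈ s, p.coeff m *
        MvPolynomial.eval x (MvPolynomial.monomial m (1 : ZMod 2))) := by
    intro s
    induction s using Finset.induction_on with
    | empty =>
      intro _
      have e0 : (fun x : Fin n → ZMod 2 => ∑ m ∈ (∅ : Finset (Fin n →₀ ℕ)), p.coeff m *
          MvPolynomial.eval x (MvPolynomial.monomial m (1 : ZMod 2))) = fun _ => 0 := by
        funext x
        simp
      rw [e0]
      exact DD_zero d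
    | insert a s ha ih =>
      intro hs
      have e1 : (fun x : Fin n → ZMod 2 => ∑ m ∈ insert a s, p.coeff m *
          MvPolynomial.eval x (MvPolynomial.monomial m (1 : ZMod 2))) =
          fun x => p.coeff a * MvPolynomial.eval x (MvPolynomial.monomial a (1 : ZMod 2)) +
            ∑ m ∈ s, p.coeff m *
              MvPolynomial.eval x (MvPolynomial.monomial m (1 : ZMod 2)) := by
        funext x
        rw [Finset.sum_insert ha]
      rw [e1]
      exact DD_add d _ _ (DD_mul d _ _ (DD_mono d a (hs a (Finset.mem_insert_self a s))))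
        (ih fun m hm => hs m (Finset.mem_insert_of_mem hm))
  exact h p.support fun m hm => (MvPolynomial.le_totalDegree hm).trans hp

end Pool.Agent.LDQ
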