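import Pool.Agent.LDQ.Targets

set_option autoImplicit false

/-!
# LDQ: constant functions and logarithms
-/

open scoped Classical

noncomputable section

namespace Pool.Agent.LDQ

open Pool.Agent.LRC

/-- The integer logarithm is at most the real logarithm. -/
theorem NCL_.log_le {r : ℕ} (hr : 1 ≤ r) : (Nat.log 2 r : ℝ) ≤ Real.logb 2 (r : ℝ) := by
  have h1 : 2 ^ Nat.log 2 r ≤ r := Nat.pow_log_le_self 2 (by omega)
  have h2 : ((2 : ℝ) ^ Nat.log 2 r) ≤ (r : ℝ) := by exact_mod_cast h1
  rw [Real.le_logb_iff_rpow_le (by norm_num) (by exact_mod_cast hr), Real.rpow_natCast]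
  exact h2

theorem p_NCL : Pool.Agent.LRC.T_RNK → Pool.Agent.LRC.T_NCO → T_NCL := by
  intro hRNK hNCO n f
  have hL : 0 ≤ Lr f := by
    unfold Lr
    rcases Nat.eq_zero_or_pos (xrk f) with h0 | h0
    · rw [h0]
      simp
    · exact Real.logb_nonneg (by norm_num) (by exact_mod_cast h0)
  refine ⟨hL, ?_⟩
  by_cases hcon : ∀ x y, f x = f y
  · left
    exact ⟨fun _ => true, fun _ _ => true, fun _ _ => true, fun _ => f 0,
      fun x y _ _ _ => hcon 0 (x + y)⟩
  · right
    have hn : ∃ x y, f x ≠ f y := by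
      by_contra h
      apply hcon
      intro x y
      by_contra h'
      exact h ⟨x, y, h'⟩
    have h2 : 2 ≤ xrk f := ((hNCO _ f).2 hn).trans (hRNK n f)
    have h2r : (2 : ℝ) ≤ (xrk f : ℝ) := by exact_mod_cast h2
    refine ⟨h2, ?_, ?_, ?_⟩
    · unfold Lr
      rw [Real.le_logb_iff_rpow_le (by norm_num) (by linarith), Real.rpow_one]
      exact h2r
    · unfold mr Lr
      have h3 := NCL_.log_le (r := xrk f) (by omega)
      push_cast
      linarith
    · unfold Lr
      rw [Real.rpow_logb (by norm_num) (by norm_num) (by linarith)]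

end Pool.Agent.LDQ
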