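import Pool.Agent.LDQ.Targets2

set_option autoImplicit false

/-!
# Job ORC: a random linear combination detects a nonzero vector
-/

namespace Pool.Agent.LDQ

namespace ORC_

/-- the linear combination -/
def L {m : ℕ} (y c : Fin m → ZMod 2) : ZMod 2 := ∑ a, c a * y a

theorem L_add {m : ℕ} (y c d : Fin m → ZMod 2) : L y (c + d) = L y c + L y d := by
  simp only [L, Pi.add_apply, add_mul, Finset.sum_add_distrib]

theorem L_single {m : ℕ} (y : Fin m → ZMod 2) (a : Fin m) (s : ZMod 2) :
    L y (Pi.single a s) = s * y a := by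
  unfold L
  rw [Finset.sum_eq_single a]
  · rw [Pi.single_eq_same]
  · intro b _ hb
    rw [Pi.single_eq_of_ne hb, zero_mul]
  · intro h
    exact absurd (Finset.mem_univ a) h

theorem two (s : ZMod 2) : s + s = 0 := by
  revert s; decide

/-- every vector is a kernel vector plus a multiple of a unit vector -/
def eq {m : ℕ} (y : Fin m → ZMod 2) (a : Fin m) (ha : y a = 1) :
    (Fin m → ZMod 2) ≃ ZMod 2 × {c : Fin m → ZMod 2 // ∑ b, c b * y b = 0} where
  toFun c := (L y c, ⟨c + Pi.single a (L y c), by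
    change L y _ = 0
    rw [L_add, L_single, ha, mul_one, two]⟩)
  invFun p := p.2.1 + Pi.single a p.1
  left_inv c := by
    change c + Pi.single a (L y c) + Pi.single a (L y c) = c
    rw [add_assoc, ← Pi.single_add, two, Pi.single_zero, add_zero]
  right_inv := by
    rintro ⟨s, c, hc⟩
    change L y c = 0 at hc
    have h1 : L y (c + Pi.single a s) = s := by
      rw [L_add, L_single, ha, mul_one, hc, zero_add]
    refine Prod.ext h1 (Subtype.ext ?_)
    change c + Pi.single a s + Pi.single a (L y (c + Pi.single a s)) = c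
    rw [h1, add_assoc, ← Pi.single_add, two, Pi.single_zero, add_zero]

theorem row {m : ℕ} (y : Fin m → ZMod 2) (hy : ∃ a, y a = 1) :
    2 * Nat.card {c : Fin m → ZMod 2 // ∑ b, c b * y b = 0} = Nat.card (Fin m → ZMod 2) := by
  obtain ⟨a, ha⟩ := hy
  rw [Nat.card_congr (eq y a ha), Nat.card_prod, Nat.card_zmod]

end ORC_

theorem p_ORC : T_ORC := by
  intro m e y hy
  have h1 : Nat.card {c : Fin e → Fin m → ZMod 2 // ∀ j, ∑ a, c j a * y a = 0} =
      (Nat.card {c : Fin m → ZMod 2 // ∑ b, c b * y b = 0}) ^ e := by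
    rw [Nat.card_congr (Equiv.subtypePiEquivPi (p := fun (_ : Fin e) (c : Fin m → ZMod 2) =>
      ∑ a, c a * y a = 0)), Nat.card_fun, Nat.card_fin]
  have h2 : Nat.card (Fin e → Fin m → ZMod 2) = (Nat.card (Fin m → ZMod 2)) ^ e := by
    rw [Nat.card_fun, Nat.card_fin]
  rw [h1, h2, ← mul_pow, ORC_.row y hy]

end Pool.Agent.LDQ
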