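import Pool.Agent.LDQ.Targets

set_option autoImplicit false

/-!
# Project LDQ, target PARA: the choice of the parameters below the square root
-/

noncomputable section

namespace Pool.Agent.LDQ

theorem p_PARA : T_PARA := by
  intro δ h0 h1
  have hp : 0 < 1 + 4 * δ := by linarith
  have hm : 0 < 1 - 4 * δ := by linarith
  obtain ⟨η, hη⟩ : ∃ η : ℝ, η = (1 - 4 * δ) / 2 := ⟨_, rfl⟩
  obtain ⟨x, hx⟩ : ∃ x : ℝ, x = (1 + 4 * δ) / 2 := ⟨_, rfl⟩
  obtain ⟨G, hG⟩ : ∃ G : ℝ, G = 1 / 4 - δ / x := ⟨_, rfl⟩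
  have hη0 : 0 < η := by rw [hη]; linarith
  have hη1 : η ≤ 1 / 2 := by rw [hη]; linarith
  have hxη : x = 1 - η := by rw [hx, hη]; ring
  have hx0 : 0 < x := by rw [hx]; linarith
  have hx1 : x ≤ 1 := by rw [hxη]; linarith
  have hdx : 0 ≤ δ / x := div_nonneg h0 hx0.le
  have hG0 : 0 < G := by
    rw [hG, sub_pos, div_lt_iff₀ hx0, hx]
    linarith
  have hG1 : G ≤ 1 / 4 := by rw [hG]; linarith
  have hηG : 0 < η * G := mul_pos hη0 hG0
  have hηG1 : η * G ≤ 1 / 8 := by nlinarith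
  have l2 : 0 < Real.log 2 := Real.log_pos one_lt_two
  have l2' : Real.log 2 < 1 := by
    have := Real.log_two_lt_d9
    linarith
  refine ⟨1 / 2 + η * G / 2, x, η * G / 4, by linarith, by linarith, by linarith, hx0, hx1, ?_⟩
  refine max_le (by linarith) ?_
  have e1 : Real.log (1 / x) ≤ η / x := by
    have := Real.log_le_sub_one_of_pos (show 0 < 1 / x by positivity)
    refine this.trans (le_of_eq ?_)
    rw [hxη] at hx0 ⊢
    field_simp
    ring
  have e2 : Real.log (1 + x) ≤ Real.log 2 - η / 2 := by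
    have h3 : 1 + x = 2 * (1 - η / 2) := by rw [hxη]; ring
    have h4 : 0 < 1 - η / 2 := by linarith
    rw [h3, Real.log_mul (by norm_num) h4.ne']
    have := Real.log_le_sub_one_of_pos h4
    linarith
  have e3 : δ * Real.logb 2 (1 / x) + (1 / 2 + η * G / 2) * Real.logb 2 (1 + x) =
      (δ * Real.log (1 / x) + (1 / 2 + η * G / 2) * Real.log (1 + x)) / Real.log 2 := by
    unfold Real.logb
    ring
  rw [e3, div_le_iff₀ l2]
  have e4 : δ * Real.log (1 / x) ≤ η * (1 / 4 - G) := by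
    calc δ * Real.log (1 / x) ≤ δ * (η / x) := mul_le_mul_of_nonneg_left e1 h0
      _ = η * (δ / x) := by ring
      _ = η * (1 / 4 - G) := by rw [hG]; ring
  have e5 : (1 / 2 + η * G / 2) * Real.log (1 + x) ≤
      (1 / 2 + η * G / 2) * (Real.log 2 - η / 2) :=
    mul_le_mul_of_nonneg_left e2 (by linarith)
  have e6 : 0 ≤ η * G * (1 - Real.log 2) := mul_nonneg hηG.le (by linarith)
  have e7 : 0 ≤ η * (η * G) := mul_nonneg hη0.le hηG.le
  nlinarith

end Pool.Agent.LDQ
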