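import Pool.Agent.LDQ.Targets

set_option autoImplicit false

namespace Pool.Agent.LDQ

theorem p_PARB : T_PARB := by
  intro ε hε
  have hl2 : (1 : ℝ) / 2 ≤ Real.log 2 := by
    have := Real.log_two_gt_d9
    norm_num at this ⊢
    linarith
  have hl2' : 0 < Real.log 2 := by linarith
  obtain ⟨x, hx0, hx1, hx2⟩ : ∃ x : ℝ, 0 < x ∧ x ≤ 1 / 2 ∧ x ≤ ε / 8 :=
    ⟨min (1 / 2) (ε / 8), lt_min (by norm_num) (by positivity), min_le_left _ _,
      min_le_right _ _⟩
  have hL : 1 ≤ Real.logb 2 (1 / x) := by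
    rw [Real.le_logb_iff_rpow_le (by norm_num) (by positivity), Real.rpow_one,
      le_div_iff₀ hx0]
    linarith
  have hL0 : 0 < Real.logb 2 (1 / x) := by linarith
  have hlog : Real.logb 2 (1 + x) ≤ ε / 4 := by
    rw [Real.logb, div_le_iff₀ hl2']
    have h1 : Real.log (1 + x) ≤ x := by
      have := Real.log_le_sub_one_of_pos (show 0 < 1 + x by linarith)
      linarith
    have h2 : ε / 4 * (1 / 2) ≤ ε / 4 * Real.log 2 :=
      mul_le_mul_of_nonneg_left hl2 (by positivity)
    linarith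
  refine ⟨min 1 (ε / (4 * Real.logb 2 (1 / x))), x, lt_min one_pos (by positivity),
    min_le_left _ _, hx0, by linarith, ?_⟩
  apply max_le
  · rw [sub_self]
    positivity
  · have h3 : min 1 (ε / (4 * Real.logb 2 (1 / x))) * Real.logb 2 (1 / x) ≤ ε / 4 := by
      have h4 : min 1 (ε / (4 * Real.logb 2 (1 / x))) ≤ ε / (4 * Real.logb 2 (1 / x)) :=
        min_le_right _ _
      have h5 := mul_le_mul_of_nonneg_right h4 hL0.le
      have h6 : ε / (4 * Real.logb 2 (1 / x)) * Real.logb 2 (1 / x) = ε / 4 := by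
        field_simp
      linarith
    linarith

end Pool.Agent.LDQ
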