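import Pool.Agent.LDQ.Targets

/-!
# MP_9f5962_lc: the protocol for fixed degree (POLY)
-/

set_option autoImplicit false

open scoped Classical

noncomputable section

namespace Pool.Agent.LDQ

open Pool.Agent.LRC

theorem p_POLY : T_RAW → T_TAUP → T_POLY := by
  intro hR hT n f t d hd hf
  have hm1 : 1 ≤ mr f := by unfold mr; omega
  have hr : xrk f < 2 ^ mr f := Nat.lt_pow_succ_log_self (by norm_num) _
  generalize hm : mr f = m at *
  obtain ⟨e, rfl⟩ : ∃ e, d = e + 1 := ⟨d - 1, by omega⟩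
  have hpow : (2 * m) ^ (e + 1) = (2 * m) ^ e * (2 * m) := pow_succ _ _
  have htau : tau (2 * m) (e + 1) ≤ 2 * (2 * m) ^ (e + 1) := hT _ _ (by omega) hd
  set R : ℕ := 4 * t * (2 * m) ^ e + 1 with hRdef
  have hexp : t * tau (2 * m) (e + 1) + 1 ≤ m * R := by
    have e1 : t * tau (2 * m) (e + 1) ≤ t * (2 * (2 * m) ^ (e + 1)) :=
      Nat.mul_le_mul_left _ htau
    have e2 : m * R = t * (2 * (2 * m) ^ (e + 1)) + m := by
      rw [hRdef, hpow]
      ring
    omega
  have hch : (xrk f).choose R < 2 ^ (m * R) := by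
    refine lt_of_le_of_lt (Nat.choose_le_pow _ _) ?_
    rw [pow_mul]
    exact Nat.pow_lt_pow_left hr (by omega)
  have hmain : (xrk f).choose R * 2 ^ (t * tau (2 * m) (e + 1) + 1) < 2 ^ (2 * m * R) := by
    have e1 : (2 : ℕ) ^ (t * tau (2 * m) (e + 1) + 1) ≤ 2 ^ (m * R) :=
      Nat.pow_le_pow_right (by norm_num) hexp
    have e2 : (2 : ℕ) ^ (2 * m * R) = 2 ^ (m * R) * 2 ^ (m * R) := by
      rw [← pow_add]
      congr 1
      ring
    rw [e2]
    exact Nat.mul_lt_mul_of_lt_of_le hch e1 (by positivity)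
  have hfin := hR n f t (e + 1) (2 * m) R hf hmain
  have e3 : 2 * (R - 1) * mr f = 4 * t * (2 * m) ^ (e + 1) := by
    rw [hm, hRdef, hpow, Nat.add_sub_cancel]
    ring
  rwa [e3] at hfin

end Pool.Agent.LDQ
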