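import Pool.Agent.LDQ.Targets

/-!
# MP_9f5962_lc: the protocol, all parameters (RAW)
-/

set_option autoImplicit false

open scoped Classical

noncomputable section

namespace Pool.Agent.LDQ

open Pool.Agent.LRC

theorem p_RAW : T_COSD → Pool.Agent.LRC.T_PDT → Pool.Agent.LRC.T_RNK →
    Pool.Agent.LRC.T_NCO → T_RAW := by
  intro hC hP hR hN n f t d k R hf hch
  have h1 : spa (ind f) ≤ xrk f := hR n f
  have h2 : sp1 (ind f) < 2 ^ mr f := by
    refine lt_of_le_of_lt ((hN (Fin n → ZMod 2) f).1.trans h1) ?_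
    exact Nat.lt_pow_succ_log_self (by norm_num) _
  refine hP n f (R - 1) ?_ (mr f) h2
  intro x W
  obtain ⟨x₁, hx₁, W', hW', hfin, hconst⟩ := hC n f (xrk f) t d k R hf h1 hch x W
  refine ⟨x₁, hx₁, W', hW', ?_, hconst⟩
  have h3 : Module.finrank (ZMod 2) W' ≤ Module.finrank (ZMod 2) W :=
    Submodule.finrank_mono hW'
  omega

end Pool.Agent.LDQ
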