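import Pool.Agent.LDQ.Targets
import Pool.Agent.LRC.RED

set_option autoImplicit false

/-!
# LDQ, target REDD: kill numbers of all functions are hereditary (degree `d`)

The proof is that of `Pool.Agent.LRC.p_RED` with `3` replaced by `d`.
-/

open scoped Classical

noncomputable section

namespace Pool.Agent.LDQ

open Pool.Agent.LRC

open Pool.Agent.LRC.RED_ MvPolynomial in
theorem p_REDD : T_REDD := by
  intro d C0 k H n f M x W
  simp only [Lr] at H ⊢
  set φ : (Fin (Module.finrank (ZMod 2) W) → ZMod 2) ≃ₗ[ZMod 2] W := (Module.finBasis (ZMod 2) W).equivFun.symm with hφ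
  have hinj : LinearMap.ker (W.subtype ∘ₗ φ.toLinearMap) = ⊥ := by
    rw [LinearMap.ker_eq_bot]
    exact Subtype.val_injective.comp φ.injective
  obtain ⟨ψ, hψ⟩ := LinearMap.exists_leftInverse_of_injective _ hinj
  have hψ' : ∀ u, ψ ((φ u : W) : Fin n → ZMod 2) = u := fun u => by
    have := congrArg (fun g => g u) hψ
    exact this
  set f' : (Fin (Module.finrank (ZMod 2) W) → ZMod 2) → Bool := fun u => f (x + (φ u : W)) with hf'
  obtain ⟨t, ht, P, hP, u0, hu0, hall⟩ := H _ f'
  -- rank
  have hrk : xrk f' ≤ xrk f := by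
    have h := Matrix.rank_submatrix_le (Matrix.of (fun x y : Fin n → ZMod 2 => if f (x + y) then (1 : ℝ) else 0))
      (fun u : Fin (Module.finrank (ZMod 2) W) → ZMod 2 => x + ((φ u : W) : Fin n → ZMod 2))
      (fun u : Fin (Module.finrank (ZMod 2) W) → ZMod 2 => ((φ u : W) : Fin n → ZMod 2))
    refine le_trans (le_of_eq ?_) h
    unfold xrk
    refine congrArg Matrix.rank ?_
    ext u v
    simp only [Matrix.of_apply, Matrix.submatrix_apply, hf', map_add, Submodule.coe_add, add_assoc]
  have hL0 : ∀ r : ℕ, 0 ≤ Real.logb 2 (r : ℝ) := fun r => by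
    rcases Nat.eq_zero_or_pos r with h | h
    · subst h; simp
    · exact Real.logb_nonneg (by norm_num) (by exact_mod_cast h)
  have hLm : Real.logb 2 (xrk f' : ℝ) ≤ Real.logb 2 (xrk f : ℝ) := by
    rcases Nat.eq_zero_or_pos (xrk f') with h | h
    · rw [h]
      simp only [Nat.cast_zero, Real.logb_zero]
      exact hL0 _
    · exact Real.logb_le_logb_of_le (by norm_num) (by exact_mod_cast h) (by exact_mod_cast hrk)
  have hC : 0 ≤ C0 := by
    by_contra hc
    push Not at hc
    have h1 : 0 ≤ (Real.logb 2 (xrk f' : ℝ)) ^ k := pow_nonneg (hL0 _) _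
    have h2 : (0 : ℝ) ≤ t := Nat.cast_nonneg _
    nlinarith
  have hpow : (Real.logb 2 (xrk f' : ℝ)) ^ k ≤ (Real.logb 2 (xrk f : ℝ)) ^ k :=
    pow_le_pow_left₀ (hL0 _) hLm k
  have htT : t ≤ Nat.floor (C0 * (Real.logb 2 (xrk f : ℝ)) ^ k + C0) := by
    refine Nat.le_floor (ht.trans ?_)
    have := mul_le_mul_of_nonneg_left hpow hC
    linarith
  set T := Nat.floor (C0 * (Real.logb 2 (xrk f : ℝ)) ^ k + C0) with hT
  set A : Fin (Module.finrank (ZMod 2) W) → MvPolynomial (Fin n) (ZMod 2) := fun j =>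
    aff (fun a => ψ (Pi.single a 1) j) (-(ψ x j)) with hA
  have hAe : ∀ v j, eval v (A j) = ψ (v - x) j := fun v j => by
    rw [hA]
    simp only
    rw [aff_eval, lin_eq, map_sub, Pi.sub_apply, sub_eq_add_neg]
  set Q : Fin T → MvPolynomial (Fin n) (ZMod 2) := fun i =>
    if h : (i : ℕ) < t then bind₁ A (P ⟨i, h⟩) else 0 with hQ
  have hQz : ∀ v, MvZ Q v ↔ MvZ P (ψ (v - x)) := by
    intro v
    constructor
    · intro h i
      have h1 := h ⟨i, lt_of_lt_of_le i.2 htT⟩
      rw [hQ] at h1
      simp only [i.2, dif_pos] at h1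
      rw [eval_bind] at h1
      have h2 : (fun j => eval v (A j)) = ψ (v - x) := by
        funext j; exact hAe v j
      rw [h2] at h1
      exact h1
    · intro h i
      rw [hQ]
      by_cases hi : (i : ℕ) < t
      · simp only [hi, dif_pos]
        rw [eval_bind]
        have h2 : (fun j => eval v (A j)) = ψ (v - x) := by
          funext j; exact hAe v j
        rw [h2]
        exact h _
      · simp only [hi, dif_neg, not_false_iff, map_zero]
  refine ⟨Q, f' u0, ?_, ?_, ?_⟩
  · intro i
    rw [hQ]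
    by_cases hi : (i : ℕ) < t
    · simp only [hi, dif_pos]
      exact (totalDegree_bind A (fun j => aff_deg _ _) _).trans (hP _)
    · simp only [hi, dif_neg, not_false_iff, totalDegree_zero]
      omega
  · refine ⟨(φ u0 : W), (φ u0).2, ?_⟩
    rw [hQz]
    have h1 : x + ((φ u0 : W) : Fin n → ZMod 2) - x = ((φ u0 : W) : Fin n → ZMod 2) := by abel
    rw [h1, hψ']
    exact hu0
  · have hempty : {v | v ∈ W ∧ MvZ Q (x + v) ∧ f (x + v) ≠ f' u0} = ∅ := by
      ext v
      simp only [Set.mem_ofPred_eq, Set.mem_empty_iff_false, iff_false, not_and, not_not]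
      intro hv hz
      rw [hQz] at hz
      have h1 : x + v - x = v := by abel
      rw [h1] at hz
      have h2 : φ (φ.symm ⟨v, hv⟩) = ⟨v, hv⟩ := φ.apply_symm_apply _
      have h3 : ((φ (φ.symm ⟨v, hv⟩) : W) : Fin n → ZMod 2) = v := by rw [h2]
      have h4 := hψ' (φ.symm ⟨v, hv⟩)
      rw [h3] at h4
      rw [h4] at hz
      have h5 := hall _ hz
      rw [← h5, hf']
      simp only [h3]
    rw [hempty]
    simp

end Pool.Agent.LDQ
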