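import Pool.Agent.LDQ.Targets

/-!
# LDQ, RMD: the minimum distance of Reed-Muller codes
-/

set_option autoImplicit false

namespace Pool.Agent.LDQ

open Pool.Agent.LRC

namespace RMD_

theorem const {E : Type} [AddCommGroup E] [Module (ZMod 2) E] [Finite E]
    (P : E → ZMod 2) (h : ∀ a x, Dv a P x = 0) (hx : ∃ x, P x ≠ 0) (d : ℕ) :
    Nat.card E ≤ 2 ^ d * Set.ncard {x | P x ≠ 0} := by
  obtain ⟨x, hx⟩ := hx
  have hall : {y | P y ≠ 0} = (Set.univ : Set E) := by
    ext y
    simp only [Set.mem_setOf_eq, Set.mem_univ, iff_true]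
    have h1 := h (y - x) x
    unfold Dv at h1
    have h2 : x + (y - x) = y := by abel
    rw [h2] at h1
    intro hy
    rw [hy] at h1
    apply hx
    simpa using h1
  rw [hall, Set.ncard_univ]
  exact Nat.le_mul_of_pos_left _ (by positivity)

theorem main {E : Type} [AddCommGroup E] [Module (ZMod 2) E] [Finite E] (d : ℕ) :
    ∀ P : E → ZMod 2, Dg d P → (∃ x, P x ≠ 0) →
      Nat.card E ≤ 2 ^ d * Set.ncard {x | P x ≠ 0} := by
  induction d with
  | zero =>
    intro P hP hx
    exact const P hP hx 0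
  | succ d ih =>
    intro P hP hx
    by_cases hc : ∃ a x, Dv a P x ≠ 0
    · obtain ⟨a, x, hax⟩ := hc
      have h1 := ih (Dv a P) (hP a) ⟨x, hax⟩
      have hsub : {x | Dv a P x ≠ 0} ⊆ {x | P x ≠ 0} ∪ (fun y => y - a) '' {x | P x ≠ 0} := by
        intro y hy
        by_cases hy0 : P y = 0
        · right
          refine ⟨y + a, ?_, by simp⟩
          simp only [Set.mem_setOf_eq] at hy ⊢
          intro h0
          apply hy
          unfold Dv
          rw [hy0, h0]
          simp
        · left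
          exact hy0
      have h2 : Set.ncard {x | Dv a P x ≠ 0} ≤ 2 * Set.ncard {x | P x ≠ 0} := by
        calc Set.ncard {x | Dv a P x ≠ 0}
            ≤ Set.ncard ({x | P x ≠ 0} ∪ (fun y => y - a) '' {x | P x ≠ 0}) :=
              Set.ncard_le_ncard hsub (Set.toFinite _)
          _ ≤ Set.ncard {x | P x ≠ 0} + Set.ncard ((fun y => y - a) '' {x | P x ≠ 0}) :=
              Set.ncard_union_le _ _
          _ ≤ Set.ncard {x | P x ≠ 0} + Set.ncard {x | P x ≠ 0} := by
              have := Set.ncard_image_le (f := fun y => y - a) (Set.toFinite {x | P x ≠ 0})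
              omega
          _ = 2 * Set.ncard {x | P x ≠ 0} := by ring
      calc Nat.card E ≤ 2 ^ d * Set.ncard {x | Dv a P x ≠ 0} := h1
        _ ≤ 2 ^ d * (2 * Set.ncard {x | P x ≠ 0}) := Nat.mul_le_mul_left _ h2
        _ = 2 ^ (d + 1) * Set.ncard {x | P x ≠ 0} := by ring
    · push Not at hc
      exact const P hc hx (d + 1)

end RMD_

theorem p_RMD : T_RMD := by
  intro E _ _ _ d P hP hx
  exact RMD_.main d P hP hx

end Pool.Agent.LDQ
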