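import Pool.Agent.LDQ.Targets2

set_option autoImplicit false

/-!
# MP_9f5962_lc: job RQP
-/

open scoped Classical

noncomputable section

namespace Pool.Agent.LDQ

open Pool.Agent.LRC

namespace RQP_

/-- The shift of the system with index `s`. -/
def sh (s : Fin 2) : ZMod 2 := if s = 0 then 0 else 1

/-- The answer of the system with index `s`. -/
def an (s : Fin 2) : Bool := if s = 0 then false else true

theorem zm (z : ZMod 2) : z = 0 ∨ z = 1 := by
  revert z
  decide

theorem tot (z : ZMod 2) : (∑ s : Fin 2, if z + sh s = 0 then (1 : ℝ) else 0) = 1 := by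
  rw [Fin.sum_univ_two]
  have h2 : (1 : ZMod 2) + 1 = 0 := by decide
  rcases zm z with h | h <;> subst h <;> simp [sh, h2]

theorem wrong (z : ZMod 2) (b : Bool) :
    (∑ s : Fin 2, if z + sh s = 0 ∧ an s ≠ b then (1 : ℝ) else 0) =
      if ¬ (b = true ↔ z = 1) then 1 else 0 := by
  rw [Fin.sum_univ_two]
  have h2 : (1 : ZMod 2) + 1 = 0 := by decide
  rcases zm z with h | h <;> subst h <;> cases b <;> simp [sh, an, h2]

theorem key (N : ℕ) (F : Fin N → Fin 2 → ℝ) :
    (∑ ω : Fin (N * 2), F (finProdFinEquiv.symm ω).1 (finProdFinEquiv.symm ω).2) =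
      ∑ w : Fin N, ∑ s : Fin 2, F w s := by
  rw [← Fintype.sum_prod_type']
  exact Fintype.sum_equiv finProdFinEquiv.symm _ _ (fun ω => rfl)

end RQP_

theorem p_RQP : T_RQP := by
  rintro n d f ⟨N, p, hN, hd, hp⟩
  have hz : ∀ (x : Fin n → ZMod 2) (ω : Fin (N * 2)),
      MvZ (fun _ : Fin 1 => p (finProdFinEquiv.symm ω).1 +
        MvPolynomial.C (RQP_.sh (finProdFinEquiv.symm ω).2)) x ↔
      MvPolynomial.eval x (p (finProdFinEquiv.symm ω).1) +
        RQP_.sh (finProdFinEquiv.symm ω).2 = 0 := by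
    intro x ω
    unfold MvZ
    simp
  refine ⟨N * 2, fun _ => 1, fun ω _ => p (finProdFinEquiv.symm ω).1 +
    MvPolynomial.C (RQP_.sh (finProdFinEquiv.symm ω).2),
    fun ω => RQP_.an (finProdFinEquiv.symm ω).2, fun _ => zero_le_one, ?_, ?_⟩
  · intro ω _
    refine (MvPolynomial.totalDegree_add _ _).trans (max_le (hd _) ?_)
    rw [MvPolynomial.totalDegree_C]
    exact Nat.zero_le _
  · intro x
    have e1 : (∑ ω : Fin (N * 2), if MvZ (fun _ : Fin 1 => p (finProdFinEquiv.symm ω).1 +
        MvPolynomial.C (RQP_.sh (finProdFinEquiv.symm ω).2)) x then (1 : ℝ) else 0) = (N : ℝ) := by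
      rw [Finset.sum_congr rfl (fun ω _ => if_congr (hz x ω) rfl rfl),
        RQP_.key N (fun w s => if MvPolynomial.eval x (p w) + RQP_.sh s = 0 then (1 : ℝ) else 0),
        Finset.sum_congr rfl (fun w _ => RQP_.tot (MvPolynomial.eval x (p w)))]
      simp
    have e2 : (∑ ω : Fin (N * 2), if MvZ (fun _ : Fin 1 => p (finProdFinEquiv.symm ω).1 +
        MvPolynomial.C (RQP_.sh (finProdFinEquiv.symm ω).2)) x ∧
        RQP_.an (finProdFinEquiv.symm ω).2 ≠ f x then (1 : ℝ) else 0) =
        (Nat.card {ω : Fin N // ¬ (f x = true ↔ MvPolynomial.eval x (p ω) = 1)} : ℝ) := by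
      rw [Finset.sum_congr rfl (fun ω _ => if_congr (and_congr (hz x ω) Iff.rfl) rfl rfl),
        RQP_.key N (fun w s => if MvPolynomial.eval x (p w) + RQP_.sh s = 0 ∧
          RQP_.an s ≠ f x then (1 : ℝ) else 0),
        Finset.sum_congr rfl (fun w _ => RQP_.wrong (MvPolynomial.eval x (p w)) (f x)),
        Nat.card_eq_fintype_card, Fintype.card_subtype, Finset.sum_ite, Finset.sum_const_zero,
        add_zero, Finset.sum_const, nsmul_eq_mul, mul_one]
    have h3 := hp x
    constructor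
    · refine lt_of_lt_of_eq ?_ e1.symm
      exact_mod_cast hN
    · refine (le_of_eq (congrArg (fun z => 3 * z) e2)).trans (le_trans ?_ (le_of_eq e1.symm))
      exact_mod_cast h3

end Pool.Agent.LDQ
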