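import Pool.Agent.LDQ.Targets

/-!
# LDQ: SMAL, degree a small multiple of the logarithm
-/

set_option autoImplicit false

namespace Pool.Agent.LDQ

open Pool.Agent.LRC

theorem p_SMAL (hEXPL : T_EXPL) (hPARB : T_PARB) (hABSO : T_ABSO) (hNCL : T_NCL) : T_SMAL := by
  intro ε hε
  obtain ⟨δ, x, hδ, hδ1, hx, hx1, hmax⟩ := hPARB ε hε
  obtain ⟨C, hC, hCr⟩ := hABSO (ε / 2) (by linarith)
  refine ⟨56 * C, δ, by linarith, hδ, fun n f t d ht hd hR => ?_⟩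
  have hr0 : (0 : ℝ) ≤ (xrk f : ℝ) := Nat.cast_nonneg _
  have ht0 : (0 : ℝ) ≤ (t : ℝ) := Nat.cast_nonneg _
  rcases (hNCL n f).2 with h0 | ⟨h2, -, -, -⟩
  · refine ⟨0, ?_, h0⟩
    rw [Nat.cast_zero]
    have := Real.rpow_nonneg hr0 ε
    positivity
  · obtain ⟨D, hD, hP⟩ := hEXPL n f t d δ 1 x ht hδ.le hδ1 one_pos le_rfl hx hx1 hd hR
    refine ⟨D, hD.trans ?_, hP⟩
    have h2r : (2 : ℝ) ≤ (xrk f : ℝ) := by exact_mod_cast h2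
    have h1r : (1 : ℝ) ≤ (xrk f : ℝ) := by linarith
    have hrpos : (0 : ℝ) < (xrk f : ℝ) := by linarith
    have e1 : (Lr f) ^ 3 ≤ C * (xrk f : ℝ) ^ (ε / 2) := hCr (xrk f) h2
    have e2 := Real.rpow_le_rpow_of_exponent_le h1r hmax
    have e3 : (xrk f : ℝ) ^ ε = (xrk f : ℝ) ^ (ε / 2) * (xrk f : ℝ) ^ (ε / 2) := by
      rw [← Real.rpow_add hrpos]
      congr 1
      ring
    have e4 : 0 ≤ (xrk f : ℝ) ^ (ε / 2) := Real.rpow_nonneg hr0 _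
    have e5 : 0 ≤ (xrk f : ℝ) ^ max (1 - (1 : ℝ))
      (δ * Real.logb 2 (1 / x) + 1 * Real.logb 2 (1 + x)) := Real.rpow_nonneg hr0 _
    rw [e3]
    calc 56 * (t : ℝ) * (Lr f) ^ 3 * (xrk f : ℝ) ^ max (1 - (1 : ℝ))
          (δ * Real.logb 2 (1 / x) + 1 * Real.logb 2 (1 + x))
        ≤ 56 * (t : ℝ) * (C * (xrk f : ℝ) ^ (ε / 2)) * (xrk f : ℝ) ^ max (1 - (1 : ℝ))
          (δ * Real.logb 2 (1 / x) + 1 * Real.logb 2 (1 + x)) :=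
          mul_le_mul_of_nonneg_right
            (mul_le_mul_of_nonneg_left e1 (by positivity)) e5
      _ ≤ 56 * (t : ℝ) * (C * (xrk f : ℝ) ^ (ε / 2)) * (xrk f : ℝ) ^ (ε / 2) :=
          mul_le_mul_of_nonneg_left e2 (by positivity)
      _ = 56 * C * t * ((xrk f : ℝ) ^ (ε / 2) * (xrk f : ℝ) ^ (ε / 2)) := by ring

end Pool.Agent.LDQ
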