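import Pool.Agent.LDQ.Targets

set_option autoImplicit false

/-!
# MP_9f5962_lc, project LDQ: SYS, the degrees after one doubling step
-/

open scoped Classical

noncomputable section

namespace Pool.Agent.LDQ

open Pool.Agent.LRC

namespace SYS_

variable {E : Type} [AddCommGroup E]

lemma dg_pred {e : ℕ} {P : E → ZMod 2} (h : Dg e P) (v : E) : Dg (e - 1) (Dv v P) := by
  cases e with
  | zero =>
    have h0 : Dv v P = fun _ => 0 := funext (h v)
    rw [h0]
    intro a x
    simp [Dv]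
  | succ d => exact h v

end SYS_

theorem p_SYS : T_SYS := by
  intro E _ _ l
  induction l with
  | nil =>
    intro Z v h
    have hZ : Z = Set.univ := h
    subst hZ
    show dz Set.univ v = Set.univ
    ext x
    simp [dz]
  | cons e l ih =>
    rintro Z v ⟨P, Y, hP, hY, rfl⟩
    refine ⟨P, {x | x ∈ dz Y v ∧ Dv v P x = 0}, hP,
      ⟨Dv v P, dz Y v, SYS_.dg_pred hP v, ih Y v hY, rfl⟩, ?_⟩
    ext x
    constructor
    · rintro ⟨⟨h1, h2⟩, h3, h4⟩
      refine ⟨⟨⟨h1, h3⟩, ?_⟩, h2⟩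
      show P (x + v) + P x = 0
      rw [h2, h4, add_zero]
    · rintro ⟨⟨⟨h1, h3⟩, h5⟩, h2⟩
      have h6 : P (x + v) + P x = 0 := h5
      refine ⟨⟨h1, h2⟩, h3, ?_⟩
      have h7 : P x = 0 := h2
      rw [h7, add_zero] at h6
      exact h6

end Pool.Agent.LDQ
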