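import Pool.Agent.LDQ.Targets

set_option autoImplicit false

/-!
# Job TAU: closed form of `tau`
-/

namespace Pool.Agent.LDQ

theorem p_TAU : T_TAU := by
  intro k
  induction k with
  | zero => intro d; simp [tau]
  | succ k ih =>
    intro d
    cases d with
    | zero => simp [tau, ih]
    | succ d =>
      have h1 : ∀ i, (k + 1).choose (i + 1) = k.choose i + k.choose (i + 1) :=
        fun i => Nat.choose_succ_succ k i
      simp only [tau, Nat.add_sub_cancel, ih, h1, Nat.mul_add, Finset.sum_add_distrib]
      rw [Finset.sum_range_succ' (fun i => (d + 1 - i) * k.choose i)]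
      simp only [Nat.choose_zero_right, Nat.sub_zero, Nat.mul_one, Nat.add_sub_add_right]
      ring

end Pool.Agent.LDQ
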