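import Pool.Agent.LDQ.Targets

set_option autoImplicit false

/-!
# MP_9f5962_lc, project LDQ: the polynomial bound for `tau`
-/

open scoped Classical

noncomputable section

namespace Pool.Agent.LDQ

namespace TAUP_

theorem tau_zero (k : ℕ) : tau k 0 = 0 := by
  induction k with
  | zero => rfl
  | succ k ih => simp [tau, ih]

theorem tau_one (d : ℕ) : tau 1 d = d := by
  simp [tau]

theorem bern (k n : ℕ) : k ^ (n + 1) + (n + 1) * k ^ n ≤ (k + 1) ^ (n + 1) := by
  induction n with
  | zero => simp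
  | succ n ih =>
    calc k ^ (n + 1 + 1) + (n + 1 + 1) * k ^ (n + 1)
        ≤ (k + 1) * (k ^ (n + 1) + (n + 1) * k ^ n) := by
          have h : (k + 1) * (k ^ (n + 1) + (n + 1) * k ^ n)
              = k ^ (n + 1 + 1) + (n + 1 + 1) * k ^ (n + 1) + (n + 1) * k ^ n := by ring
          rw [h]
          exact Nat.le_add_right _ _
      _ ≤ (k + 1) * (k + 1) ^ (n + 1) := Nat.mul_le_mul_left _ ih
      _ = (k + 1) ^ (n + 1 + 1) := by ring

theorem two_case (d : ℕ) : 3 * d + 2 ≤ 2 * 2 ^ (d + 1) := by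
  induction d with
  | zero => simp
  | succ d ih =>
    have h : 2 * 2 ^ (d + 1 + 1) = 2 * (2 * 2 ^ (d + 1)) := by ring
    have h1 : 1 ≤ 2 ^ d := Nat.one_le_two_pow
    rw [h]
    omega

end TAUP_

open TAUP_

theorem p_TAUP : T_TAUP := by
  intro k d hk
  induction k, hk using Nat.le_induction generalizing d with
  | base =>
    intro hd
    obtain ⟨e, rfl⟩ : ∃ e, d = e + 1 := ⟨d - 1, by omega⟩
    have h1 : tau 2 (e + 1) = (e + 1) + tau 1 (e + 1) + tau 1 (e + 1 - 1) := rfl
    rw [h1, tau_one, tau_one, Nat.add_sub_cancel]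
    have := two_case e
    omega
  | succ k hk ih =>
    intro hd
    have h1 : tau (k + 1) d = d + tau k d + tau k (d - 1) := rfl
    rw [h1]
    rcases Nat.lt_or_ge 1 d with hd2 | hd2
    · obtain ⟨e, rfl⟩ : ∃ e, d = e + 2 := ⟨d - 2, by omega⟩
      have i1 := ih (e + 2) (by omega)
      have i2 := ih (e + 2 - 1) (by omega)
      have e1 : e + 2 - 1 = e + 1 := rfl
      rw [e1] at i2 ⊢
      have hb := bern k (e + 1)
      have hp : 1 ≤ k ^ e := Nat.one_le_pow _ _ (by omega)
      have hq : 2 ≤ k ^ (e + 1) := by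
        rw [pow_succ]
        nlinarith
      have h3 : e + 2 ≤ 2 * ((e + 1) * k ^ (e + 1)) := by nlinarith
      have h4 : (e + 1 + 1) * k ^ (e + 1) = (e + 1) * k ^ (e + 1) + k ^ (e + 1) := by ring
      have e2 : e + 1 + 1 = e + 2 := rfl
      rw [h4] at hb
      rw [e2] at hb
      omega
    · obtain rfl : d = 1 := by omega
      have i1 := ih 1 le_rfl
      have e1 : (1 : ℕ) - 1 = 0 := rfl
      rw [e1, tau_zero]
      simp only [pow_one] at i1 ⊢
      omega

end Pool.Agent.LDQ
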