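import Pool.Agent.LDQ.Targets

/-!
# LDQ: TAUX, exponential bound for `tau`
-/

set_option autoImplicit false

namespace Pool.Agent.LDQ

namespace TAUX_

lemma sum_le (k d : ℕ) (x : ℝ) (h0 : 0 < x) :
    ∑ i ∈ Finset.range d, (k.choose (i + 1) : ℝ) * x ^ (i + 1) ≤ (1 + x) ^ k := by
  set f : ℕ → ℝ := fun j => (k.choose j : ℝ) * x ^ j with hf
  have hf0 : ∀ j, 0 ≤ f j := fun j => by
    simp only [hf]
    positivity
  have h1 : ∑ i ∈ Finset.range d, f (i + 1) ≤ ∑ j ∈ Finset.range (d + 1), f j := by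
    rw [Finset.sum_range_succ']
    linarith [hf0 0]
  have h2 : ∑ j ∈ Finset.range (d + 1), f j ≤ ∑ j ∈ Finset.range (d + k + 1), f j :=
    Finset.sum_le_sum_of_subset_of_nonneg (Finset.range_mono (by omega)) (fun j _ _ => hf0 j)
  have h3 : ∑ j ∈ Finset.range (k + 1), f j = ∑ j ∈ Finset.range (d + k + 1), f j := by
    refine Finset.sum_subset (Finset.range_mono (by omega)) fun j _ hj => ?_
    have h5 : k < j := by
      by_contra h6
      exact hj (Finset.mem_range.2 (by omega))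
    simp only [hf]
    rw [Nat.choose_eq_zero_of_lt h5, Nat.cast_zero, zero_mul]
  have h4 : (1 + x) ^ k = ∑ j ∈ Finset.range (k + 1), f j := by
    rw [add_comm, add_pow]
    refine Finset.sum_congr rfl fun j _ => ?_
    simp only [hf, one_pow, mul_one]
    ring
  have h7 : ∑ i ∈ Finset.range d, (k.choose (i + 1) : ℝ) * x ^ (i + 1) =
    ∑ i ∈ Finset.range d, f (i + 1) := rfl
  linarith

end TAUX_

open TAUX_ in
theorem p_TAUX (hTAU : T_TAU) : T_TAUX := by
  intro k d x h0 h1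
  rw [hTAU k d, Nat.cast_sum]
  have h2 : ∀ i ∈ Finset.range d, (((d - i) * k.choose (i + 1) : ℕ) : ℝ) ≤
      (d * (1 / x) ^ d) * ((k.choose (i + 1) : ℝ) * x ^ (i + 1)) := by
    intro i hi
    have hi' : i < d := Finset.mem_range.1 hi
    rw [Nat.cast_mul]
    have h3 : ((d - i : ℕ) : ℝ) ≤ d := by exact_mod_cast Nat.sub_le d i
    have h4 : 1 ≤ (1 / x) ^ d * x ^ (i + 1) := by
      have h5 : x ^ d ≤ x ^ (i + 1) := pow_le_pow_of_le_one h0.le h1 hi'
      rw [one_div, inv_pow, ← div_eq_inv_mul, le_div_iff₀ (pow_pos h0 d), one_mul]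
      exact h5
    have h6 : (0 : ℝ) ≤ k.choose (i + 1) := Nat.cast_nonneg _
    have h7 : (0 : ℝ) ≤ d := Nat.cast_nonneg _
    calc ((d - i : ℕ) : ℝ) * (k.choose (i + 1) : ℝ) ≤ d * (k.choose (i + 1) : ℝ) :=
          mul_le_mul_of_nonneg_right h3 h6
      _ = (d * (k.choose (i + 1) : ℝ)) * 1 := by ring
      _ ≤ (d * (k.choose (i + 1) : ℝ)) * ((1 / x) ^ d * x ^ (i + 1)) :=
          mul_le_mul_of_nonneg_left h4 (mul_nonneg h7 h6)
      _ = _ := by ring
  refine (Finset.sum_le_sum h2).trans ?_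
  rw [← Finset.mul_sum]
  have h8 : 0 ≤ (d : ℝ) * (1 / x) ^ d := by positivity
  exact mul_le_mul_of_nonneg_left (sum_le k d x h0) h8

end Pool.Agent.LDQ
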