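import Pool.Agent.LDQ.Defs

set_option autoImplicit false

/-!
# MP_9f5962_lc: XOR functions and queries of arbitrary degree: targets

Job `X` proves `theorem Pool.Agent.LDQ.p_X : T_X` (or `T_A → T_B → T_X`, see the job) in
`Pool/Agent/LDQ/X.lean`.
-/

open scoped Classical

noncomputable section

namespace Pool.Agent.LDQ

open Pool.Agent.LRC

/-- TAU: closed form of `tau`. -/
def T_TAU : Prop := ∀ k d : ℕ,
  tau k d = ∑ i ∈ Finset.range d, (d - i) * k.choose (i + 1)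

/-- TAUP: polynomial bound. -/
def T_TAUP : Prop := ∀ k d : ℕ, 2 ≤ k → 1 ≤ d → tau k d ≤ 2 * k ^ d

/-- TAUX: exponential bound. -/
def T_TAUX : Prop := ∀ (k d : ℕ) (x : ℝ), 0 < x → x ≤ 1 →
  (tau k d : ℝ) ≤ d * (1 / x) ^ d * (1 + x) ^ k

/-- LAM: `lam` in terms of `tau`. -/
def T_LAM : Prop := ∀ (k : ℕ) (l : List ℕ), lam k l = (l.map (tau k)).sum

/-- DGM: the degree of a product. -/
def T_DGM : Prop := ∀ (E : Type) [AddCommGroup E] [Module (ZMod 2) E] (a b : ℕ)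
  (P Q : E → ZMod 2), Dg a P → Dg b Q → Dg (a + b) (fun x => P x * Q x)

/-- RMD: the minimum distance of Reed-Muller codes. -/
def T_RMD : Prop := ∀ (E : Type) [AddCommGroup E] [Module (ZMod 2) E] [Finite E] (d : ℕ)
  (P : E → ZMod 2), Dg d P → (∃ x, P x ≠ 0) → Nat.card E ≤ 2 ^ d * Set.ncard {x | P x ≠ 0}

/-- WAR: the number of common zeros. -/
def T_WAR : Prop := ∀ (E : Type) [AddCommGroup E] [Module (ZMod 2) E] [Finite E] (l : List ℕ)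
  (Z : Set E), Sys l Z → Z.Nonempty → Nat.card E ≤ 2 ^ l.sum * Set.ncard Z

/-- SYS: the degrees after one doubling step. -/
def T_SYS : Prop := ∀ (E : Type) [AddCommGroup E] [Module (ZMod 2) E] (l : List ℕ)
  (Z : Set E) (v : E), Sys l Z → Sys (dbl l) (dz Z v)

/-- CIN: cubes in `dz Z v` and in `Z`. -/
def T_CIN : Prop := ∀ (E : Type) [AddCommGroup E] [Module (ZMod 2) E] (Z : Set E) (x v : E)
  (vs : List E), Cin (dz Z v) x vs → Cin Z x (v :: vs)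

/-- DZC: double counting. -/
def T_DZC : Prop := ∀ (E : Type) [AddCommGroup E] [Module (ZMod 2) E] [Finite E] (Z : Set E)
  (β : E → ℝ), (∑ᶠ v : E, (Set.ncard (dz Z v) : ℝ)) = (Set.ncard Z : ℝ) ^ 2 ∧
  (∑ᶠ v : E, ∑ᶠ x : E, if x ∈ dz Z v then β x + β (x + v) else 0) =
    2 * (Set.ncard Z : ℝ) * ∑ᶠ x : E, if x ∈ Z then β x else 0

/-- CAVE: existence by averaging. -/
def T_CAVE : Prop := ∀ (E : Type) [AddCommGroup E] [Module (ZMod 2) E] [Finite E] (k : ℕ)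
  (Z : Set E) (φ : E → List E → ℝ), Z.Nonempty → cav k Z φ < 1 →
  ∃ (x : E) (vs : List E), vs.length = k ∧ Cin Z x vs ∧ φ x vs < 1

/-- CAVA: additivity of the average. -/
def T_CAVA : Prop := ∀ (E : Type) [AddCommGroup E] [Module (ZMod 2) E] [Finite E] (k : ℕ)
  (Z : Set E), (∀ φ ψ : E → List E → ℝ,
    cav k Z (fun x vs => φ x vs + ψ x vs) = cav k Z φ + cav k Z ψ) ∧
  ∀ (ι : Type) (s : Finset ι) (φ : ι → E → List E → ℝ),
    cav k Z (fun x vs => ∑ i ∈ s, φ i x vs) = ∑ i ∈ s, cav k Z (φ i)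

/-- CAVB: all vertices of the cube are uniform on `Z`. -/
def T_CAVB : Prop := ∀ (E : Type) [AddCommGroup E] [Module (ZMod 2) E] [Finite E] (k : ℕ)
  (Z : Set E) (β : E → ℝ), cav k Z (cs β) = 2 ^ k * cav 0 Z (fun x _ => β x)

/-- CAVH: the probability that all edges lie in a subspace. -/
def T_CAVH : Prop := ∀ (E : Type) [AddCommGroup E] [Module (ZMod 2) E] [Finite E] (k : ℕ)
  (l : List ℕ) (Z : Set E) (H : Submodule (ZMod 2) E), Sys l Z →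
  cav k Z (fun _ vs => if ∀ v ∈ vs, v ∈ H then 1 else 0) ≤
    ((Nat.card H : ℝ) / (Nat.card E : ℝ)) ^ k * 2 ^ lam k l

/-- CUBE: a subspace whose coset lies in `Z` and avoids `B` and which is contained in none of the
given subspaces. -/
def T_CUBE : Prop := ∀ (E : Type) [AddCommGroup E] [Module (ZMod 2) E] [Finite E] (k R : ℕ)
  (l : List ℕ) (Z B : Set E) (Hs : Finset (Submodule (ZMod 2) E)), Sys l Z → Z.Nonempty →
  2 ^ (k + 1) * Set.ncard {x | x ∈ Z ∧ x ∈ B} ≤ Set.ncard Z →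
  (∀ H ∈ Hs, 2 ^ R * Nat.card H ≤ Nat.card E) → Hs.card * 2 ^ (lam k l + 1) < 2 ^ (k * R) →
  ∃ (x : E) (V : Submodule (ZMod 2) E), (∀ w ∈ V, x + w ∈ Z ∧ x + w ∉ B) ∧ ∀ H ∈ Hs, ¬ V ≤ H

/-- FOUR: a coset on which `f` is constant and which is orthogonal to frequencies of small rank
only. -/
def T_FOUR : Prop := ∀ (E : Type) [AddCommGroup E] [Module (ZMod 2) E] [Finite E]
  (f : E → Bool) (b : Bool) (x : E) (V : Submodule (ZMod 2) E) (R : ℕ),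
  (∀ w ∈ V, f (x + w) = b) →
  (∀ I : Finset (Module.Dual (ZMod 2) E), I.card = R → (∀ l ∈ I, fco (ind f) l ≠ 0) →
    LinearIndependent (ZMod 2) (fun l : I => (l : Module.Dual (ZMod 2) E)) →
    ∃ l ∈ I, ∃ v ∈ V, l v ≠ 0) →
  ∃ W : Submodule (ZMod 2) E, Module.finrank (ZMod 2) E < R + Module.finrank (ZMod 2) W ∧
    ∀ w ∈ W, f (x + w) = b

/-- HYP: the subspaces cut out by independent sets of frequencies. -/
def T_HYP : Prop := ∀ (E : Type) [AddCommGroup E] [Module (ZMod 2) E] [Finite E]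
  (F : E → ℝ) (s R : ℕ), spa F ≤ s →
  ∃ Hs : Finset (Submodule (ZMod 2) E), Hs.card ≤ s.choose R ∧
    (∀ H ∈ Hs, 2 ^ R * Nat.card H ≤ Nat.card E) ∧
    ∀ I : Finset (Module.Dual (ZMod 2) E), I.card = R → (∀ l ∈ I, fco F l ≠ 0) →
      LinearIndependent (ZMod 2) (fun l : I => (l : Module.Dual (ZMod 2) E)) →
      ∃ H ∈ Hs, ∀ v, (∀ l ∈ I, l v = 0) → v ∈ H

/-- KILD: a sparse Boolean function which is almost constant on a nonempty common zero set of `t`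
functions of degree at most `d` is constant on a large affine subspace. -/
def T_KILD : Prop := ∀ (E : Type) [AddCommGroup E] [Module (ZMod 2) E] [Finite E]
  (f : E → Bool) (b : Bool) (s t d k R : ℕ) (P : Fin t → E → ZMod 2), (∀ i, Dg d (P i)) →
  (zer P).Nonempty → 2 ^ (k + 1) * Set.ncard {x | x ∈ zer P ∧ f x ≠ b} ≤ Set.ncard (zer P) →
  spa (ind f) ≤ s → s.choose R * 2 ^ (t * tau k d + 1) < 2 ^ (k * R) →
  ∃ (x₀ : E) (W : Submodule (ZMod 2) E),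
    Module.finrank (ZMod 2) E < R + Module.finrank (ZMod 2) W ∧ ∀ w ∈ W, f (x₀ + w) = b

/-- MVPD: the degree of polynomial functions. -/
def T_MVPD : Prop := ∀ (n d : ℕ) (p : MvPolynomial (Fin n) (ZMod 2)), p.totalDegree ≤ d →
  Dg d (fun x : Fin n → ZMod 2 => MvPolynomial.eval x p)

/-- COSD: each coset contains a small coset on which `f` is constant. -/
def T_COSD : Prop := ∀ (n : ℕ) (f : (Fin n → ZMod 2) → Bool) (s t d k R : ℕ),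
  Cbd d f t (2 ^ (k + 1)) → spa (ind f) ≤ s → s.choose R * 2 ^ (t * tau k d + 1) < 2 ^ (k * R) →
  ∀ (x : Fin n → ZMod 2) (W : Submodule (ZMod 2) (Fin n → ZMod 2)), ∃ x₁, x₁ - x ∈ W ∧
    ∃ W' : Submodule (ZMod 2) (Fin n → ZMod 2), W' ≤ W ∧
      Module.finrank (ZMod 2) W < R + Module.finrank (ZMod 2) W' ∧
      ∀ w ∈ W', f (x₁ + w) = f x₁

/-- AMPD: amplification. -/
def T_AMPD : Prop := ∀ (d n : ℕ) (f : (Fin n → ZMod 2) → Bool) (t : ℕ), Rqd d f t →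
  ∀ m : ℕ, Cbd d f (t * m) (2 ^ m)

/-- CERD: one-sided certificates. -/
def T_CERD : Prop := ∀ (d n : ℕ) (f : (Fin n → ZMod 2) → Bool) (t : ℕ) (b : Bool),
  (∀ x, f x = b → ∃ P : Fin t → MvPolynomial (Fin n) (ZMod 2),
    (∀ i, (P i).totalDegree ≤ d) ∧ MvZ P x ∧ ∀ y, MvZ P y → f y = b) →
  ∀ M : ℕ, Cbd d f t M

/-- REDD: kill numbers of all functions. -/
def T_REDD : Prop := ∀ (d : ℕ) (C : ℝ) (k : ℕ),
  (∀ (n : ℕ) (f : (Fin n → ZMod 2) → Bool), ∃ t : ℕ, (t : ℝ) ≤ C * (Lr f) ^ k + C ∧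
    ∃ P : Fin t → MvPolynomial (Fin n) (ZMod 2), (∀ i, (P i).totalDegree ≤ d) ∧
      ∃ x, MvZ P x ∧ ∀ y, MvZ P y → f y = f x) →
  ∀ (n : ℕ) (f : (Fin n → ZMod 2) → Bool) (M : ℕ),
    Cbd d f (Nat.floor (C * (Lr f) ^ k + C)) M

/-- RAW: the protocol, all parameters. -/
def T_RAW : Prop := ∀ (n : ℕ) (f : (Fin n → ZMod 2) → Bool) (t d k R : ℕ),
  Cbd d f t (2 ^ (k + 1)) → (xrk f).choose R * 2 ^ (t * tau k d + 1) < 2 ^ (k * R) →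
  Prot f (2 * (R - 1) * mr f)

/-- POLY: the protocol for fixed degree. -/
def T_POLY : Prop := ∀ (n : ℕ) (f : (Fin n → ZMod 2) → Bool) (t d : ℕ), 1 ≤ d →
  Cbd d f t (2 ^ (2 * mr f + 1)) → Prot f (4 * t * (2 * mr f) ^ d)

/-- NCL: constant functions and logarithms. -/
def T_NCL : Prop := ∀ (n : ℕ) (f : (Fin n → ZMod 2) → Bool), 0 ≤ Lr f ∧ (Prot f 0 ∨
  (2 ≤ xrk f ∧ 1 ≤ Lr f ∧ (mr f : ℝ) ≤ Lr f + 1 ∧ (xrk f : ℝ) = (2 : ℝ) ^ Lr f))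

/-- FRAN: postselected randomised queries of degree `d`. -/
def T_FRAN : Prop := ∀ (n : ℕ) (f : (Fin n → ZMod 2) → Bool) (t d : ℕ), 1 ≤ d → Rqd d f t →
  ∃ D : ℕ, (D : ℝ) ≤ 5 * t * (4 * Lr f) ^ (d + 1) ∧ Prot f D

/-- FCER: one-sided certificates of degree `d`. -/
def T_FCER : Prop := ∀ (n : ℕ) (f : (Fin n → ZMod 2) → Bool) (t d : ℕ) (b : Bool), 1 ≤ d →
  (∀ x, f x = b → ∃ P : Fin t → MvPolynomial (Fin n) (ZMod 2),
    (∀ i, (P i).totalDegree ≤ d) ∧ MvZ P x ∧ ∀ y, MvZ P y → f y = b) →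
  ∃ D : ℕ, (D : ℝ) ≤ 4 * t * (4 * Lr f) ^ d ∧ Prot f D

/-- FSIN: a single function. -/
def T_FSIN : Prop := ∀ (n : ℕ) (f : (Fin n → ZMod 2) → Bool) (t d k R : ℕ) (b : Bool)
  (P : Fin t → MvPolynomial (Fin n) (ZMod 2)), (∀ i, (P i).totalDegree ≤ d) → (∃ x, MvZ P x) →
  2 ^ (k + 1) * Set.ncard {x | MvZ P x ∧ f x ≠ b} ≤ Set.ncard {x | MvZ P x} →
  (xrk f).choose R *
    2 ^ (t * (∑ i ∈ Finset.range d, (d - i) * k.choose (i + 1)) + 1) < 2 ^ (k * R) →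
  ∃ (x₀ : Fin n → ZMod 2) (W : Submodule (ZMod 2) (Fin n → ZMod 2)),
    n < R + Module.finrank (ZMod 2) W ∧ ∀ w ∈ W, f (x₀ + w) = b

/-- CHO: a bound for binomial coefficients. -/
def T_CHO : Prop := ∀ r k R : ℕ, 6 * r ≤ R * 2 ^ k → r.choose R * 2 ^ R ≤ 2 ^ (k * R)

/-- EXPL: the explicit exponent. -/
def T_EXPL : Prop := ∀ (n : ℕ) (f : (Fin n → ZMod 2) → Bool) (t d : ℕ) (δ μ x : ℝ), 1 ≤ t →
  0 ≤ δ → δ ≤ 1 → 0 < μ → μ ≤ 1 → 0 < x → x ≤ 1 → (d : ℝ) ≤ δ * Lr f → Rqd d f t →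
  ∃ D : ℕ, (D : ℝ) ≤ 56 * t * (Lr f) ^ 3 * (xrk f : ℝ) ^
    max (1 - μ) (δ * Real.logb 2 (1 / x) + μ * Real.logb 2 (1 + x)) ∧ Prot f D

/-- PARA: the choice of the parameters below the square root. -/
def T_PARA : Prop := ∀ δ : ℝ, 0 ≤ δ → δ < 1 / 4 → ∃ μ x ε : ℝ, 0 < ε ∧ 0 < μ ∧ μ ≤ 1 ∧ 0 < x ∧
  x ≤ 1 ∧ max (1 - μ) (δ * Real.logb 2 (1 / x) + μ * Real.logb 2 (1 + x)) ≤ 1 / 2 - 2 * ε

/-- PARB: the choice of the parameters for small degree. -/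
def T_PARB : Prop := ∀ ε : ℝ, 0 < ε → ∃ δ x : ℝ, 0 < δ ∧ δ ≤ 1 ∧ 0 < x ∧ x ≤ 1 ∧
  max (1 - (1 : ℝ)) (δ * Real.logb 2 (1 / x) + 1 * Real.logb 2 (1 + x)) ≤ ε / 2

/-- ABSO: logarithms are absorbed by a small power. -/
def T_ABSO : Prop := ∀ ε : ℝ, 0 < ε → ∃ C : ℝ, 0 ≤ C ∧ ∀ r : ℕ, 2 ≤ r →
  (Real.logb 2 (r : ℝ)) ^ 3 ≤ C * (r : ℝ) ^ ε

/-- SQRT: below the square root. -/
def T_SQRT : Prop := ∀ δ : ℝ, δ < 1 / 4 → ∃ C ε : ℝ, 0 ≤ C ∧ 0 < ε ∧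
  ∀ (n : ℕ) (f : (Fin n → ZMod 2) → Bool) (t d : ℕ), 1 ≤ t → (d : ℝ) ≤ δ * Lr f → Rqd d f t →
    ∃ D : ℕ, (D : ℝ) ≤ C * t * (xrk f : ℝ) ^ (1 / 2 - ε) ∧ Prot f D

/-- SMAL: degree a small multiple of the logarithm. -/
def T_SMAL : Prop := ∀ ε : ℝ, 0 < ε → ∃ C δ : ℝ, 0 ≤ C ∧ 0 < δ ∧
  ∀ (n : ℕ) (f : (Fin n → ZMod 2) → Bool) (t d : ℕ), 1 ≤ t → (d : ℝ) ≤ δ * Lr f → Rqd d f t →
    ∃ D : ℕ, (D : ℝ) ≤ C * t * (xrk f : ℝ) ^ ε ∧ Prot f D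

/-- DEGF: a function of degree `d` needs one query. -/
def T_DEGF : Prop := ∀ (n d : ℕ) (f : (Fin n → ZMod 2) → Bool)
  (p : MvPolynomial (Fin n) (ZMod 2)), p.totalDegree ≤ d →
  (∀ x, f x = true ↔ MvPolynomial.eval x p = 1) → Rqd d f 1

/-- FRED: the reduction to kill numbers for one degree. -/
def T_FRED : Prop := ∀ d : ℕ,
  (∃ (C : ℝ) (k : ℕ), ∀ (n : ℕ) (f : (Fin n → ZMod 2) → Bool), ∃ t : ℕ,
    (t : ℝ) ≤ C * (Lr f) ^ k + C ∧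
    ∃ P : Fin t → MvPolynomial (Fin n) (ZMod 2), (∀ i, (P i).totalDegree ≤ d) ∧
      ∃ x, MvZ P x ∧ ∀ y, MvZ P y → f y = f x) →
  ∃ (C : ℝ) (k : ℕ), ∀ (n : ℕ) (f : (Fin n → ZMod 2) → Bool), ∃ D : ℕ,
    (D : ℝ) ≤ C * (Lr f) ^ k + C ∧ Prot f D

/-- UNIF: many small monochromatic cosets give a large one. -/
def T_UNIF : Prop := ∀ (E : Type) [AddCommGroup E] [Module (ZMod 2) E] [Finite E]
  (f : E → Bool) (s k R M : ℕ), spa (ind f) ≤ s →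
  (Nat.card E) ^ (k + 1) ≤ 2 ^ M * Nat.card {q : E × (Fin k → E) //
    ∀ w ∈ Submodule.span (ZMod 2) (Set.range q.2), f (q.1 + w) = f q.1} →
  s.choose R * 2 ^ M < 2 ^ (k * R) →
  ∃ (x₀ : E) (W : Submodule (ZMod 2) E),
    Module.finrank (ZMod 2) E < R + Module.finrank (ZMod 2) W ∧ ∀ w ∈ W, f (x₀ + w) = f x₀

/-- LIFT: monochromatic cosets of random restrictions. -/
def T_LIFT : Prop := ∀ (E : Type) [AddCommGroup E] [Module (ZMod 2) E] [Finite E]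
  (f : E → Bool) (N k : ℕ),
  (∀ (a : E) (A : (Fin N → ZMod 2) →ₗ[ZMod 2] E), ∃ (x : Fin N → ZMod 2)
    (u : Fin k → Fin N → ZMod 2), LinearIndependent (ZMod 2) u ∧
    ∀ w ∈ Submodule.span (ZMod 2) (Set.range u), f (a + A (x + w)) = f (a + A x)) →
  (Nat.card E) ^ (k + 1) ≤ 2 ^ (N * (k + 1)) * Nat.card {q : E × (Fin k → E) //
    ∀ w ∈ Submodule.span (ZMod 2) (Set.range q.2), f (q.1 + w) = f q.1}

/-- DIMP: the protocol from monochromatic subspaces of small dimension. -/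
def T_DIMP : Prop := ∀ (N k r R : ℕ),
  (∀ g : (Fin N → ZMod 2) → Bool, xrk g ≤ r → ∃ (x : Fin N → ZMod 2)
    (W : Submodule (ZMod 2) (Fin N → ZMod 2)), k ≤ Module.finrank (ZMod 2) W ∧
    ∀ w ∈ W, g (x + w) = g x) →
  r.choose R * 2 ^ (N * (k + 1)) < 2 ^ (k * R) →
  ∀ (n : ℕ) (f : (Fin n → ZMod 2) → Bool), xrk f ≤ r → Prot f (2 * (R - 1) * mr f)

/-- FDIM: the reduction to monochromatic subspaces of dimension slightly larger than the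
logarithm of the rank. -/
def T_FDIM : Prop :=
  (∃ (ε C : ℝ) (k : ℕ), 0 < ε ∧ ∀ (n s : ℕ) (f : (Fin n → ZMod 2) → Bool), 2 ≤ s → xrk f ≤ s →
    C * (Real.logb 2 (s : ℝ)) ^ k + C ≤ (n : ℝ) →
    ∃ (x : Fin n → ZMod 2) (W : Submodule (ZMod 2) (Fin n → ZMod 2)),
      (1 + ε) * Real.logb 2 (s : ℝ) ≤ (Module.finrank (ZMod 2) W : ℝ) ∧
      ∀ w ∈ W, f (x + w) = f x) →
  ∃ (C : ℝ) (k : ℕ), ∀ (n : ℕ) (f : (Fin n → ZMod 2) → Bool), ∃ D : ℕ,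
    (D : ℝ) ≤ C * (Lr f) ^ k + C ∧ Prot f D

end Pool.Agent.LDQ
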