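import Pool.Agent.LDQ.Targets

set_option autoImplicit false

/-!
# MP_9f5962_lc: circuits
-/

open scoped Classical

noncomputable section

namespace Pool.Agent.LDQ

open Pool.Agent.LRC

/-- `f` is computed by a circuit with gates `g 0, g 1, ...`: each gate is the disjunction (`i ∈ o`)
or the sum modulo `2` (`i ∉ o`) of any number of affine functions and earlier gates. There are at
most `M` disjunction gates and every path contains at most `h` of them (`lev` bounds the number of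
disjunction gates on the paths that end in a gate). -/
def Ckt (h M : ℕ) {n : ℕ} (f : (Fin n → ZMod 2) → Bool) : Prop :=
  ∃ (K : ℕ) (g : Fin K → (Fin n → ZMod 2) → ZMod 2) (lev : Fin K → ℕ) (o : Finset (Fin K)),
    o.card ≤ M ∧ (∀ i, lev i ≤ h) ∧
    (∀ i, ∃ (m : ℕ) (q : Fin m → (Fin n → ZMod 2) → ZMod 2),
      (∀ a, (∃ (l : Module.Dual (ZMod 2) (Fin n → ZMod 2)) (c : ZMod 2), ∀ x, q a x = l x + c) ∨
        ∃ j, j < i ∧ q a = g j ∧ (if i ∈ o then lev j + 1 ≤ lev i else lev j ≤ lev i)) ∧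
      (if i ∈ o then 1 ≤ lev i ∧ ∀ x, (g i x = 1 ↔ ∃ a, q a x = 1)
        else ∀ x, g i x = ∑ a, q a x)) ∧
    ∃ i, ∀ x, (f x = true ↔ g i x = 1)

/-- ORC: a random linear combination detects a nonzero vector. -/
def T_ORC : Prop := ∀ (m e : ℕ) (y : Fin m → ZMod 2), (∃ a, y a = 1) →
  2 ^ e * Nat.card {c : Fin e → Fin m → ZMod 2 // ∀ j, ∑ a, c j a * y a = 0} =
    Nat.card (Fin e → Fin m → ZMod 2)

/-- A probabilistic polynomial of degree at most `d` for `f`, with error at most `1 / 3`. -/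
def Ppd (d : ℕ) {n : ℕ} (f : (Fin n → ZMod 2) → Bool) : Prop :=
  ∃ (N : ℕ) (p : Fin N → MvPolynomial (Fin n) (ZMod 2)), 0 < N ∧ (∀ ω, (p ω).totalDegree ≤ d) ∧
    ∀ x, 3 * Nat.card {ω : Fin N // ¬ (f x = true ↔ MvPolynomial.eval x (p ω) = 1)} ≤ N

/-- ACAP: circuits have probabilistic polynomials of small degree. -/
def T_ACAP : Prop := ∀ (n h M e : ℕ) (f : (Fin n → ZMod 2) → Bool), 1 ≤ e → 3 * M ≤ 2 ^ e →
  Ckt h M f → Ppd (e ^ h) f

/-- RQP: a probabilistic polynomial gives one randomised query. -/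
def T_RQP : Prop := ∀ (n d : ℕ) (f : (Fin n → ZMod 2) → Bool), Ppd d f → Rqd d f 1

end Pool.Agent.LDQ
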