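import Pool.Agent.LDQ.Targets

set_option autoImplicit false

/-!
# MP_9f5962_lc: many small monochromatic cosets give a large one
-/

open scoped Classical

noncomputable section

namespace Pool.Agent.LDQ

open Pool.Agent.LRC

namespace UNIF_

variable {E : Type} [AddCommGroup E] [Module (ZMod 2) E] [Finite E]

theorem card_bad (k : ℕ) (H : Submodule (ZMod 2) E) :
    Nat.card {q : E × (Fin k → E) // ∀ j, q.2 j ∈ H} = Nat.card E * Nat.card H ^ k := by
  have e : {q : E × (Fin k → E) // ∀ j, q.2 j ∈ H} ≃ E × (Fin k → H) :=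
    { toFun := fun q => (q.1.1, fun j => ⟨q.1.2 j, q.2 j⟩)
      invFun := fun p => ⟨(p.1, fun j => (p.2 j : E)), fun j => (p.2 j).2⟩
      left_inv := fun q => rfl
      right_inv := fun p => rfl }
  rw [Nat.card_congr e, Nat.card_prod, Nat.card_fun, Nat.card_eq_fintype_card (α := Fin k),
    Fintype.card_fin]

end UNIF_

theorem p_UNIF : T_FOUR → T_HYP → T_UNIF := by
  intro hF hH E _ _ _ f s k R M hs hM hlt
  obtain ⟨Hs, hc, hsub, hI⟩ := hH E (ind f) s R hs
  have key : ∃ q : E × (Fin k → E),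
      (∀ w ∈ Submodule.span (ZMod 2) (Set.range q.2), f (q.1 + w) = f q.1) ∧
      ∀ H ∈ Hs, ¬ Submodule.span (ZMod 2) (Set.range q.2) ≤ H := by
    by_contra hcon
    push Not at hcon
    have hE : 0 < Nat.card E := Nat.card_pos
    haveI : Fintype E := Fintype.ofFinite E
    let Mono : Finset (E × (Fin k → E)) := Finset.univ.filter
      (fun q => ∀ w ∈ Submodule.span (ZMod 2) (Set.range q.2), f (q.1 + w) = f q.1)
    let Bad : Submodule (ZMod 2) E → Finset (E × (Fin k → E)) := fun H => Finset.univ.filter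
      (fun q => ∀ j, q.2 j ∈ H)
    have hMono : Nat.card {q : E × (Fin k → E) //
        ∀ w ∈ Submodule.span (ZMod 2) (Set.range q.2), f (q.1 + w) = f q.1} = Mono.card := by
      rw [Nat.card_eq_fintype_card, Fintype.card_subtype]
    have hBad : ∀ H, (Bad H).card = Nat.card E * Nat.card H ^ k := by
      intro H
      rw [← UNIF_.card_bad, Nat.card_eq_fintype_card, Fintype.card_subtype]
    have hsubs : Mono ⊆ Hs.biUnion Bad := by
      intro q hq
      have hq' := (Finset.mem_filter.1 hq).2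
      obtain ⟨H, hH1, hH2⟩ := hcon q hq'
      refine Finset.mem_biUnion.2 ⟨H, hH1, Finset.mem_filter.2 ⟨Finset.mem_univ _, fun j => ?_⟩⟩
      exact hH2 (Submodule.subset_span ⟨j, rfl⟩)
    have h1 : Mono.card ≤ ∑ H ∈ Hs, Nat.card E * Nat.card H ^ k :=
      (Finset.card_le_card hsubs).trans
        (Finset.card_biUnion_le.trans (le_of_eq (Finset.sum_congr rfl fun H _ => hBad H)))
    rw [hMono] at hM
    have h2 : 2 ^ (k * R) * Mono.card ≤ s.choose R * Nat.card E ^ (k + 1) := by
      calc 2 ^ (k * R) * Mono.card ≤ 2 ^ (k * R) * ∑ H ∈ Hs, Nat.card E * Nat.card H ^ k :=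
            Nat.mul_le_mul_left _ h1
        _ = ∑ H ∈ Hs, 2 ^ (k * R) * (Nat.card E * Nat.card H ^ k) := Finset.mul_sum _ _ _
        _ ≤ ∑ H ∈ Hs, Nat.card E ^ (k + 1) := by
            refine Finset.sum_le_sum fun H hHm => ?_
            have h3 : 2 ^ (k * R) * (Nat.card E * Nat.card H ^ k) =
                Nat.card E * (2 ^ R * Nat.card H) ^ k := by
              rw [mul_pow, ← pow_mul, mul_comm R k]; ring
            rw [h3, pow_succ, mul_comm (Nat.card E ^ k)]
            exact Nat.mul_le_mul_left _ (Nat.pow_le_pow_left (hsub H hHm) k)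
        _ = Hs.card * Nat.card E ^ (k + 1) := by rw [Finset.sum_const, smul_eq_mul]
        _ ≤ s.choose R * Nat.card E ^ (k + 1) := Nat.mul_le_mul_right _ hc
    have h4 : 2 ^ (k * R) * Nat.card E ^ (k + 1) ≤
        (s.choose R * 2 ^ M) * Nat.card E ^ (k + 1) := by
      calc 2 ^ (k * R) * Nat.card E ^ (k + 1) ≤ 2 ^ (k * R) * (2 ^ M * Mono.card) :=
            Nat.mul_le_mul_left _ hM
        _ = 2 ^ M * (2 ^ (k * R) * Mono.card) := by ring
        _ ≤ 2 ^ M * (s.choose R * Nat.card E ^ (k + 1)) := Nat.mul_le_mul_left _ h2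
        _ = (s.choose R * 2 ^ M) * Nat.card E ^ (k + 1) := by ring
    have h5 : (s.choose R * 2 ^ M) * Nat.card E ^ (k + 1) <
        2 ^ (k * R) * Nat.card E ^ (k + 1) :=
      Nat.mul_lt_mul_of_pos_right hlt (pow_pos hE _)
    omega
  obtain ⟨q, hq1, hq2⟩ := key
  obtain ⟨W, hW1, hW2⟩ := hF E f (f q.1) q.1 (Submodule.span (ZMod 2) (Set.range q.2)) R hq1
    (by
      intro I hIc hI1 hI2
      obtain ⟨H, hHm, hHv⟩ := hI I hIc hI1 hI2
      by_contra hcon
      push Not at hcon
      exact hq2 H hHm (fun v hv => hHv v (fun l hl => hcon l hl v hv)))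
  exact ⟨q.1, W, hW1, hW2⟩

end Pool.Agent.LDQ
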