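import Pool.Agent.LDQ.Targets

set_option autoImplicit false

open scoped Classical

noncomputable section

namespace Pool.Agent.LDQ

open Pool.Agent.LRC

namespace WAR_

variable {E : Type} [AddCommGroup E] [Module (ZMod 2) E]

theorem Dv_one_add (P : E → ZMod 2) (a : E) : Dv a (fun x => 1 + P x) = Dv a P := by
  funext x
  have key : ∀ p q : ZMod 2, 1 + p + (1 + q) = p + q := by decide
  exact key _ _

theorem Dg_one_add (e : ℕ) (P : E → ZMod 2) (h : Dg e P) : Dg e (fun x => 1 + P x) := by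
  cases e with
  | zero =>
    intro a x
    rw [Dv_one_add]
    exact h a x
  | succ e =>
    intro a
    rw [Dv_one_add]
    exact h a

theorem exists_fun (hD : T_DGM) (l : List ℕ) : ∀ Z : Set E, Sys l Z →
    ∃ g : E → ZMod 2, Dg l.sum g ∧ Z = {x | g x ≠ 0} := by
  induction l with
  | nil =>
    intro Z hZ
    refine ⟨fun _ => 1, ?_, ?_⟩
    · intro a x
      have key : (1 : ZMod 2) + 1 = 0 := by decide
      exact key
    · simp only [Sys] at hZ
      rw [hZ]
      ext x
      simp
  | cons e l ih =>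
    intro Z hZ
    obtain ⟨P, Y, hP, hY, rfl⟩ := hZ
    obtain ⟨g, hg, rfl⟩ := ih Y hY
    refine ⟨fun x => (1 + P x) * g x, ?_, ?_⟩
    · rw [List.sum_cons]
      exact hD E e l.sum _ g (Dg_one_add e P hP) hg
    · ext x
      have key : ∀ p q : ZMod 2, (q ≠ 0 ∧ p = 0) ↔ (1 + p) * q ≠ 0 := by decide
      exact key (P x) (g x)

end WAR_

theorem p_WAR : T_DGM → T_RMD → T_WAR := by
  intro hD hR E _ _ _ l Z hZ hne
  obtain ⟨g, hg, rfl⟩ := WAR_.exists_fun hD l Z hZ
  exact hR E l.sum g hg hne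

end Pool.Agent.LDQ
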